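import Mathlib
import Pool.Agent.TH278.DX.Defs
set_option autoImplicit false

/-!
# Similarity constants and invariant operators
-/

namespace Pool.Agent.TH278.DX

open scoped ComplexOrder InnerProductSpace

theorem sim_iff_inv {G H : Type} [Group G] [NormedAddCommGroup H] [InnerProductSpace ℂ H]
    [CompleteSpace H] (π : G →* (H →L[ℂ] H)ˣ) (κ : ℝ) (hκ : 1 ≤ κ) :
    Sim π κ ↔ Inv π 1 (κ ^ 2) := by
  constructor
  · rintro ⟨S, hS, hU⟩
    set T : H →L[ℂ] H := (S : H →L[ℂ] H) with hT
    set R : H →L[ℂ] H := ((S⁻¹ : (H →L[ℂ] H)ˣ) : H →L[ℂ] H) with hR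
    have hRT : ∀ x, R (T x) = x := by
      intro x
      have h1 : R * T = 1 := S.inv_mul
      have := congrArg (fun f : H →L[ℂ] H => f x) h1
      simpa using this
    have hA : ∀ x y : H, inner ℂ (((‖R‖ ^ 2 : ℝ) : ℂ) • (ContinuousLinearMap.adjoint T ∘L T) x) y =
        ((‖R‖ ^ 2 : ℝ) : ℂ) * inner ℂ (T x) (T y) := by
      intro x y
      rw [inner_smul_left, Complex.conj_ofReal, ContinuousLinearMap.comp_apply,
        ContinuousLinearMap.adjoint_inner_left]
    refine ⟨((‖R‖ ^ 2 : ℝ) : ℂ) • (ContinuousLinearMap.adjoint T ∘L T), ?_, ?_, ?_, ?_⟩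
    · intro x y
      rw [smul_apply, smul_apply, hA, ← inner_conj_symm x,
        hA, map_mul, Complex.conj_ofReal, inner_conj_symm]
    · intro x
      rw [smul_apply, hA, Complex.re_ofReal_mul]
      have h1 : (inner ℂ (T x) (T x)).re = ‖T x‖ ^ 2 := by
        have := inner_self_eq_norm_sq (𝕜 := ℂ) (T x)
        simpa using this
      rw [h1, one_mul, ← mul_pow]
      have h2 : ‖x‖ ≤ ‖R‖ * ‖T x‖ := by
        calc ‖x‖ = ‖R (T x)‖ := by rw [hRT]
          _ ≤ _ := R.le_opNorm _
      gcongr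
    · intro x
      rw [smul_apply, hA, Complex.re_ofReal_mul]
      have h1 : (inner ℂ (T x) (T x)).re = ‖T x‖ ^ 2 := by
        have := inner_self_eq_norm_sq (𝕜 := ℂ) (T x)
        simpa using this
      rw [h1, ← mul_pow, ← mul_pow]
      have h2 : ‖R‖ * ‖T x‖ ≤ κ * ‖x‖ := by
        calc ‖R‖ * ‖T x‖ ≤ ‖R‖ * (‖T‖ * ‖x‖) := by
              gcongr
              exact T.le_opNorm x
          _ = (‖T‖ * ‖R‖) * ‖x‖ := by ring
          _ ≤ κ * ‖x‖ := by gcongr
      gcongr
    · intro g x y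
      rw [smul_apply, smul_apply, hA, hA]
      congr 1
      set P : H →L[ℂ] H := ((π g : (H →L[ℂ] H)ˣ) : H →L[ℂ] H) with hP
      have hUg := hU g
      set U : H →L[ℂ] H := ((S * π g * S⁻¹ : (H →L[ℂ] H)ˣ) : H →L[ℂ] H) with hUdef
      have hU1 : ∀ z, T (P z) = U (T z) := by
        intro z
        have h3 : U = T * P * R := by
          rw [hUdef, Units.val_mul, Units.val_mul]
        rw [h3]
        simp only [mul_apply_eq_comp, hRT]
      rw [hU1, hU1]
      have h4 : ContinuousLinearMap.adjoint U * U = 1 := by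
        have := (Unitary.mem_iff.1 hUg).1
        rwa [ContinuousLinearMap.star_eq_adjoint] at this
      rw [← ContinuousLinearMap.adjoint_inner_left]
      have h5 : ContinuousLinearMap.adjoint U (U (T x)) = T x := by
        have := congrArg (fun f : H →L[ℂ] H => f (T x)) h4
        simpa using this
      rw [h5]
  · rintro ⟨A, hsym, hm, hM, hinv⟩
    have hA0 : (0 : H →L[ℂ] H) ≤ A := by
      rw [ContinuousLinearMap.nonneg_iff_isPositive]
      refine ⟨fun x y => hsym x y, fun x => ?_⟩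
      have h1 := hm x
      rw [one_mul] at h1
      exact (sq_nonneg _).trans h1
    have h1A : (1 : H →L[ℂ] H) ≤ A := by
      rw [← sub_nonneg, ContinuousLinearMap.nonneg_iff_isPositive]
      refine ⟨fun x y => ?_, fun x => ?_⟩
      · have h2 := hsym x y
        simp only [ContinuousLinearMap.coe_coe, sub_apply, inner_sub_left, inner_sub_right,
          h2, one_apply_eq_self]
      · have h1 := hm x
        have h3 : (inner ℂ x x).re = ‖x‖ ^ 2 := by
          have := inner_self_eq_norm_sq (𝕜 := ℂ) x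
          simpa using this
        have h4 : ((A - 1 : H →L[ℂ] H).reApplyInnerSelf x) = (inner ℂ (A x) x).re - ‖x‖ ^ 2 := by
          rw [ContinuousLinearMap.reApplyInnerSelf_apply, sub_apply, inner_sub_left, map_sub]
          rw [one_apply_eq_self]
          simp only [RCLike.re_to_complex, h3]
        rw [h4]
        linarith
    set S : H →L[ℂ] H := CFC.sqrt A with hSdef
    have hSS : S * S = A := CFC.sqrt_mul_sqrt_self A hA0
    have hS0 : (0 : H →L[ℂ] H) ≤ S := CFC.sqrt_nonneg A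
    have hSsym : ∀ x y : H, inner ℂ (S x) y = inner ℂ x (S y) := by
      rw [ContinuousLinearMap.nonneg_iff_isPositive] at hS0
      exact fun x y => hS0.1 x y
    have hSA : ∀ x y : H, inner ℂ (S x) (S y) = inner ℂ (A x) y := by
      intro x y
      rw [← hSsym, ← hSS]
      rfl
    have hSn : ∀ x : H, ‖S x‖ ^ 2 = (inner ℂ (A x) x).re := by
      intro x
      have := inner_self_eq_norm_sq (𝕜 := ℂ) (S x)
      rw [hSA] at this
      simpa using this.symm
    have hAu : IsUnit A := CStarAlgebra.isUnit_of_le 1 h1A (by cfc_tac)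
    have hSu : IsUnit S := by
      rw [← hSS] at hAu
      exact ((Commute.refl S).isUnit_mul_iff.1 hAu).1
    obtain ⟨s, hs⟩ := hSu
    have hsr : ∀ x, S (((s⁻¹ : (H →L[ℂ] H)ˣ) : H →L[ℂ] H) x) = x := by
      intro x
      have h1 : S * ((s⁻¹ : (H →L[ℂ] H)ˣ) : H →L[ℂ] H) = 1 := by rw [← hs]; exact s.mul_inv
      have := congrArg (fun f : H →L[ℂ] H => f x) h1
      simpa using this
    have hk0 : 0 ≤ κ := by linarith
    have hn1 : ‖S‖ ≤ κ := by
      refine ContinuousLinearMap.opNorm_le_bound _ hk0 fun x => ?_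
      have h1 := hM x
      rw [← hSn, ← mul_pow] at h1
      exact (pow_le_pow_iff_left₀ (norm_nonneg _) (by positivity) two_ne_zero).1 h1
    have hn2 : ‖((s⁻¹ : (H →L[ℂ] H)ˣ) : H →L[ℂ] H)‖ ≤ 1 := by
      refine ContinuousLinearMap.opNorm_le_bound _ zero_le_one fun x => ?_
      have h1 := hm (((s⁻¹ : (H →L[ℂ] H)ˣ) : H →L[ℂ] H) x)
      rw [← hSn, hsr, one_mul] at h1
      rw [one_mul]
      exact (pow_le_pow_iff_left₀ (norm_nonneg _) (norm_nonneg _) two_ne_zero).1 h1
    refine ⟨s, ?_, fun g => ?_⟩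
    · rw [hs]
      calc ‖S‖ * ‖((s⁻¹ : (H →L[ℂ] H)ˣ) : H →L[ℂ] H)‖ ≤ κ * 1 :=
            mul_le_mul hn1 hn2 (norm_nonneg _) hk0
        _ = κ := mul_one κ
    · set u : (H →L[ℂ] H)ˣ := s * π g * s⁻¹ with hu
      set U : H →L[ℂ] H := (u : H →L[ℂ] H) with hUdef
      have hUin : ∀ x y : H, inner ℂ (U x) (U y) = inner ℂ x y := by
        intro x y
        have h3 : U = S * ((π g : (H →L[ℂ] H)ˣ) : H →L[ℂ] H) *
            ((s⁻¹ : (H →L[ℂ] H)ˣ) : H →L[ℂ] H) := by
          rw [hUdef, hu, Units.val_mul, Units.val_mul, hs]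
        rw [h3]
        simp only [mul_apply_eq_comp]
        rw [hSA, hinv, ← hSA, hsr, hsr]
      have h4 : ContinuousLinearMap.adjoint U * U = 1 := by
        ext x
        apply ext_inner_right ℂ
        intro y
        rw [mul_apply_eq_comp, ContinuousLinearMap.adjoint_inner_left, hUin,
          one_apply_eq_self]
      rw [Unitary.mem_iff, ContinuousLinearMap.star_eq_adjoint]
      refine ⟨h4, ?_⟩
      have h5 : ContinuousLinearMap.adjoint U = ((u⁻¹ : (H →L[ℂ] H)ˣ) : H →L[ℂ] H) :=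
        Units.eq_inv_of_mul_eq_one_right h4
      rw [h5]
      exact u.mul_inv

end Pool.Agent.TH278.DX
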