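import Mathlib
import Pool.Agent.TH974.IH.Box

set_option autoImplicit false

open Finset MeasureTheory ProbabilityTheory Filter Topology
open scoped ENNReal NNReal

namespace Pool.Agent.TH576.J2179

/-- a nonsingular submatrix of maximal size -/
theorem exists_sub {K : Type*} [Field K] {m n : Type*} [Fintype m] [Fintype n]
    (A : Matrix m n K) : ∃ (f : Fin A.rank → m) (g : Fin A.rank → n), Function.Injective f ∧
      Function.Injective g ∧ (A.submatrix f g).det ≠ 0 := by
  classical
  obtain ⟨κ, a, ha, hsp, hli⟩ := exists_linearIndependent' K A.row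
  have : Finite κ := Finite.of_injective a ha
  have := Fintype.ofFinite κ
  have hcard : Fintype.card κ = A.rank := by
    rw [A.rank_eq_finrank_span_row, ← hsp]
    exact (finrank_span_eq_card hli).symm
  have hB : (A.submatrix a id).rank = A.rank := by
    rw [← hcard]
    exact LinearIndependent.rank_matrix (M := A.submatrix a id) hli
  obtain ⟨κ', b, hb, hsp', hli'⟩ := exists_linearIndependent' K (A.submatrix a id).col
  have : Finite κ' := Finite.of_injective b hb
  have := Fintype.ofFinite κ'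
  have hcard' : Fintype.card κ' = A.rank := by
    rw [← hB, (A.submatrix a id).rank_eq_finrank_span_cols, ← hsp']
    exact (finrank_span_eq_card hli').symm
  let e : Fin A.rank ≃ κ := (Fintype.equivFinOfCardEq hcard).symm
  let e' : Fin A.rank ≃ κ' := (Fintype.equivFinOfCardEq hcard').symm
  refine ⟨a ∘ e, b ∘ e', ha.comp e.injective, hb.comp e'.injective, ?_⟩
  have h1 : LinearIndependent K (A.submatrix (a ∘ e) (b ∘ e')).col := by
    have h2 := (hli'.comp e' e'.injective).map' (LinearEquiv.funCongrLeft K K e).toLinearMap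
      (LinearEquiv.ker _)
    exact h2
  have h3 := Matrix.linearIndependent_cols_iff_isUnit.1 h1
  exact ((Matrix.isUnit_iff_isUnit_det _).1 h3).ne_zero

theorem det_bound {r : ℕ} (M : Matrix (Fin r) (Fin r) ℤ) (C : ℕ)
    (h : ∀ i, ∑ j, |M i j| ≤ C) : |M.det| ≤ (C : ℤ) ^ r := by
  classical
  rw [← Matrix.det_transpose, Matrix.det_apply']
  refine (Finset.abs_sum_le_sum_abs _ _).trans ?_
  have h1 : ∀ σ : Equiv.Perm (Fin r), |((Equiv.Perm.sign σ : ℤˣ) : ℤ) *
      ∏ i, M.transpose (σ i) i| = ∏ i, |M i (σ i)| := by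
    intro σ
    rw [abs_mul, Finset.abs_prod]
    rcases Int.units_eq_one_or (Equiv.Perm.sign σ) with h | h <;> simp [h]
  simp only [Int.cast_id]
  rw [Finset.sum_congr rfl fun σ _ => h1 σ]
  have h2 : ∑ σ : Equiv.Perm (Fin r), ∏ i, |M i (σ i)| ≤
      ∑ f : Fin r → Fin r, ∏ i, |M i (f i)| := by
    have h3 : ∑ σ : Equiv.Perm (Fin r), ∏ i, |M i (σ i)| =
        ∑ f ∈ (univ : Finset (Equiv.Perm (Fin r))).image
          (fun σ : Equiv.Perm (Fin r) => (σ : Fin r → Fin r)), ∏ i, |M i (f i)| := by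
      rw [Finset.sum_image]
      intro a _ b _ h
      exact Equiv.coe_fn_injective h
    rw [h3]
    exact Finset.sum_le_sum_of_subset_of_nonneg (Finset.subset_univ _)
      fun f _ _ => Finset.prod_nonneg fun i _ => abs_nonneg _
  refine h2.trans ?_
  have h4 : ∏ i, ∑ j, |M i j| = ∑ f : Fin r → Fin r, ∏ i, |M i (f i)| :=
    Fintype.prod_sum (fun i j => |M i j|)
  rw [← h4]
  refine (Finset.prod_le_prod (fun i _ => Finset.sum_nonneg fun j _ => abs_nonneg _)
    fun i _ => h i).trans ?_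
  simp

theorem pow_dvd_det {r : ℕ} (M : Matrix (Fin r) (Fin r) ℤ) (q : ℕ) (hq : q.Prime) :
    (q : ℤ) ^ (r - (M.map (Int.cast : ℤ → ZMod q)).rank) ∣ M.det := by
  classical
  have : Fact q.Prime := ⟨hq⟩
  set B := M.map (Int.cast : ℤ → ZMod q) with hBdef
  obtain ⟨V, U, e, hV, hU, hVU⟩ := Matrix.exists_rank_normal_form B
  -- lift of V
  have hsurj : Function.Surjective (Int.castRingHom (ZMod q)) := ZMod.intCast_surjective
  choose lift hlift using hsurj
  set P : Matrix (Fin r) (Fin r) ℤ := V.map lift with hP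
  have hPV : P.map (Int.castRingHom (ZMod q)) = V := by
    ext i j
    simpa [hP] using hlift (V i j)
  have hMB : M.map (Int.castRingHom (ZMod q)) = B := rfl
  have hdetP : ¬ (q : ℤ) ∣ P.det := by
    rw [← ZMod.intCast_zmod_eq_zero_iff_dvd]
    intro h0
    have h4 : (P.map (Int.castRingHom (ZMod q))).det = 0 := by
      have := (RingHom.map_det (Int.castRingHom (ZMod q)) P).symm
      rw [RingHom.mapMatrix_apply] at this
      rw [this]
      exact h0
    rw [hPV] at h4
    exact ((Matrix.isUnit_iff_isUnit_det _).1 hV).ne_zero h4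
  -- rows of P * M that vanish modulo q
  have hrow : ∀ i, (∃ b, e i = Sum.inr b) → ∀ j, (q : ℤ) ∣ (P * M) i j := by
    rintro i ⟨b, hb⟩ j
    rw [← ZMod.intCast_zmod_eq_zero_iff_dvd]
    have h5 : (P * M).map (Int.castRingHom (ZMod q)) = V * B := by
      rw [Matrix.map_mul, hPV, hMB]
    have h6 : V * B = (Matrix.fromBlocks 1 0 0 0 :
        Matrix (Fin B.rank ⊕ Fin (Fintype.card (Fin r) - B.rank))
          (Fin B.rank ⊕ Fin (Fintype.card (Fin r) - B.rank)) (ZMod q)).submatrix e e * U⁻¹ := by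
      rw [← hVU, Matrix.mul_assoc (V * B), Matrix.mul_nonsing_inv _
        ((Matrix.isUnit_iff_isUnit_det _).1 hU), Matrix.mul_one]
    have h7 : ((P * M).map (Int.castRingHom (ZMod q))) i j = 0 := by
      rw [h5, h6, Matrix.mul_apply]
      refine Finset.sum_eq_zero fun k _ => ?_
      rw [Matrix.submatrix_apply, hb]
      rcases e k with c | c <;> simp
    exact h7
  set s : Finset (Fin r) := univ.filter (fun i => ∃ b, e i = Sum.inr b) with hs
  have hscard : s.card = r - B.rank := by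
    have h8 : s = (univ : Finset (Fin (Fintype.card (Fin r) - B.rank))).image
        (fun b => e.symm (Sum.inr b)) := by
      ext i
      simp only [hs, Finset.mem_filter, Finset.mem_univ, true_and, Finset.mem_image]
      constructor
      · rintro ⟨b, hb⟩
        exact ⟨b, by rw [← hb]; simp⟩
      · rintro ⟨b, rfl⟩
        exact ⟨b, by simp⟩
    rw [h8, Finset.card_image_of_injective]
    · simp
    · intro b b' h
      simpa using h
  -- factor
  have hfac : ∃ N : Matrix (Fin r) (Fin r) ℤ, P * M =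
      Matrix.of fun i j => (if i ∈ s then (q : ℤ) else 1) * N i j := by
    have h9 : ∀ i j, ∃ c : ℤ, (P * M) i j = (if i ∈ s then (q : ℤ) else 1) * c := by
      intro i j
      by_cases hi : i ∈ s
      · obtain ⟨c, hc⟩ := hrow i ((Finset.mem_filter.1 hi).2) j
        exact ⟨c, by rw [if_pos hi, hc]⟩
      · exact ⟨(P * M) i j, by rw [if_neg hi, one_mul]⟩
    choose N hN using h9
    exact ⟨Matrix.of N, by ext i j; simp [hN]⟩
  obtain ⟨N, hN⟩ := hfac
  have h10 : P.det * M.det = (q : ℤ) ^ (r - B.rank) * N.det := by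
    rw [← Matrix.det_mul, hN, Matrix.det_mul_column]
    congr 1
    rw [Finset.prod_ite, Finset.prod_const, Finset.prod_const_one, mul_one, ← hscard]
    congr 2
    ext i
    simp
  have hcop : IsCoprime ((q : ℤ) ^ (r - B.rank)) P.det := by
    refine IsCoprime.pow_left ?_
    exact ((Nat.prime_iff_prime_int.1 hq).coprime_iff_not_dvd).2 hdetP
  exact hcop.dvd_of_dvd_mul_left ⟨N.det, h10⟩

theorem rank_deficit {m n : Type*} [Fintype m] [Fintype n] [DecidableEq m] [DecidableEq n]
    (A : Matrix m n ℤ) (C : ℕ) (hC : 1 ≤ C) (hA : ∀ i, ∑ j, |A i j| ≤ C) (Q : Finset ℕ)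
    (hQ : ∀ q ∈ Q, q.Prime) :
    ∑ q ∈ Q, (((A.map (Int.cast : ℤ → ℚ)).rank - (A.map (Int.cast : ℤ → ZMod q)).rank : ℕ) : ℝ) *
      Real.log q ≤ Fintype.card m * Real.log C := by
  classical
  have hex := exists_sub (A.map (Int.cast : ℤ → ℚ))
  obtain ⟨r, hr⟩ : ∃ r, r = (A.map (Int.cast : ℤ → ℚ)).rank := ⟨_, rfl⟩
  rw [← hr] at hex ⊢
  obtain ⟨f, g, hf, hg, hdet⟩ := hex
  set M := A.submatrix f g with hM
  have hMdet : M.det ≠ 0 := by
    intro h0
    apply hdet
    have h1 : ((A.map (Int.cast : ℤ → ℚ)).submatrix f g) =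
        (Int.castRingHom ℚ).mapMatrix M := by
      ext i j
      simp [hM]
    rw [h1, ← RingHom.map_det, h0, map_zero]
  have hMC : |M.det| ≤ (C : ℤ) ^ r := by
    refine det_bound M C fun i => ?_
    have h2 : ∑ j, |M i j| = ∑ j ∈ (univ : Finset (Fin r)).image g, |A (f i) j| := by
      rw [Finset.sum_image]
      · rfl
      · intro a _ b _ h
        exact hg h
    rw [h2]
    exact (Finset.sum_le_sum_of_subset_of_nonneg (Finset.subset_univ _)
      fun j _ _ => abs_nonneg _).trans (hA (f i))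
  have hdvd : ∀ q ∈ Q, q ^ (r - (A.map (Int.cast : ℤ → ZMod q)).rank) ∣ M.det.natAbs := by
    intro q hq
    have : Fact q.Prime := ⟨hQ q hq⟩
    have h3 := pow_dvd_det M q (hQ q hq)
    have h4 : (M.map (Int.cast : ℤ → ZMod q)).rank ≤ (A.map (Int.cast : ℤ → ZMod q)).rank :=
      Matrix.rank_submatrix_le (A.map (Int.cast : ℤ → ZMod q)) f g
    have h5 : ((q ^ (r - (A.map (Int.cast : ℤ → ZMod q)).rank) : ℕ) : ℤ) ∣ M.det := by
      push_cast
      exact (pow_dvd_pow _ (by omega)).trans h3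
    exact Int.natCast_dvd.1 h5
  have hprod : (∏ q ∈ Q, q ^ (r - (A.map (Int.cast : ℤ → ZMod q)).rank)) ∣ M.det.natAbs := by
    refine Finset.prod_dvd_of_isRelPrime ?_ hdvd
    intro p hp q hq hpq
    change IsRelPrime _ _
    rw [← Nat.coprime_iff_isRelPrime]
    exact Nat.Coprime.pow _ _ ((Nat.coprime_primes (hQ p hp) (hQ q hq)).2 hpq)
  have hle : (∏ q ∈ Q, q ^ (r - (A.map (Int.cast : ℤ → ZMod q)).rank)) ≤ C ^ r := by
    refine (Nat.le_of_dvd (Int.natAbs_pos.2 hMdet) hprod).trans ?_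
    have h6 : ((M.det.natAbs : ℕ) : ℤ) ≤ ((C ^ r : ℕ) : ℤ) := by
      push_cast
      exact hMC
    exact_mod_cast h6
  have hrm : r ≤ Fintype.card m := by
    have := Fintype.card_le_of_injective f hf
    simpa using this
  have hlog : ∑ q ∈ Q, ((r - (A.map (Int.cast : ℤ → ZMod q)).rank : ℕ) : ℝ) * Real.log q =
      Real.log ((∏ q ∈ Q, q ^ (r - (A.map (Int.cast : ℤ → ZMod q)).rank) : ℕ) : ℝ) := by
    rw [Nat.cast_prod, Real.log_prod]
    · refine Finset.sum_congr rfl fun q _ => ?_
      rw [Nat.cast_pow, Real.log_pow]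
    · intro q hq
      have := (hQ q hq).pos
      positivity
  rw [hlog]
  have hpos : (0 : ℝ) < ((∏ q ∈ Q, q ^ (r - (A.map (Int.cast : ℤ → ZMod q)).rank) : ℕ) : ℝ) := by
    have h7 : 0 < ∏ q ∈ Q, q ^ (r - (A.map (Int.cast : ℤ → ZMod q)).rank) :=
      Finset.prod_pos fun q hq => pow_pos (hQ q hq).pos _
    exact_mod_cast h7
  have hC' : (0 : ℝ) ≤ Real.log C := Real.log_nonneg (by exact_mod_cast hC)
  calc Real.log ((∏ q ∈ Q, q ^ (r - (A.map (Int.cast : ℤ → ZMod q)).rank) : ℕ) : ℝ)
      ≤ Real.log ((C : ℝ) ^ r) := Real.log_le_log hpos (by exact_mod_cast hle)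
    _ = r * Real.log C := Real.log_pow _ _
    _ ≤ Fintype.card m * Real.log C :=
        mul_le_mul_of_nonneg_right (by exact_mod_cast hrm) hC'

end Pool.Agent.TH576.J2179
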