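import Mathlib
import Pool.Agent.TH109.M.Defs

/-!
# METAB-4 (job 1554, written by helper576): the torsion of `M` is finite
-/

set_option autoImplicit false

open scoped Classical

namespace Pool.Agent.TH576.J1554

open Pool.Agent.Helper943.LM (UA wpow)
open Pool.Agent.TH109.M

variable {G : Type} [Group G]

theorem closure_mu (U : UA G) : Subgroup.closure (Set.range U.mu) = ⊤ := by
  rw [eq_top_iff]
  intro g _
  obtain ⟨w, -, rfl⟩ := U.surj g
  apply Subgroup.list_prod_mem
  intro x hx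
  obtain ⟨a, -, rfl⟩ := List.mem_map.1 hx
  exact Subgroup.subset_closure ⟨a, rfl⟩

section

variable {M : Type} [AddCommGroup M] (B : MB G M)

theorem i_zero : B.i 0 = 1 := by
  have h := B.i_add 0 0
  rw [add_zero] at h
  exact left_eq_mul.1 h

theorem i_neg (a : M) : B.i (-a) = (B.i a)⁻¹ := by
  rw [eq_inv_iff_mul_eq_one, ← B.i_add, neg_add_cancel, i_zero]

/-- the image of a subgroup -/
def im (N : AddSubgroup M) : Subgroup G where
  carrier := {x | ∃ a ∈ N, B.i a = x}
  mul_mem' := by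
    rintro _ _ ⟨a, ha, rfl⟩ ⟨b, hb, rfl⟩
    exact ⟨a + b, N.add_mem ha hb, B.i_add a b⟩
  one_mem' := ⟨0, N.zero_mem, i_zero B⟩
  inv_mem' := by
    rintro _ ⟨a, ha, rfl⟩
    exact ⟨-a, N.neg_mem ha, i_neg B a⟩

theorem im_normal (N : AddSubgroup M) (hN : ∀ g, ∀ a ∈ N, B.ρ g a ∈ N) : (im B N).Normal :=
  ⟨fun x hx g => by
    obtain ⟨a, ha, rfl⟩ := hx
    exact ⟨B.ρ g a, hN g a ha, (B.conj g a).symm⟩⟩

theorem rho_i (a b : M) : B.ρ (B.i a) b = b := by
  apply B.i_inj
  rw [← B.conj, ← B.i_add, add_comm, B.i_add]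
  group

theorem rho_comm (g h : G) : B.ρ g * B.ρ h = B.ρ h * B.ρ g := by
  obtain ⟨a, ha⟩ := B.comm g h
  have e : g * h = B.i a * (h * g) := by
    rw [ha]
    group
  have h1 : B.ρ (B.i a) = 1 := by
    ext b
    exact rho_i B a b
  rw [← map_mul, ← map_mul, e, map_mul, h1, one_mul]

theorem commutator_le_ker : commutator G ≤ B.ρ.ker := by
  rw [commutator_eq_closure, Subgroup.closure_le]
  rintro _ ⟨g, h, rfl⟩
  rw [SetLike.mem_coe, MonoidHom.mem_ker]
  obtain ⟨a, ha⟩ := B.comm g h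
  show B.ρ (g * h * g⁻¹ * h⁻¹) = 1
  rw [← ha]
  ext b
  exact rho_i B a b

end

theorem MB_fg {M : Type} [AddCommGroup M] (U : UA G) (B : MB G M) : FGS B := by
  have := U.finA
  have hfin : {a : M | ∃ s t : U.A, B.i a = U.mu s * U.mu t * (U.mu s)⁻¹ * (U.mu t)⁻¹}.Finite := by
    have : Set.Finite (Set.range fun q : U.A × U.A =>
        U.mu q.1 * U.mu q.2 * (U.mu q.1)⁻¹ * (U.mu q.2)⁻¹) := Set.finite_range _
    refine (this.preimage (f := B.i) B.i_inj.injOn).subset ?_
    rintro a ⟨s, t, h⟩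
    exact ⟨(s, t), h.symm⟩
  refine ⟨hfin.toFinset, fun N hN1 hN2 => B.gen N fun a ha => ?_⟩
  obtain ⟨g, h, hgh⟩ := ha
  have : (im B N).Normal := im_normal B N hN2
  set φ := QuotientGroup.mk' (im B N) with hφ
  have h1 : ∀ s t : U.A, φ (U.mu s) * φ (U.mu t) = φ (U.mu t) * φ (U.mu s) := by
    intro s t
    obtain ⟨b, hb⟩ := B.comm (U.mu s) (U.mu t)
    have hb1 : b ∈ N := hN1 (by
      rw [Set.Finite.coe_toFinset]
      exact ⟨s, t, hb⟩)
    have h2 : φ (U.mu s * U.mu t * (U.mu s)⁻¹ * (U.mu t)⁻¹) = 1 :=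
      (QuotientGroup.eq_one_iff _).2 ⟨b, hb1, hb⟩
    have e : U.mu s * U.mu t = U.mu s * U.mu t * (U.mu s)⁻¹ * (U.mu t)⁻¹ * (U.mu t * U.mu s) := by
      group
    rw [← map_mul, ← map_mul, e, map_mul φ, h2, one_mul]
  have h2 : ∀ (s : U.A) (x : G), φ (U.mu s) * φ x = φ x * φ (U.mu s) := by
    intro s x
    have h3 : (⊤ : Subgroup G) ≤ (Subgroup.centralizer {φ (U.mu s)}).comap φ := by
      rw [← closure_mu U, Subgroup.closure_le]
      rintro _ ⟨t, rfl⟩
      show φ (U.mu t) ∈ Subgroup.centralizer {φ (U.mu s)}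
      rw [Subgroup.mem_centralizer_singleton_iff]
      exact (h1 t s)
    have h4 : φ x ∈ Subgroup.centralizer {φ (U.mu s)} := h3 (Subgroup.mem_top x)
    rw [Subgroup.mem_centralizer_singleton_iff] at h4
    exact h4.symm
  have h3 : ∀ x y : G, φ x * φ y = φ y * φ x := by
    intro x y
    have h4 : (⊤ : Subgroup G) ≤ (Subgroup.centralizer {φ x}).comap φ := by
      rw [← closure_mu U, Subgroup.closure_le]
      rintro _ ⟨t, rfl⟩
      show φ (U.mu t) ∈ Subgroup.centralizer {φ x}
      rw [Subgroup.mem_centralizer_singleton_iff]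
      exact (h2 t x)
    have h5 : φ y ∈ Subgroup.centralizer {φ x} := h4 (Subgroup.mem_top y)
    rw [Subgroup.mem_centralizer_singleton_iff] at h5
    exact h5.symm
  have h4 : φ (g * h * g⁻¹ * h⁻¹) = 1 := by
    rw [map_mul, map_mul, map_mul, h3 g h, map_inv, map_inv]
    group
  rw [← hgh] at h4
  obtain ⟨a', ha', h5⟩ := (QuotientGroup.eq_one_iff _).1 h4
  rw [← B.i_inj h5]
  exact ha'

/-- the subgroup of multiples -/
def mulN (M : Type) [AddCommGroup M] (e : ℕ) : AddSubgroup M := (nsmulAddMonoidHom e : M →+ M).range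

theorem mem_mulN {M : Type} [AddCommGroup M] (e : ℕ) (x : M) : x ∈ mulN M e ↔ ∃ a, e • a = x :=
  Iff.rfl

theorem mulN_prime {M : Type} [AddCommGroup M] (B : MB G M) (h : FinDimS B) {p : ℕ}
    (hp : p.Prime) : (mulN M p).index ≠ 0 := by
  have : Fact p.Prime := ⟨hp⟩
  let E := M ⧸ mulN M p
  let : Module (ZMod p) E := AddCommGroup.zmodModule (n := p) (G := E) (by
    intro x
    obtain ⟨a, rfl⟩ := QuotientAddGroup.mk_surjective x
    rw [← QuotientAddGroup.mk_nsmul, QuotientAddGroup.eq_zero_iff]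
    exact ⟨a, rfl⟩)
  have hst : ∀ g : G, mulN M p ≤ (mulN M p).comap (B.ρ g : M →+ M) := by
    rintro g _ ⟨a, rfl⟩
    exact ⟨B.ρ g a, by
      show p • B.ρ g a = B.ρ g (p • a)
      rw [map_nsmul]⟩
  let ρE : G → (E →ₗ[ZMod p] E) := fun g =>
    AddMonoidHom.toZModLinearMap p (QuotientAddGroup.map _ _ (B.ρ g : M →+ M) (hst g))
  have h1 : FiniteDimensional (ZMod p) E := by
    refine h (ZMod p) E (QuotientAddGroup.mk' (mulN M p)) ρE ?_ ?_
    · have : Set.range (QuotientAddGroup.mk' (mulN M p)) = Set.univ :=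
        Set.range_eq_univ.2 (QuotientAddGroup.mk'_surjective _)
      rw [this, Submodule.span_univ]
    · intro g a
      rfl
  have : Finite E := @Module.finite_of_finite (ZMod p) E _ _ _ _ h1
  have : (mulN M p).FiniteIndex := AddSubgroup.finiteIndex_of_finite_quotient
  exact AddSubgroup.FiniteIndex.index_ne_zero

theorem mulN_mul {M : Type} [AddCommGroup M] {a b : ℕ} (ha : (mulN M a).index ≠ 0)
    (hb : (mulN M b).index ≠ 0) : (mulN M (a * b)).index ≠ 0 := by
  have hle : mulN M (a * b) ≤ mulN M a := by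
    rintro _ ⟨x, rfl⟩
    exact ⟨b • x, by
      show a • b • x = (a * b) • x
      rw [mul_nsmul, smul_comm]⟩
  rw [← AddSubgroup.relIndex_mul_index hle]
  refine mul_ne_zero ?_ ha
  let f : M →+ mulN M a := (nsmulAddMonoidHom a : M →+ M).rangeRestrict
  have hf : Function.Surjective f := AddMonoidHom.rangeRestrict_surjective _
  have h1 := AddSubgroup.index_map_dvd (mulN M b) hf
  have h2 : (mulN M b).map f = (mulN M (a * b)).addSubgroupOf (mulN M a) := by
    ext ⟨x, hx⟩
    constructor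
    · rintro ⟨_, ⟨y, rfl⟩, hy⟩
      rw [AddSubgroup.mem_addSubgroupOf]
      refine ⟨y, ?_⟩
      have := congrArg Subtype.val hy
      rw [← this]
      show (a * b) • y = a • b • y
      rw [mul_nsmul, smul_comm]
    · intro h3
      rw [AddSubgroup.mem_addSubgroupOf] at h3
      obtain ⟨y, hy⟩ := h3
      refine ⟨b • y, ⟨y, rfl⟩, ?_⟩
      apply Subtype.ext
      show a • b • y = x
      have hy' : (a * b) • y = x := hy
      rw [← hy', mul_nsmul, smul_comm]
  have h3 : (mulN M (a * b)).relIndex (mulN M a) = ((mulN M b).map f).index := by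
    rw [h2]
    rfl
  rw [h3]
  intro h4
  rw [h4, zero_dvd_iff] at h1
  exact hb h1

theorem mulN_index {M : Type} [AddCommGroup M] (B : MB G M) (h : FinDimS B) (e : ℕ) :
    0 < e → (mulN M e).index ≠ 0 := by
  induction e using Nat.recOnMul with
  | zero => exact fun h => absurd h (lt_irrefl 0)
  | one =>
    intro _
    have : mulN M 1 = ⊤ := by
      rw [eq_top_iff]
      exact fun x _ => ⟨x, one_nsmul x⟩
    rw [this, AddSubgroup.index_top]
    exact one_ne_zero
  | prime p hp => exact fun _ => mulN_prime B h hp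
  | mul a b iha ihb =>
    intro hab
    exact mulN_mul (iha (Nat.pos_of_mul_pos_right hab)) (ihb (Nat.pos_of_mul_pos_left hab))

/-- the exponent of the torsion -/
theorem tors_exp {M : Type} [AddCommGroup M] (B : MB G M) (hfg : FGS B)
    (S : Finset G) (hS : Subgroup.closure (S : Set G) = ⊤) :
    ∃ e : ℕ, 0 < e ∧ ∀ a : M, (∃ n : ℕ, 0 < n ∧ n • a = 0) → e • a = 0 := by
  have : Group.FG G := ⟨⟨S, hS⟩⟩
  let A := MonoidAlgebra ℤ (Abelianization G)
  have : Group.FG (Abelianization G) := QuotientGroup.fg (commutator G)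
  have : IsNoetherianRing A := Algebra.FiniteType.isNoetherianRing ℤ A
  let ρ' : Abelianization G →* AddMonoid.End M :=
    QuotientGroup.lift (commutator G) B.ρ (commutator_le_ker B)
  let φ : A →ₐ[ℤ] AddMonoid.End M := MonoidAlgebra.lift ℤ (AddMonoid.End M) (Abelianization G) ρ'
  let : Module A M := Module.compHom M φ.toRingHom
  have hsm : ∀ (x : A) (a : M), x • a = φ x a := fun x a => rfl
  have hg : ∀ (g : G) (a : M), (MonoidAlgebra.of ℤ (Abelianization G) (Abelianization.of g) : A) • a =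
      B.ρ g a := by
    intro g a
    rw [hsm]
    have : φ (MonoidAlgebra.of ℤ (Abelianization G) (Abelianization.of g)) = B.ρ g := by
      have h2 : φ (MonoidAlgebra.of ℤ (Abelianization G) (Abelianization.of g)) =
          ρ' (Abelianization.of g) := MonoidAlgebra.lift_of ρ' _
      rw [h2]
      rfl
    rw [this]
  have : Module.Finite A M := by
    obtain ⟨S0, hS0⟩ := hfg
    refine ⟨⟨S0, ?_⟩⟩
    have h1 := hS0 (Submodule.span A (S0 : Set M)).toAddSubgroup Submodule.subset_span (by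
      intro g a ha
      rw [← hg]
      exact Submodule.smul_mem _ _ ha)
    rw [eq_top_iff]
    intro x _
    have : x ∈ (Submodule.span A (S0 : Set M)).toAddSubgroup := by
      rw [h1]
      exact AddSubgroup.mem_top x
    exact this
  have : IsNoetherian A M := isNoetherian_of_isNoetherianRing_of_finite A M
  let T : Submodule A M :=
    { carrier := {a | ∃ n : ℕ, 0 < n ∧ n • a = 0}
      add_mem' := by
        rintro a b ⟨n, hn, ha⟩ ⟨m, hm, hb⟩
        refine ⟨n * m, Nat.mul_pos hn hm, ?_⟩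
        rw [smul_add, mul_nsmul, ha, smul_zero, mul_comm, mul_nsmul, hb, smul_zero, add_zero]
      zero_mem' := ⟨1, one_pos, smul_zero _⟩
      smul_mem' := by
        rintro c a ⟨n, hn, ha⟩
        refine ⟨n, hn, ?_⟩
        rw [hsm, ← map_nsmul, ha, map_zero] }
  obtain ⟨F, hF⟩ := (isNoetherian_def.1 ‹IsNoetherian A M›) T
  have hF2 : ∀ a : M, ∃ n : ℕ, 0 < n ∧ (a ∈ F → n • a = 0) := by
    intro a
    by_cases ha : a ∈ F
    · have : a ∈ T := by
        rw [← hF]
        exact Submodule.subset_span ha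
      obtain ⟨n, hn, h⟩ := this
      exact ⟨n, hn, fun _ => h⟩
    · exact ⟨1, one_pos, fun h => absurd h ha⟩
  choose n hn hna using hF2
  have key : ∀ a ∈ Submodule.span A (F : Set M), (∏ a ∈ F, n a) • a = 0 := by
    intro a ha
    induction ha using Submodule.span_induction with
    | mem x hx =>
      obtain ⟨c, hc⟩ := Finset.dvd_prod_of_mem n hx
      rw [hc, mul_nsmul, hna x hx, smul_zero]
    | zero => exact smul_zero _
    | add x y _ _ hx hy => rw [smul_add, hx, hy, add_zero]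
    | smul c x _ hx => rw [hsm, ← map_nsmul, hx, map_zero]
  refine ⟨∏ a ∈ F, n a, Finset.prod_pos fun a _ => hn a, ?_⟩
  intro a ha
  apply key
  rw [hF]
  exact ha

theorem tors_fin {M : Type} [AddCommGroup M] (B : MB G M) (h : FinDimS B) (hfg : FGS B)
    (S : Finset G) (hS : Subgroup.closure (S : Set G) = ⊤) :
    {a : M | ∃ n : ℕ, 0 < n ∧ n • a = 0}.Finite := by
  obtain ⟨e, he, hT⟩ := tors_exp B hfg S hS
  have : (mulN M e).FiniteIndex := ⟨mulN_index B h e he⟩
  have : Finite (M ⧸ mulN M e) := AddSubgroup.finite_quotient_of_finiteIndex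
  refine Set.Finite.of_injOn (f := QuotientAddGroup.mk' (mulN M e)) (t := Set.univ)
    (fun _ _ => Set.mem_univ _) ?_ Set.finite_univ
  rintro a ⟨n, hn, ha⟩ b ⟨m, hm, hb⟩ hab
  have h1 : -a + b ∈ mulN M e := QuotientAddGroup.eq.1 hab
  obtain ⟨c, hc⟩ := h1
  have hc' : e • c = -a + b := hc
  have h2 : e • c = 0 := by
    apply hT
    refine ⟨n * m * e, Nat.mul_pos (Nat.mul_pos hn hm) he, ?_⟩
    have h3 : (n * m) • (-a + b) = 0 := by
      rw [smul_add, smul_neg, mul_nsmul, ha, smul_zero, neg_zero, zero_add, mul_comm, mul_nsmul,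
        hb, smul_zero]
    rw [mul_comm, mul_nsmul, hc', h3]
  rw [h2] at hc'
  exact (neg_add_eq_zero.1 hc'.symm)

end Pool.Agent.TH576.J1554
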