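import Mathlib
import Pool.Agent.TH109.M.Defs

/-!
# METAB-11 (job 1567, written by helper576): loops in an automaton with commuting closed words
-/

set_option autoImplicit false

open scoped Classical

namespace Pool.Agent.TH576.J1567

open Pool.Agent.Helper943.LM (UA wpow wpow_zero wpow_succ wpow_length)
open Pool.Agent.TH109.M

variable {G : Type} [Group G]

theorem short_loop (U : UA G) {s : U.S} (h : Cy U s) :
    ∃ X : List U.A, X ≠ [] ∧ U.run s X = s ∧ X.length ≤ Nat.card U.S := by
  have := U.finS
  have hex : ∃ n : ℕ, ∃ X : List U.A, X ≠ [] ∧ U.run s X = s ∧ X.length = n := by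
    obtain ⟨X, h1, h2⟩ := h
    exact ⟨_, X, h1, h2, rfl⟩
  obtain ⟨X, h1, h2, h3⟩ := Nat.find_spec hex
  refine ⟨X, h1, h2, ?_⟩
  by_contra hlt
  push Not at hlt
  have hni : ¬ Function.Injective (fun t : Fin X.length => U.run s (X.take t)) := by
    intro hi
    have := Nat.card_le_card_of_injective _ hi
    rw [Nat.card_eq_fintype_card, Fintype.card_fin] at this
    omega
  unfold Function.Injective at hni
  push Not at hni
  obtain ⟨a, b, hab, hne⟩ := hni
  have key : ∀ a b : Fin X.length, U.run s (X.take a) = U.run s (X.take b) → a < b → False := by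
    intro a b hab hlt2
    have hb := b.2
    have e : U.run s (X.take a ++ X.drop b) = s := by
      rw [U.run_append, hab, ← U.run_append, List.take_append_drop]
      exact h2
    have hlen : (X.take a ++ X.drop b).length < Nat.find hex := by
      rw [List.length_append, List.length_take, List.length_drop, ← h3]
      have : (a : ℕ) < b := hlt2
      omega
    refine Nat.find_min hex hlen ⟨_, ?_, e, rfl⟩
    intro h0
    have h5 := congrArg List.length h0
    rw [List.length_append, List.length_take, List.length_drop, List.length_nil] at h5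
    omega
  rcases lt_or_gt_of_ne hne with h | h
  · exact key a b hab h
  · exact key b a hab.symm h

theorem lp_spec (U : UA G) (ℓ : ℕ) (hdiv : ∀ k, 1 ≤ k → k ≤ Nat.card U.S → k ∣ ℓ) {s : U.S}
    (h : Cy U s) : U.run s (lp U ℓ s) = s ∧ (lp U ℓ s).length = ℓ := by
  have hex : ∃ X : List U.A, U.run s X = s ∧ X.length = ℓ := by
    obtain ⟨X, h1, h2, h3⟩ := short_loop U h
    obtain ⟨k, hk⟩ := hdiv X.length (List.length_pos_iff.2 h1) h3
    refine ⟨wpow X k, U.run_wpow h2 k, ?_⟩
    rw [wpow_length, hk, mul_comm]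
  unfold Pool.Agent.TH109.M.lp
  rw [dif_pos hex]
  exact hex.choose_spec

theorem live_run (U : UA G) {s : U.S} (hs : U.live s) {z z' : List U.A}
    (h : U.run (U.run s z) z' = s) : U.live (U.run s z) := by
  obtain ⟨⟨u, hu⟩, v, hv⟩ := hs
  refine ⟨⟨u ++ z, ?_⟩, z' ++ v, ?_⟩
  · rw [U.run_append, hu]
  · rw [U.run_append, h]
    exact hv

theorem cy_run (U : UA G) {s : U.S} (hs : Cy U s) {z z' : List U.A}
    (h : U.run (U.run s z) z' = s) : Cy U (U.run s z) := by
  by_cases h0 : z = []
  · subst h0
    exact hs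
  · refine ⟨z' ++ z, ?_, ?_⟩
    · intro h1
      exact h0 (List.append_eq_nil_iff.1 h1).2
    · rw [U.run_append, h]

theorem loop3 (U : UA G) (hU : Star U) (ℓ : ℕ)
    (hdiv : ∀ k, 1 ≤ k → k ≤ Nat.card U.S → k ∣ ℓ) {s : U.S} (hs : U.live s) (hc : Cy U s)
    {z : List U.A} (hz : Cn U (U.run s z) s) : lp U ℓ s ++ z = z ++ lp U ℓ (U.run s z) := by
  obtain ⟨z', hz'⟩ := hz
  obtain ⟨h1, h2⟩ := lp_spec U ℓ hdiv hc
  obtain ⟨h3, h4⟩ := lp_spec U ℓ hdiv (cy_run U hc hz')
  have h5 := hU s hs (lp U ℓ s ++ z ++ z') (z ++ lp U ℓ (U.run s z) ++ z')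
    (by rw [U.run_append, U.run_append, h1, hz'])
    (by rw [U.run_append, U.run_append, h3, hz'])
    (by
      simp only [List.length_append]
      rw [h2, h4]
      omega)
  exact List.append_cancel_right h5

/-- the piece of a word between two times -/
theorem take_split {α : Type} (w : List α) {t t' : ℕ} (h : t ≤ t') :
    w.take t' = w.take t ++ (w.take t').drop t := by
  conv_lhs => rw [← List.take_append_drop t (w.take t')]
  rw [List.take_take, min_eq_left h]

theorem st_live (U : UA G) {w : List U.A} (hw : w ∈ U.L) (t : ℕ) : U.live (st U w t) := by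
  apply U.live_of_mem (v := w.drop t)
  rw [List.take_append_drop]
  exact hw

theorem iter_append {α : Type} (x y z : List α) (h : x ++ z = z ++ y) (k : ℕ) :
    wpow x k ++ z = z ++ wpow y k := by
  induction k with
  | zero => rw [wpow_zero, wpow_zero, List.nil_append, List.append_nil]
  | succ k ih =>
    rw [wpow_succ, wpow_succ, List.append_assoc, ih, ← List.append_assoc, h, List.append_assoc]

theorem loopS (U : UA G) (hU : Star U) (ℓ : ℕ) (hℓ : 0 < ℓ)
    (hdiv : ∀ k, 1 ≤ k → k ≤ Nat.card U.S → k ∣ ℓ) : LoopS U ℓ := by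
  refine ⟨hℓ, fun s _ hc => lp_spec U ℓ hdiv hc, fun s hs hc z hz => loop3 U hU ℓ hdiv hs hc hz,
    ?_, ?_⟩
  · intro w hw t t' htt' hc hcn
    set z := (w.take t').drop t with hz
    have e : w.take t' = w.take t ++ z := take_split w htt'
    have e2 : st U w t' = U.run (st U w t) z := by
      unfold st
      rw [e, U.run_append]
    have e3 : pt U w t' = pt U w t * U.ev z := by
      unfold pt
      rw [e, U.ev_append]
    rw [e2] at hcn
    have h1 := loop3 U hU ℓ hdiv (st_live U hw t) hc hcn
    rw [← e2] at h1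
    have h2 := congrArg U.ev h1
    rw [U.ev_append, U.ev_append] at h2
    unfold EV
    rw [e3]
    calc pt U w t * U.ev (lp U ℓ (st U w t)) * (pt U w t)⁻¹
        = pt U w t * (U.ev (lp U ℓ (st U w t)) * U.ev z) * (U.ev z)⁻¹ * (pt U w t)⁻¹ := by group
      _ = pt U w t * (U.ev z * U.ev (lp U ℓ (st U w t'))) * (U.ev z)⁻¹ * (pt U w t)⁻¹ := by rw [h2]
      _ = pt U w t * U.ev z * U.ev (lp U ℓ (st U w t')) * (pt U w t * U.ev z)⁻¹ := by group
  · intro w hw t t' htt' hc hc' hEV
    set z := (w.take t').drop t with hz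
    have e : w.take t' = w.take t ++ z := take_split w htt'
    have e2 : st U w t' = U.run (st U w t) z := by
      unfold st
      rw [e, U.run_append]
    have e3 : pt U w t' = pt U w t * U.ev z := by
      unfold pt
      rw [e, U.ev_append]
    obtain ⟨h1, h2⟩ := lp_spec U ℓ hdiv hc
    obtain ⟨h3, h4⟩ := lp_spec U ℓ hdiv hc'
    have h5 : U.ev (lp U ℓ (st U w t)) * U.ev z = U.ev z * U.ev (lp U ℓ (st U w t')) := by
      unfold EV at hEV
      rw [e3] at hEV
      calc U.ev (lp U ℓ (st U w t)) * U.ev z
          = (pt U w t)⁻¹ * (pt U w t * U.ev (lp U ℓ (st U w t)) * (pt U w t)⁻¹) * pt U w t *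
            U.ev z := by group
        _ = (pt U w t)⁻¹ * (pt U w t * U.ev z * U.ev (lp U ℓ (st U w t')) *
            (pt U w t * U.ev z)⁻¹) * pt U w t * U.ev z := by rw [hEV]
        _ = U.ev z * U.ev (lp U ℓ (st U w t')) := by group
    have hacc : U.run (st U w t') (w.drop t') ∈ U.acc := by
      unfold st
      rw [← U.run_append, List.take_append_drop]
      exact hw
    have m1 : w.take t ++ lp U ℓ (st U w t) ++ z ++ w.drop t' ∈ U.L := by
      rw [U.mem_L, U.run_append, U.run_append, U.run_append]
      change U.run (U.run (U.run (st U w t) (lp U ℓ (st U w t))) z) (w.drop t') ∈ U.acc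
      rw [h1, ← e2]
      exact hacc
    have m2 : w.take t ++ z ++ lp U ℓ (st U w t') ++ w.drop t' ∈ U.L := by
      rw [U.mem_L, U.run_append, U.run_append, U.run_append]
      change U.run (U.run (U.run (st U w t) z) (lp U ℓ (st U w t'))) (w.drop t') ∈ U.acc
      rw [← e2, h3]
      exact hacc
    have h6 := U.ev_inj m1 m2 (by
      simp only [U.ev_append]
      rw [mul_assoc (U.ev (w.take t)), h5]
      simp only [mul_assoc])
    have h7 : lp U ℓ (st U w t) ++ z = z ++ lp U ℓ (st U w t') := by
      have h8 := List.append_cancel_right h6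
      rw [List.append_assoc, List.append_assoc] at h8
      exact List.append_cancel_left h8
    have h8 := iter_append _ _ _ h7 z.length
    have h9 : z <+: wpow (lp U ℓ (st U w t)) z.length := by
      refine List.prefix_of_prefix_length_le (l₃ := z ++ wpow (lp U ℓ (st U w t')) z.length)
        (List.prefix_append _ _) ?_ ?_
      · rw [← h8]
        exact List.prefix_append _ _
      · rw [wpow_length, h2]
        exact Nat.le_mul_of_pos_right _ hℓ
    obtain ⟨y, hy⟩ := h9
    refine ⟨y, ?_⟩
    rw [e2, ← U.run_append, hy]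
    exact U.run_wpow h1 _

end Pool.Agent.TH576.J1567
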