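import Mathlib
import Pool.Agent.TH109.M.Defs

/-!
# METAB-13 (job 1569, written by helper576): decomposition of normal forms into powers of loops
-/

set_option autoImplicit false

open scoped Classical

namespace Pool.Agent.TH576.J1569

open Pool.Agent.Helper943.LM (UA wpow wpow_zero wpow_succ wpow_add wpow_length)
open Pool.Agent.TH109.M

variable {G : Type} [Group G]

/-- the piece of a word between two times -/
def pc {α : Type} (w : List α) (x y : ℕ) : List α := (w.take y).drop x

theorem take_pc {α : Type} (w : List α) {x y : ℕ} (h : x ≤ y) :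
    w.take y = w.take x ++ pc w x y := by
  unfold pc
  conv_lhs => rw [← List.take_append_drop x (w.take y)]
  rw [List.take_take, min_eq_left h]

theorem pc_length {α : Type} (w : List α) {x y : ℕ} (h : y ≤ w.length) :
    (pc w x y).length = y - x := by
  unfold pc
  rw [List.length_drop, List.length_take, min_eq_left h]

theorem st_pc (U : UA G) (w : List U.A) {x y : ℕ} (h : x ≤ y) :
    st U w y = U.run (st U w x) (pc w x y) := by
  unfold st
  rw [take_pc w h, U.run_append]

theorem st_live (U : UA G) {w : List U.A} (hw : w ∈ U.L) (t : ℕ) : U.live (st U w t) := by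
  apply U.live_of_mem (v := w.drop t)
  rw [List.take_append_drop]
  exact hw

theorem iter_append {α : Type} (x y z : List α) (h : x ++ z = z ++ y) (k : ℕ) :
    wpow x k ++ z = z ++ wpow y k := by
  induction k with
  | zero => rw [wpow_zero, wpow_zero, List.nil_append, List.append_nil]
  | succ k ih =>
    rw [wpow_succ, wpow_succ, List.append_assoc, ih, ← List.append_assoc, h, List.append_assoc]

/-- a word which slides along a loop is a power of the loop followed by a short word -/
theorem pow_dec {α : Type} (x y z : List α) (hx : 0 < x.length) (h : x ++ z = z ++ y) :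
    ∃ (m : ℕ) (r : List α), z = wpow x m ++ r ∧ r.length < x.length ∧ m ≤ z.length := by
  have h1 := iter_append x y z h z.length
  have h2 : z <+: wpow x z.length := by
    refine List.prefix_of_prefix_length_le (l₃ := z ++ wpow y z.length)
      (List.prefix_append _ _) ?_ ?_
    · rw [← h1]
      exact List.prefix_append _ _
    · rw [wpow_length]
      exact Nat.le_mul_of_pos_right _ hx
  have hm : z.length / x.length ≤ z.length := Nat.div_le_self _ _
  have h3 : wpow x (z.length / x.length) <+: wpow x z.length := by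
    obtain ⟨l, hl⟩ := Nat.exists_eq_add_of_le hm
    conv_rhs => rw [hl]
    rw [wpow_add]
    exact List.prefix_append _ _
  have h4 : wpow x (z.length / x.length) <+: z :=
    List.prefix_of_prefix_length_le h3 h2 (by
      rw [wpow_length]
      exact Nat.div_mul_le_self _ _)
  obtain ⟨r, hr⟩ := h4
  refine ⟨z.length / x.length, r, hr.symm, ?_, hm⟩
  have h5 := congrArg List.length hr
  rw [List.length_append, wpow_length] at h5
  have h6 := Nat.div_add_mod z.length x.length
  have h7 := Nat.mod_lt z.length hx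
  rw [mul_comm] at h6
  omega

/-- times in non cyclic states are few -/
theorem few (U : UA G) (w : List U.A) {a b : ℕ} (hb : b ≤ w.length)
    (h : ∀ x, a < x → x < b → ¬ Cy U (st U w x)) : b ≤ a + Nat.card U.S + 1 := by
  have := U.finS
  by_contra hlt
  push Not at hlt
  have key : ∀ x y, a < x → y < b → x < y → st U w x ≠ st U w y := by
    intro x y h1 h2 h3 h4
    refine h x h1 (by omega) ⟨pc w x y, ?_, ?_⟩
    · intro h5
      have h6 := congrArg List.length h5
      rw [pc_length w (by omega), List.length_nil] at h6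
      omega
    · rw [← st_pc U w h3.le, h4]
  have hinj : Function.Injective (fun i : Fin (Nat.card U.S + 1) => st U w (a + 1 + i)) := by
    intro i j hij
    have hi := i.2
    have hj := j.2
    rcases lt_trichotomy (i : ℕ) (j : ℕ) with h1 | h1 | h1
    · exact absurd hij (key _ _ (by omega) (by omega) (by omega))
    · exact Fin.ext h1
    · exact absurd hij.symm (key _ _ (by omega) (by omega) (by omega))
  have h1 := Nat.card_le_card_of_injective _ hinj
  rw [Nat.card_eq_fintype_card, Fintype.card_fin] at h1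
  omega

/-- the conjugates of the loops in a type -/
noncomputable def ab (U : UA G) (ℓ : ℕ) : List U.A → List (List U.A) → List G
  | _, [] => []
  | P, p :: ps => (U.ev P * U.ev (lp U ℓ (U.run U.s0 P)) * (U.ev P)⁻¹) :: ab U ℓ (P ++ p) ps

theorem ab_length (U : UA G) (ℓ : ℕ) (P : List U.A) (ps : List (List U.A)) :
    (ab U ℓ P ps).length = ps.length := by
  induction ps generalizing P with
  | nil => rfl
  | cons p ps ih => rw [ab, List.length_cons, List.length_cons, ih]

theorem greatest (P : ℕ → Prop) {t n : ℕ} (ht : t ≤ n) (hP : P t) :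
    ∃ b, t ≤ b ∧ b ≤ n ∧ P b ∧ ∀ x, b < x → x ≤ n → ¬ P x :=
  ⟨Nat.findGreatest P n, Nat.le_findGreatest ht hP, Nat.findGreatest_le n,
    Nat.findGreatest_spec ht hP, fun _ h1 h2 => Nat.findGreatest_is_greatest h1 h2⟩

theorem dec_aux (U : UA G) (ℓ : ℕ) (hL : LoopS U ℓ) (w : List U.A) (hw : w ∈ U.L) (es : List G) :
    ∀ (ts : List ℕ) (a : ℕ) (P : List U.A), a ≤ w.length → es.Nodup → ts.Pairwise (· ≤ ·) →
      List.Forall₂ (fun t e => t ≤ w.length ∧ Cy U (st U w t) ∧ EV U ℓ w t = e) ts es →
      (∀ t ∈ ts, a ≤ t) →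
      (∀ x, a < x → x ≤ w.length → Cy U (st U w x) → EV U ℓ w x ∈ es) →
      U.run U.s0 P = st U w a →
      ∃ (q : List U.A) (ps : List (List U.A)) (ms : List ℕ), ps.length = es.length ∧
        ms.length = es.length ∧ q.length ≤ Nat.card U.S + 1 ∧
        (∀ p ∈ ps, p.length ≤ ℓ + (Nat.card U.S + 1)) ∧ (∀ k ∈ ms, k ≤ w.length) ∧
        U.ev w = U.ev (w.take a) * (U.ev P)⁻¹ * ml (ab U ℓ (P ++ q) ps) ms *
          U.ev (P ++ q ++ ps.flatten) ∧
        (cj (ab U ℓ (P ++ q) ps) ms).map (fun b => U.ev (w.take a) * (U.ev P)⁻¹ * b *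
          (U.ev (w.take a) * (U.ev P)⁻¹)⁻¹) = es := by
  obtain ⟨hℓ, hL2, hL3, hL4, hL5⟩ := hL
  induction es with
  | nil =>
    intro ts a P ha _ _ hF _ hcyc _
    refine ⟨w.drop a, [], [], rfl, rfl, ?_, ?_, ?_, ?_, ?_⟩
    · rw [List.length_drop]
      have := few U w (a := a) (b := w.length) le_rfl (fun x h1 h2 h3 =>
        absurd (hcyc x h1 h2.le h3) List.not_mem_nil)
      omega
    · intro p hp
      exact absurd hp List.not_mem_nil
    · intro p hp
      exact absurd hp List.not_mem_nil
    · have e : U.ev w = U.ev (w.take a) * U.ev (w.drop a) := by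
        rw [← U.ev_append, List.take_append_drop]
      simp only [ab, ml, List.flatten_nil, List.append_nil]
      rw [e, U.ev_append]
      group
    · simp [ab, cj]
  | cons e es ih =>
    intro ts a P ha hnd hts hF hat hcyc hP
    cases hF with
    | @cons t _ ts _ h1 hF =>
    obtain ⟨ht1, ht2, ht3⟩ := h1
    rw [List.pairwise_cons] at hts
    rw [List.nodup_cons] at hnd
    have hat1 := hat t (List.mem_cons_self ..)
    -- the first time
    have hex : ∃ x, a ≤ x ∧ x ≤ w.length ∧ Cy U (st U w x) ∧ EV U ℓ w x ∈ e :: es :=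
      ⟨t, hat1, ht1, ht2, by rw [ht3]; exact List.mem_cons_self ..⟩
    obtain ⟨hα1, hα2, hα3, hα4⟩ := Nat.find_spec hex
    have hαmin := fun x => Nat.find_min (H := hex) (m := x)
    have hαt : Nat.find hex ≤ t :=
      Nat.find_min' hex ⟨hat1, ht1, ht2, by rw [ht3]; exact List.mem_cons_self ..⟩
    set α := Nat.find hex with hα
    -- membership in `es` gives a time
    have hmem : ∀ e' ∈ es, ∃ t' ∈ ts, t' ≤ w.length ∧ Cy U (st U w t') ∧ EV U ℓ w t' = e' := by
      intro e' he'
      obtain ⟨n, hn, hn2⟩ := List.mem_iff_getElem.1 he'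
      have hlen := hF.length_eq
      have hn' : n < ts.length := by rw [hlen]; exact hn
      have h5 := (List.forall₂_iff_get.1 hF).2 n hn' hn
      refine ⟨ts[n], List.getElem_mem hn', ?_⟩
      rw [← hn2]
      exact h5
    -- sandwiched times
    have hsand : ∀ x y z, x ≤ y → y ≤ z → z ≤ w.length → Cy U (st U w x) → Cy U (st U w z) →
        EV U ℓ w x = EV U ℓ w z → EV U ℓ w y = EV U ℓ w x ∧ Cn U (st U w y) (st U w x) := by
      intro x y z hxy hyz _ hx hz hxz
      obtain ⟨v, hv⟩ := hL5 w hw x z (hxy.trans hyz) hx hz hxz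
      have hcn : Cn U (st U w y) (st U w x) := by
        refine ⟨pc w y z ++ v, ?_⟩
        rw [U.run_append, ← st_pc U w hyz, hv]
      exact ⟨(hL4 w hw x y hxy hx hcn).symm, hcn⟩
    have hαe : EV U ℓ w α = e := by
      rcases List.mem_cons.1 hα4 with h5 | h5
      · exact h5
      · obtain ⟨t', ht', h6, h7, h8⟩ := hmem _ h5
        have h9 := (hsand α t t' hαt (hts.1 t' ht') h6 hα3 h7 h8.symm).1
        rw [ht3] at h9
        exact h9.symm
    obtain ⟨β, hβ1, hβ2, ⟨hβ3, hβ4⟩, hβmax⟩ := greatest
      (fun x => Cy U (st U w x) ∧ EV U ℓ w x = e) ht1 ⟨ht2, ht3⟩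
    have hαβ : α ≤ β := hαt.trans hβ1
    have hcn : Cn U (st U w β) (st U w α) :=
      (hsand α β β hαβ le_rfl hβ2 hα3 hβ3 (by rw [hαe, hβ4])).2
    obtain ⟨hX1, hX2⟩ := hL2 _ (st_live U hw α) hα3
    have hY := hL3 _ (st_live U hw α) hα3 (pc w α β) (by rw [← st_pc U w hαβ]; exact hcn)
    obtain ⟨m, r, hr1, hr2, hm⟩ := pow_dec _ _ _ (by rw [hX2]; exact hℓ) hY
    rw [hX2] at hr2
    rw [pc_length w hβ2] at hm
    have hPq : U.run U.s0 (P ++ pc w a α) = st U w α := by
      rw [U.run_append, hP, ← st_pc U w hα1]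
    have hPqr : U.run U.s0 (P ++ pc w a α ++ r) = st U w β := by
      rw [U.run_append, hPq, st_pc U w hαβ, hr1, U.run_append, U.run_wpow hX1]
    -- later times
    have hlater : ∀ t' ∈ ts, β ≤ t' := by
      intro t' ht'
      by_contra hlt
      push Not at hlt
      obtain ⟨n, hn, hn2⟩ := List.mem_iff_getElem.1 ht'
      have hlen := hF.length_eq
      have hn' : n < es.length := by rw [← hlen]; exact hn
      have h5 := (List.forall₂_iff_get.1 hF).2 n hn hn'
      have h6 : EV U ℓ w t' = es[n] := by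
        rw [← hn2]
        exact h5.2.2
      have h7 := (hsand t t' β (hts.1 t' ht') hlt.le hβ2 ht2 hβ3 (by rw [ht3, hβ4])).1
      rw [ht3] at h7
      apply hnd.1
      rw [← h7, h6]
      exact List.getElem_mem hn'
    obtain ⟨q1, ps, ms, i1, i2, i3, i4, i5, i6, i7⟩ := ih ts β (P ++ pc w a α ++ r) hβ2 hnd.2 hts.2 hF
      hlater (by
        intro x h5 h6 h7
        rcases List.mem_cons.1 (hcyc x (by omega) h6 h7) with h8 | h8
        · exact absurd ⟨h7, h8⟩ (hβmax x h5 h6)
        · exact h8) hPqr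
    have eα : U.ev (w.take α) = U.ev (w.take a) * U.ev (pc w a α) := by
      rw [take_pc w hα1, U.ev_append]
    have eβ : U.ev (w.take β) = U.ev (w.take a) * U.ev (pc w a α) *
        U.ev (lp U ℓ (st U w α)) ^ m * U.ev r := by
      rw [take_pc w hαβ, U.ev_append, eα, hr1, U.ev_append, U.ev_wpow, mul_assoc, mul_assoc,
        mul_assoc]
    have hab : ab U ℓ (P ++ pc w a α) ((r ++ q1) :: ps) =
        (U.ev (P ++ pc w a α) * U.ev (lp U ℓ (st U w α)) * (U.ev (P ++ pc w a α))⁻¹) ::
          ab U ℓ (P ++ pc w a α ++ r ++ q1) ps := by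
      rw [ab, hPq, List.append_assoc (P ++ pc w a α) r q1]
    have hc' : U.ev (w.take β) * (U.ev (P ++ pc w a α ++ r))⁻¹ = U.ev (w.take a) * (U.ev P)⁻¹ *
        (U.ev (P ++ pc w a α) * U.ev (lp U ℓ (st U w α)) * (U.ev (P ++ pc w a α))⁻¹) ^ m := by
      rw [eβ, conj_pow, U.ev_append, U.ev_append]
      group
    rw [hc'] at i6 i7
    refine ⟨pc w a α, (r ++ q1) :: ps, m :: ms, ?_, ?_, ?_, ?_, ?_, ?_, ?_⟩
    · rw [List.length_cons, List.length_cons, i1]
    · rw [List.length_cons, List.length_cons, i2]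
    · rw [pc_length w hα2]
      have := few U w (a := a) (b := α) hα2 (fun x h5 h6 h7 =>
        hαmin x h6 ⟨h5.le, by omega, h7, hcyc x h5 (by omega) h7⟩)
      omega
    · intro p hp
      rcases List.mem_cons.1 hp with rfl | hp
      · rw [List.length_append]
        omega
      · exact i4 p hp
    · intro k hk
      rcases List.mem_cons.1 hk with rfl | hk
      · omega
      · exact i5 k hk
    · rw [hab, ml, List.flatten_cons, i6]
      have e5 : P ++ pc w a α ++ (r ++ q1 ++ ps.flatten) = P ++ pc w a α ++ r ++ q1 ++ ps.flatten := by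
        simp only [List.append_assoc]
      rw [e5]
      simp only [mul_assoc]
    · rw [hab, cj, List.map_cons, List.map_map]
      have e6 : U.ev (w.take a) * (U.ev P)⁻¹ *
          (U.ev (P ++ pc w a α) * U.ev (lp U ℓ (st U w α)) * (U.ev (P ++ pc w a α))⁻¹) *
          (U.ev (w.take a) * (U.ev P)⁻¹)⁻¹ = e := by
        rw [← hαe]
        unfold EV pt
        rw [eα, U.ev_append]
        group
      rw [e6]
      congr 1
      rw [← i7]
      apply List.map_congr_left
      intro b _
      simp only [Function.comp]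
      group

theorem decomp (U : UA G) (ℓ : ℕ) (hL : LoopS U ℓ) (hU : Star U) (D : ℕ)
    (hD : ∀ w ∈ U.L, ∀ es : List G, es.Nodup →
      (∀ e ∈ es, ∃ t ≤ w.length, Cy U (st U w t) ∧ EV U ℓ w t = e) → es.length ≤ D) :
    ∃ T : Finset (List G × G), (∀ τ ∈ T, τ.1.length = D) ∧ ∀ w ∈ U.L, ∀ (es : List G) (ts : List ℕ),
      es.length = D → es.Nodup → ts.Pairwise (· ≤ ·) →
      List.Forall₂ (fun t e => t ≤ w.length ∧ Cy U (st U w t) ∧ EV U ℓ w t = e) ts es →
      ∃ τ ∈ T, ∃ m : List ℕ, m.length = D ∧ (∀ k ∈ m, k ≤ w.length) ∧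
        U.ev w = ml τ.1 m * τ.2 ∧ cj τ.1 m = es := by
  have := U.finA
  let W : Type := {l : List U.A // l.length ≤ ℓ + (Nat.card U.S + 1)}
  have hW : Finite W := (List.finite_length_le U.A (ℓ + (Nat.card U.S + 1))).to_subtype
  let F : W × (Fin D → W) → List G × G := fun f =>
    (ab U ℓ f.1.1 (List.ofFn fun i => (f.2 i).1),
      U.ev (f.1.1 ++ (List.ofFn fun i => (f.2 i).1).flatten))
  refine ⟨(Set.finite_range F).toFinset, ?_, ?_⟩
  · intro τ hτ
    obtain ⟨f, rfl⟩ := (Set.Finite.mem_toFinset _).1 hτ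
    show (ab U ℓ f.1.1 (List.ofFn fun i => (f.2 i).1)).length = D
    rw [ab_length, List.length_ofFn]
  · intro w hw es ts hes hnd hts hF
    have hcyc : ∀ x, x ≤ w.length → Cy U (st U w x) → EV U ℓ w x ∈ es := by
      intro x hx hcx
      by_contra hnot
      have h1 := hD w hw (EV U ℓ w x :: es) (List.nodup_cons.2 ⟨hnot, hnd⟩) (by
        intro e he
        rcases List.mem_cons.1 he with rfl | he
        · exact ⟨x, hx, hcx, rfl⟩
        · obtain ⟨n, hn, hn2⟩ := List.mem_iff_getElem.1 he
          have hlen := hF.length_eq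
          have hn' : n < ts.length := by rw [hlen]; exact hn
          have h5 := (List.forall₂_iff_get.1 hF).2 n hn' hn
          refine ⟨ts[n], h5.1, h5.2.1, ?_⟩
          rw [← hn2]
          exact h5.2.2)
      rw [List.length_cons, hes] at h1
      omega
    obtain ⟨q, ps, ms, h1, h2, h3, h4, h5, h6, h7⟩ := dec_aux U ℓ hL w hw es ts 0 [] (Nat.zero_le _)
      hnd hts hF (fun t _ => Nat.zero_le _) (fun x _ hx hcx => hcyc x hx hcx) rfl
    subst hes
    let f : W × (Fin es.length → W) := (⟨q, by omega⟩, fun i =>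
      ⟨ps[(i : ℕ)]'(by rw [h1]; exact i.2), h4 _ (List.getElem_mem _)⟩)
    have hps : (List.ofFn fun i => (f.2 i).1) = ps := by
      apply List.ext_getElem
      · rw [List.length_ofFn, h1]
      · intro n _ _
        rw [List.getElem_ofFn]
    refine ⟨F f, (Set.Finite.mem_toFinset _).2 ⟨f, rfl⟩, ms, h2, h5, ?_, ?_⟩
    · show U.ev w = ml (ab U ℓ q (List.ofFn fun i => (f.2 i).1)) ms *
        U.ev (q ++ (List.ofFn fun i => (f.2 i).1).flatten)
      rw [hps, h6]
      simp [U.ev_nil]
    · show cj (ab U ℓ q (List.ofFn fun i => (f.2 i).1)) ms = es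
      rw [hps]
      conv_rhs => rw [← h7]
      simp [U.ev_nil]

end Pool.Agent.TH576.J1569
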