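import Mathlib
import Pool.Agent.TH142.PN.Defs

/-!
# PN-A2 (job 1507, written by helper576): the Lie algebra `zz` and its central series
-/

set_option autoImplicit false

namespace Pool.Agent.TH576.PN

open Finset Polynomial Pool.Agent.TH91.RF Pool.Agent.TH142.PN

noncomputable section

variable {ι : Type} {N : ℕ} (S : Dt N) (p : ι → ℝ[X])

theorem EE_zz {x : Matrix (Fin N) (Fin N) ℝ} (hx : x ∈ S.V) : EE p S.D x ∈ zz S p :=
  Submodule.mem_sInf.2 fun _ hW => hW.1 x hx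

theorem FF_zz {x : Matrix (Fin N) (Fin N) ℝ} (hx : x ∈ S.V) : FF p S.D x ∈ zz S p :=
  Submodule.mem_sInf.2 fun _ hW => hW.2.1 x hx

theorem br_zz {y z : PM ι N} (hy : y ∈ zz S p) (hz : z ∈ zz S p) : y * z - z * y ∈ zz S p :=
  Submodule.mem_sInf.2 fun W hW =>
    hW.2.2.1 y (Submodule.mem_sInf.1 hy W hW) z (Submodule.mem_sInf.1 hz W hW)

theorem dd_zz {z : PM ι N} (hz : z ∈ zz S p) : dd ι N z ∈ zz S p :=
  Submodule.mem_sInf.2 fun W hW => hW.2.2.2.1 z (Submodule.mem_sInf.1 hz W hW)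

theorem D_zz {z : PM ι N} (hz : z ∈ zz S p) : cst ι S.D * z - z * cst ι S.D ∈ zz S p :=
  Submodule.mem_sInf.2 fun W hW => hW.2.2.2.2 z (Submodule.mem_sInf.1 hz W hW)

theorem zz_le {W : Submodule ℝ (PM ι N)} (h1 : ∀ x ∈ S.V, EE p S.D x ∈ W)
    (h2 : ∀ x ∈ S.V, FF p S.D x ∈ W) (h3 : ∀ y ∈ W, ∀ z ∈ W, y * z - z * y ∈ W)
    (h4 : ∀ z ∈ W, dd ι N z ∈ W) (h5 : ∀ z ∈ W, cst ι S.D * z - z * cst ι S.D ∈ W) :
    zz S p ≤ W :=
  sInf_le ⟨h1, h2, h3, h4, h5⟩

theorem zs_gen (k : ℕ) {W : Submodule ℝ (PM ι N)}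
    (h1 : ∀ y ∈ zz S p, ∀ z ∈ zs S p k, y * z - z * y ∈ W)
    (h2 : ∀ z ∈ zs S p k, dd ι N z ∈ W)
    (h3 : ∀ z ∈ zs S p k, cst ι S.D * z - z * cst ι S.D ∈ W) : zs S p (k + 1) ≤ W := by
  refine Submodule.span_le.2 ?_
  rintro w ((⟨y, hy, z, hz, rfl⟩ | ⟨z, hz, rfl⟩) | ⟨z, hz, rfl⟩)
  · exact h1 y hy z hz
  · exact h2 z hz
  · exact h3 z hz

theorem br_zs {k : ℕ} {y z : PM ι N} (hy : y ∈ zz S p) (hz : z ∈ zs S p k) :
    y * z - z * y ∈ zs S p (k + 1) :=
  Submodule.subset_span (Or.inl (Or.inl ⟨y, hy, z, hz, rfl⟩))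

theorem br_zs' {k : ℕ} {y z : PM ι N} (hy : y ∈ zz S p) (hz : z ∈ zs S p k) :
    z * y - y * z ∈ zs S p (k + 1) := by
  rw [← neg_sub]
  exact Submodule.neg_mem _ (br_zs S p hy hz)

theorem dd_zs {k : ℕ} {z : PM ι N} (hz : z ∈ zs S p k) : dd ι N z ∈ zs S p (k + 1) :=
  Submodule.subset_span (Or.inl (Or.inr ⟨z, hz, rfl⟩))

theorem D_zs {k : ℕ} {z : PM ι N} (hz : z ∈ zs S p k) :
    cst ι S.D * z - z * cst ι S.D ∈ zs S p (k + 1) :=
  Submodule.subset_span (Or.inr ⟨z, hz, rfl⟩)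

theorem zs_succ_le (k : ℕ) : zs S p (k + 1) ≤ zs S p k := by
  induction k with
  | zero =>
    exact zs_gen S p 0 (fun y hy z hz => br_zz S p hy hz) (fun z hz => dd_zz S p hz)
      (fun z hz => D_zz S p hz)
  | succ k ih =>
    exact zs_gen S p (k + 1) (fun y hy z hz => br_zs S p hy (ih hz))
      (fun z hz => dd_zs S p (ih hz)) (fun z hz => D_zs S p (ih hz))

theorem zs_le (k : ℕ) : zs S p k ≤ zz S p := by
  induction k with
  | zero => exact le_rfl
  | succ k ih => exact (zs_succ_le S p k).trans ih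

theorem br_zs1 (hdd : ∀ x y : PM ι N, dd ι N (x * y) = dd ι N x * y + x * dd ι N y)
    {k : ℕ} {y z : PM ι N} (hy : y ∈ zs S p 1) (hz : z ∈ zs S p k) :
    y * z - z * y ∈ zs S p (k + 2) := by
  have hy' : y ∈ Submodule.span ℝ ({w | ∃ y ∈ zz S p, ∃ z ∈ zs S p 0, w = y * z - z * y} ∪
      {w | ∃ z ∈ zs S p 0, w = dd ι N z} ∪
      {w | ∃ z ∈ zs S p 0, w = cst ι S.D * z - z * cst ι S.D}) := hy
  induction hy' using Submodule.span_induction with
  | mem w hw =>
    rcases hw with (⟨a, ha, b, hb, rfl⟩ | ⟨b, hb, rfl⟩) | ⟨b, hb, rfl⟩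
    · have hb' : b ∈ zz S p := hb
      have h1 := br_zs S p ha (br_zs S p hb' hz)
      have h2 := br_zs S p hb' (br_zs S p ha hz)
      have e : (a * b - b * a) * z - z * (a * b - b * a) =
          (a * (b * z - z * b) - (b * z - z * b) * a) -
            (b * (a * z - z * a) - (a * z - z * a) * b) := by
        noncomm_ring
      rw [e]
      exact Submodule.sub_mem _ h1 h2
    · have hb' : b ∈ zz S p := hb
      have h1 := dd_zs S p (br_zs S p hb' hz)
      have h2 := br_zs S p hb' (dd_zs S p hz)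
      have e : dd ι N b * z - z * dd ι N b =
          dd ι N (b * z - z * b) - (b * dd ι N z - dd ι N z * b) := by
        rw [map_sub, hdd, hdd]
        noncomm_ring
      rw [e]
      exact Submodule.sub_mem _ h1 h2
    · have hb' : b ∈ zz S p := hb
      have h1 := D_zs S p (br_zs S p hb' hz)
      have h2 := br_zs S p hb' (D_zs S p hz)
      have e : (cst ι S.D * b - b * cst ι S.D) * z - z * (cst ι S.D * b - b * cst ι S.D) =
          (cst ι S.D * (b * z - z * b) - (b * z - z * b) * cst ι S.D) -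
            (b * (cst ι S.D * z - z * cst ι S.D) - (cst ι S.D * z - z * cst ι S.D) * b) := by
        noncomm_ring
      rw [e]
      exact Submodule.sub_mem _ h1 h2
  | zero =>
    rw [zero_mul, mul_zero, sub_zero]
    exact Submodule.zero_mem _
  | add a b ha hb iha ihb =>
    have e : (a + b) * z - z * (a + b) = (a * z - z * a) + (b * z - z * b) := by noncomm_ring
    rw [e]
    exact Submodule.add_mem _ (iha ha) (ihb hb)
  | smul c a ha iha =>
    have e : c • a * z - z * c • a = c • (a * z - z * a) := by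
      rw [smul_mul_assoc, mul_smul_comm, smul_sub]
    rw [e]
    exact Submodule.smul_mem _ _ (iha ha)

theorem zz_form (hE : ∀ (c : ℝ) (x y : Matrix (Fin N) (Fin N) ℝ),
      EE p S.D (c • x + y) = c • EE p S.D x + EE p S.D y)
    (hF : ∀ (c : ℝ) (x y : Matrix (Fin N) (Fin N) ℝ),
      FF p S.D (c • x + y) = c • FF p S.D x + FF p S.D y)
    {z : PM ι N} (hz : z ∈ zz S p) :
    ∃ x ∈ S.V, ∃ y ∈ S.V, ∃ w ∈ zs S p 1, z = EE p S.D x + FF p S.D y + w := by
  have hE0 : EE p S.D 0 = 0 := by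
    have h := hE (-1) 0 0
    rw [smul_zero, add_zero, neg_smul, one_smul, neg_add_cancel] at h
    exact h
  have hF0 : FF p S.D 0 = 0 := by
    have h := hF (-1) 0 0
    rw [smul_zero, add_zero, neg_smul, one_smul, neg_add_cancel] at h
    exact h
  let W : Submodule ℝ (PM ι N) :=
    { carrier := {z | ∃ x ∈ S.V, ∃ y ∈ S.V, ∃ w ∈ zs S p 1, z = EE p S.D x + FF p S.D y + w}
      add_mem' := by
        rintro _ _ ⟨x, hx, y, hy, w, hw, rfl⟩ ⟨x', hx', y', hy', w', hw', rfl⟩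
        refine ⟨x + x', S.V.add_mem hx hx', y + y', S.V.add_mem hy hy', w + w',
          Submodule.add_mem _ hw hw', ?_⟩
        have h1 := hE 1 x x'
        have h2 := hF 1 y y'
        rw [one_smul, one_smul] at h1 h2
        rw [h1, h2]
        abel
      zero_mem' := ⟨0, S.V.zero_mem, 0, S.V.zero_mem, 0, Submodule.zero_mem _, by
        rw [hE0, hF0, add_zero, add_zero]⟩
      smul_mem' := by
        rintro c _ ⟨x, hx, y, hy, w, hw, rfl⟩
        refine ⟨c • x, S.V.smul_mem c hx, c • y, S.V.smul_mem c hy, c • w,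
          Submodule.smul_mem _ c hw, ?_⟩
        have h1 := hE c x 0
        have h2 := hF c y 0
        rw [hE0, add_zero, add_zero] at h1
        rw [hF0, add_zero, add_zero] at h2
        rw [h1, h2, smul_add, smul_add] }
  have hW1 : ∀ w ∈ zs S p 1, w ∈ W := fun w hw =>
    ⟨0, S.V.zero_mem, 0, S.V.zero_mem, w, hw, by rw [hE0, hF0, add_zero, zero_add]⟩
  have hWz : ∀ w ∈ W, w ∈ zz S p := by
    rintro _ ⟨x, hx, y, hy, w, hw, rfl⟩
    exact Submodule.add_mem _ (Submodule.add_mem _ (EE_zz S p hx) (FF_zz S p hy))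
      (zs_le S p 1 hw)
  have key : zz S p ≤ W := by
    refine zz_le S p ?_ ?_ ?_ ?_ ?_
    · exact fun x hx => ⟨x, hx, 0, S.V.zero_mem, 0, Submodule.zero_mem _, by
        rw [hF0, add_zero, add_zero]⟩
    · exact fun y hy => ⟨0, S.V.zero_mem, y, hy, 0, Submodule.zero_mem _, by
        rw [hE0, zero_add, add_zero]⟩
    · exact fun y hy z hz => hW1 _ (br_zs S p (k := 0) (hWz y hy) (hWz z hz))
    · exact fun z hz => hW1 _ (dd_zs S p (k := 0) (hWz z hz))
    · exact fun z hz => hW1 _ (D_zs S p (k := 0) (hWz z hz))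
  exact key hz

theorem zs_le_wS {Θ : ℕ} (hE : ∀ x ∈ S.V, EE p S.D x ∈ (wF ι N Θ).F 1)
    (hF : ∀ x ∈ S.V, FF p S.D x ∈ (wF ι N Θ).F 1)
    (hD : cst ι S.D ∈ (wF ι N Θ).F 1)
    (hd : ∀ (v : ℕ) (x : PM ι N), x ∈ (wF ι N Θ).F v → dd ι N x ∈ (wF ι N Θ).F (v + 1)) (k : ℕ) :
    ∀ x ∈ zs S p k, x ∈ (wF ι N Θ).F (k + 1) := by
  have hm : ∀ {v w : ℕ} {x y : PM ι N}, x ∈ (wF ι N Θ).F v → y ∈ (wF ι N Θ).F w →
      x * y - y * x ∈ (wF ι N Θ).F (v + w) := by
    intro v w x y hx hy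
    refine Submodule.sub_mem _ ((wF ι N Θ).mul hx hy) ?_
    rw [add_comm v w]
    exact (wF ι N Θ).mul hy hx
  have ha : ∀ {x : PM ι N}, x ∈ (wF ι N Θ).F (1 + 1) → x ∈ (wF ι N Θ).F 1 := by
    intro x hx
    exact (wF ι N Θ).anti (by norm_num) hx
  have h0 : zz S p ≤ wS ι N Θ 1 := by
    refine zz_le S p hE hF ?_ ?_ ?_
    · exact fun y hy z hz => ha (hm (v := 1) (w := 1) hy hz)
    · exact fun z hz => ha (hd 1 z hz)
    · exact fun z hz => ha (hm (v := 1) (w := 1) hD hz)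
  induction k with
  | zero => exact fun x hx => h0 hx
  | succ k ih =>
    have h1 : zs S p (k + 1) ≤ wS ι N Θ (k + 1 + 1) := by
      refine zs_gen S p k ?_ ?_ ?_
      · intro y hy z hz
        have := hm (v := 1) (w := k + 1) (h0 hy) (ih z hz)
        rw [add_comm 1 (k + 1)] at this
        exact this
      · exact fun z hz => hd (k + 1) z (ih z hz)
      · intro z hz
        have := hm (v := 1) (w := k + 1) hD (ih z hz)
        rw [add_comm 1 (k + 1)] at this
        exact this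
    exact fun x hx => h1 hx

theorem wS_fin [Finite ι] (Θ v : ℕ) : FiniteDimensional ℝ (wS ι N Θ v) := by
  let f : PM ι N →ₗ[ℝ] (ι → Fin N → Fin N → Fin (Θ * N + 1) → ℝ) :=
    { toFun := fun x i a b n => (x i a b).coeff n
      map_add' := by
        intro x y
        funext i a b n
        simp
      map_smul' := by
        intro c x
        funext i a b n
        simp }
  have hinj : Function.Injective (f.comp (wS ι N Θ v).subtype) := by
    rw [← LinearMap.ker_eq_bot, LinearMap.ker_eq_bot']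
    rintro ⟨x, hx⟩ h
    apply Subtype.ext
    funext i
    ext a b n
    show (x i a b).coeff n = ((0 : Matrix (Fin N) (Fin N) ℝ[X]) a b).coeff n
    rw [Matrix.zero_apply, coeff_zero]
    by_contra hne
    have h1 := hx i a b n hne
    have h2 : Θ * (b : ℕ) ≤ Θ * N := Nat.mul_le_mul_left _ b.2.le
    have h3 : n < Θ * N + 1 := by omega
    have h4 := congrFun (congrFun (congrFun (congrFun h i) a) b) ⟨n, h3⟩
    exact hne h4
  exact FiniteDimensional.of_injective _ hinj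

end

end Pool.Agent.TH576.PN
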