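import Pool.Agent.TH317.CC.Geo

set_option autoImplicit false

universe u

namespace Pool.Agent.TH317.CC

theorem nearArc_of_locLen {M : Type u} [MetricSpace M] (h : LocLen M) : NearArc M := by
  intro K hK
  choose U hU hf using h
  obtain ⟨r, hr, hcov⟩ := lebesgue_number_lemma_of_metric (c := fun x : M => interior (U x)) hK
    (fun x => isOpen_interior)
    (fun x _ => Set.mem_iUnion.2 ⟨x, mem_interior_iff_mem_nhds.2 (hU x)⟩)
  refine ⟨r, hr, fun y hy z hyz ε hε c d hcd => ?_⟩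
  obtain ⟨x, hx⟩ := hcov y hy
  have hyU : y ∈ U x := interior_subset (hx (Metric.mem_ball_self hr))
  have hzU : z ∈ U x := interior_subset (hx (by rwa [Metric.mem_ball, dist_comm]))
  obtain ⟨f, hfc, hf0, hf1, hfv⟩ := hf x y hyU z hzU ε hε
  have hdc : 0 < d - c := by linarith
  have hmaps : Set.MapsTo (fun t : ℝ => (t - c) / (d - c)) (Set.Icc c d) (Set.Icc 0 1) := by
    intro t ht
    refine ⟨div_nonneg (by linarith [ht.1]) hdc.le, ?_⟩
    rw [div_le_one hdc]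
    linarith [ht.2]
  have hcont : Continuous (fun t : ℝ => (t - c) / (d - c)) := by fun_prop
  refine ⟨fun t => f ((t - c) / (d - c)), ?_, ?_, ?_, ?_⟩
  · exact hfc.comp hcont.continuousOn hmaps
  · simp [hf0]
  · simp only
    rw [div_self hdc.ne', hf1]
  · refine le_trans ?_ hfv
    refine eVariationOn.comp_le_of_monotoneOn f (fun t : ℝ => (t - c) / (d - c)) ?_ hmaps
    intro a _ b _ hab
    exact div_le_div_of_nonneg_right (by linarith) hdc.le

theorem arcReplace_of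
    (hlh : ∀ {E : Type} [NormedAddCommGroup E] [NormedSpace ℝ E] {M : Type u}
      [MetricSpace M] (_ : LocLip E M) (K : Set M) (_ : IsCompact K),
      ∃ r₀ > 0, ∃ C₀ : NNReal, 1 ≤ C₀ ∧ ∀ x ∈ K, ∀ (c d : ℝ) (f g : ℝ → M) (ℓ : ENNReal), c ≤ d →
      ContinuousOn f (Set.Icc c d) → ContinuousOn g (Set.Icc c d) → f c = g c → f d = g d →
      Set.MapsTo f (Set.Icc c d) (Metric.ball x r₀) →
      Set.MapsTo g (Set.Icc c d) (Metric.ball x r₀) →
      eVariationOn f (Set.Icc c d) ≤ ℓ → eVariationOn g (Set.Icc c d) ≤ ℓ →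
      ∃ G : ℝ → ℝ → M, ContinuousOn (Function.uncurry G) (Set.Icc 0 1 ×ˢ Set.Icc c d) ∧
        (∀ t ∈ Set.Icc c d, G 0 t = f t) ∧ (∀ t ∈ Set.Icc c d, G 1 t = g t) ∧
        (∀ s ∈ Set.Icc (0 : ℝ) 1, G s c = f c ∧ G s d = f d) ∧
        ∀ s ∈ Set.Icc (0 : ℝ) 1, eVariationOn (G s) (Set.Icc c d) ≤ C₀ * ℓ)
    (has : ∀ {M : Type u} [MetricSpace M] (f : C(UnitAddCircle, M)) (c d : ℝ) (_ : c < d)
      (_ : d ≤ c + 1) (G : ℝ → ℝ → M)
      (_ : ContinuousOn (Function.uncurry G) (Set.Icc 0 1 ×ˢ Set.Icc c d))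
      (_ : ∀ t ∈ Set.Icc c d, G 0 t = f (t : UnitAddCircle))
      (_ : ∀ s ∈ Set.Icc (0 : ℝ) 1, G s c = f (c : UnitAddCircle))
      (_ : ∀ s ∈ Set.Icc (0 : ℝ) 1, G s d = f (d : UnitAddCircle)),
      ∃ H : C(unitInterval × UnitAddCircle, M), (∀ x, H (0, x) = f x) ∧
      (∀ (s : unitInterval), ∀ t ∈ Set.Icc c d, H (s, (t : UnitAddCircle)) = G s t) ∧
      (∀ (s : unitInterval), ∀ t ∈ Set.Icc d (c + 1),
        H (s, (t : UnitAddCircle)) = f (t : UnitAddCircle)))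
    (hcs : ∀ {M : Type u} [MetricSpace M] (f : UnitAddCircle → M) (c d : ℝ) (_ : c ≤ d)
      (_ : d ≤ c + 1),
      clen f = eVariationOn (fun t : ℝ => f (t : UnitAddCircle)) (Set.Icc c d) +
      eVariationOn (fun t : ℝ => f (t : UnitAddCircle)) (Set.Icc d (c + 1)))
    {E : Type} [NormedAddCommGroup E] [NormedSpace ℝ E] {M : Type u}
    [MetricSpace M] (hM : LocLip E M) : ArcReplace M := by
  intro K hK
  obtain ⟨r₀, hr₀, C₀, hC₀, hloc⟩ := hlh hM K hK
  refine ⟨r₀, hr₀, C₀, hC₀, ?_⟩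
  intro x hx f c d g ℓ hcd hd hg hgc hgd hfb hgb hfv hgv
  obtain ⟨G, hG, hG0, hG1, hGe, hGv⟩ := hloc x hx c d (fun t => f (t : UnitAddCircle)) g ℓ hcd.le
    (by
      have : Continuous (fun t : ℝ => f (t : UnitAddCircle)) :=
        f.continuous.comp (AddCircle.continuous_mk' 1)
      exact this.continuousOn)
    hg hgc.symm hgd.symm hfb hgb hfv hgv
  obtain ⟨H, hH0, hH1, hH2⟩ := has f c d hcd hd G hG hG0 (fun s hs => (hGe s hs).1)
    (fun s hs => (hGe s hs).2)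
  refine ⟨⟨fun θ => H (1, θ), H.continuous.comp (by fun_prop)⟩, ?_, ?_, ?_⟩
  · intro t ht
    change H (1, (t : UnitAddCircle)) = g t
    rw [hH1 1 t ht]
    exact hG1 t ht
  · intro t ht
    exact hH2 1 t ht
  · intro L hL
    refine ⟨H, hH0, fun θ => rfl, fun s => ?_⟩
    refine lt_of_le_of_lt ?_ hL
    rw [hcs (fun θ => H (s, θ)) c d hcd.le hd, add_comm]
    refine add_le_add ?_ ?_
    · refine le_of_eq (eVariationOn.eq_of_eqOn ?_)
      intro t ht
      exact hH2 s t ht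
    · refine le_trans (le_of_eq (eVariationOn.eq_of_eqOn ?_)) (hGv s s.2)
      intro t ht
      exact hH1 s t ht

end Pool.Agent.TH317.CC
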