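import Pool.Agent.TH317.CC.Geo

set_option autoImplicit false

universe u

namespace Pool.Agent.TH317.CC.TH576

open Set

theorem split {M : Type u} [MetricSpace M] (g : ℝ → M) {a b c : ℝ} (hab : a ≤ b) (hbc : b ≤ c) :
    eVariationOn g (Icc a b) + eVariationOn g (Icc b c) = eVariationOn g (Icc a c) := by
  have := eVariationOn.Icc_add_Icc g (s := univ) hab hbc (mem_univ b)
  simpa using this

theorem shift {M : Type u} [MetricSpace M] (f : UnitAddCircle → M) (a b : ℝ) (m : ℤ) :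
    eVariationOn (fun t : ℝ => f (t : UnitAddCircle)) (Icc (a + m) (b + m)) =
      eVariationOn (fun t : ℝ => f (t : UnitAddCircle)) (Icc a b) := by
  have h1 := eVariationOn.comp_eq_of_monotoneOn (fun t : ℝ => f (t : UnitAddCircle))
    (t := Icc a b) (fun t : ℝ => t + m) (fun x _ y _ hxy => by simpa using hxy)
  have h2 : (fun t : ℝ => t + m) '' Icc a b = Icc (a + m) (b + m) := image_add_const_Icc _ _ _
  rw [h2] at h1
  rw [← h1]
  congr 1
  funext t
  simp only [Function.comp]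
  congr 1
  have : ((m : ℝ) : UnitAddCircle) = 0 := by
    have h3 := AddCircle.coe_eq_zero_iff (1 : ℝ) (x := (m : ℝ))
    rw [h3]
    exact ⟨m, by simp⟩
  rw [AddCircle.coe_add, this, add_zero]

theorem clen_eq {M : Type u} [MetricSpace M] (f : UnitAddCircle → M) (c : ℝ) :
    clen f = eVariationOn (fun t : ℝ => f (t : UnitAddCircle)) (Icc c (c + 1)) := by
  unfold clen
  set k : ℤ := ⌈c⌉ with hk
  have h1 : c ≤ k := Int.le_ceil c
  have h2 : (k : ℝ) ≤ c + 1 := (Int.ceil_lt_add_one c).le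
  have h3 := shift f 0 1 k
  have h4 := shift f c k 1
  rw [← h3, ← split _ h1 h2, zero_add, add_comm (1 : ℝ) (k : ℝ)]
  rw [← split _ h2 (by linarith : c + 1 ≤ (k : ℝ) + 1)]
  push_cast at h4
  rw [h4, add_comm]

theorem fin_eps {ι : Type*} (t : Finset ι) (P : ι → ℝ → Prop)
    (h : ∀ i ∈ t, ∃ e > 0, ∀ ε > 0, ε ≤ e → P i ε) :
    ∃ e > 0, ∀ i ∈ t, ∀ ε > 0, ε ≤ e → P i ε := by
  classical
  induction t using Finset.induction_on with
  | empty => exact ⟨1, one_pos, by simp⟩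
  | insert a s _ ih =>
    obtain ⟨e1, he1, h1⟩ := ih fun i hi => h i (Finset.mem_insert_of_mem hi)
    obtain ⟨e2, he2, h2⟩ := h a (Finset.mem_insert_self a s)
    refine ⟨min e1 e2, lt_min he1 he2, ?_⟩
    intro i hi ε hε hle
    rcases Finset.mem_insert.1 hi with rfl | hi'
    · exact h2 ε hε (hle.trans (min_le_right _ _))
    · exact h1 i hi' ε hε (hle.trans (min_le_left _ _))

theorem homLt_trans {M : Type u} [MetricSpace M] {f g h : C(UnitAddCircle, M)} {L : ℝ}
    (h1 : HomLt f g L) (h2 : HomLt g h L) : HomLt f h L := by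
  obtain ⟨H1, h10, h11, h1L⟩ := h1
  obtain ⟨H2, h20, h21, h2L⟩ := h2
  let F : ContinuousMap.Homotopy f g := ⟨H1, h10, h11⟩
  let G : ContinuousMap.Homotopy g h := ⟨H2, h20, h21⟩
  refine ⟨(F.trans G).toContinuousMap, fun x => (F.trans G).apply_zero x,
    fun x => (F.trans G).apply_one x, fun t => ?_⟩
  have hF : ∀ (s : unitInterval) x, F (s, x) = H1 (s, x) := fun _ _ => rfl
  have hG : ∀ (s : unitInterval) x, G (s, x) = H2 (s, x) := fun _ _ => rfl
  by_cases ht : (t : ℝ) ≤ 1 / 2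
  · have : (fun x => (F.trans G).toContinuousMap (t, x)) = fun x =>
        H1 (⟨2 * t, (unitInterval.mul_pos_mem_iff zero_lt_two).2 ⟨t.2.1, ht⟩⟩, x) := by
      funext x
      change (F.trans G) (t, x) = _
      rw [ContinuousMap.Homotopy.trans_apply, dif_pos ht, hF]
    rw [this]
    exact h1L _
  · have : (fun x => (F.trans G).toContinuousMap (t, x)) = fun x =>
        H2 (⟨2 * t - 1, unitInterval.two_mul_sub_one_mem_iff.2 ⟨(not_le.1 ht).le, t.2.2⟩⟩, x) := by
      funext x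
      change (F.trans G) (t, x) = _
      rw [ContinuousMap.Homotopy.trans_apply, dif_neg ht, hG]
    rw [this]
    exact h2L _

theorem contrLt_iff {M : Type u} [MetricSpace M] (f : C(UnitAddCircle, M)) (L : ℝ) :
    ContrLt f L ↔ ∃ c : M, HomLt f (ContinuousMap.const _ c) L := by
  constructor
  · rintro ⟨H, h0, ⟨c, hc⟩, hL⟩
    exact ⟨c, H, h0, hc, hL⟩
  · rintro ⟨c, H, h0, hc, hL⟩
    exact ⟨H, h0, ⟨c, hc⟩, hL⟩

/-- one chart -/
theorem chart {E : Type} [NormedAddCommGroup E] [NormedSpace ℝ E] {M : Type u}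
    [MetricSpace M] {x' : M} {C : NNReal} {R : ℝ} {φ : M → E} {ψ : E → M} (hC : 0 < C)
    (hφ : LipschitzOnWith C φ (Metric.ball x' R)) (hψφ : ∀ y ∈ Metric.ball x' R, ψ (φ y) = y)
    (hψ : LipschitzOnWith C ψ (Metric.ball (φ x') (C * R)))
    (f : C(UnitAddCircle, M)) {x : M} (hx : x ∈ Metric.ball x' R)
    (hf : ∀ θ, f θ ∈ Metric.ball x' R) {L : ℝ} (hlen : (C * C : NNReal) * clen f < ENNReal.ofReal L) :
    ContrLt f L := by
  have hR : 0 < R := dist_nonneg.trans_lt (Metric.mem_ball.1 hx)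
  have hball : ∀ y ∈ Metric.ball x' R, φ y ∈ Metric.ball (φ x') (C * R) := by
    intro y hy
    rw [Metric.mem_ball]
    refine (hφ.dist_le_mul y hy x' (Metric.mem_ball_self hR)).trans_lt ?_
    exact mul_lt_mul_of_pos_left (Metric.mem_ball.1 hy) (by exact_mod_cast hC)
  have hconv : ∀ (s : unitInterval) (y : M), y ∈ Metric.ball x' R →
      (1 - (s : ℝ)) • φ y + (s : ℝ) • φ x ∈ Metric.ball (φ x') (C * R) := by
    intro s y hy
    exact (convex_ball (φ x') (C * R)) (hball y hy) (hball x hx) (by linarith [s.2.2]) s.2.1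
      (by ring)
  have hcont : Continuous fun p : unitInterval × UnitAddCircle =>
      ψ ((1 - (p.1 : ℝ)) • φ (f p.2) + (p.1 : ℝ) • φ x) := by
    refine hψ.continuousOn.comp_continuous ?_ (fun p => hconv p.1 _ (hf p.2))
    have h1 : Continuous fun p : unitInterval × UnitAddCircle => φ (f p.2) :=
      hφ.continuousOn.comp_continuous (by fun_prop) (fun p => hf p.2)
    have h2 : Continuous fun p : unitInterval × UnitAddCircle => (p.1 : ℝ) :=
      continuous_subtype_val.comp continuous_fst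
    exact ((continuous_const.sub h2).smul h1).add (h2.smul continuous_const)
  refine ⟨⟨_, hcont⟩, ?_, ⟨x, ?_⟩, ?_⟩
  · intro θ
    change ψ ((1 - ((0 : unitInterval) : ℝ)) • φ (f θ) + ((0 : unitInterval) : ℝ) • φ x) = f θ
    simp [hψφ (f θ) (hf θ)]
  · intro θ
    change ψ ((1 - ((1 : unitInterval) : ℝ)) • φ (f θ) + ((1 : unitInterval) : ℝ) • φ x) = x
    simp [hψφ x hx]
  · intro s
    refine lt_of_le_of_lt ?_ hlen
    have hlip : LipschitzOnWith (C * (1 * C)) (fun y => ψ ((1 - (s : ℝ)) • φ y + (s : ℝ) • φ x))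
        (Metric.ball x' R) := by
      have h2 : LipschitzWith 1 (fun y : E => (1 - (s : ℝ)) • y + (s : ℝ) • φ x) := by
        refine LipschitzWith.of_dist_le_mul fun y z => ?_
        rw [dist_add_right, dist_smul₀]
        have h3 : ‖1 - (s : ℝ)‖ ≤ 1 := by
          rw [Real.norm_eq_abs, abs_of_nonneg (by linarith [s.2.2])]
          linarith [s.2.1]
        simpa using mul_le_mul_of_nonneg_right h3 (dist_nonneg (x := y) (y := z))
      have h4 : LipschitzOnWith (1 * C) (fun y => (1 - (s : ℝ)) • φ y + (s : ℝ) • φ x)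
          (Metric.ball x' R) := h2.comp_lipschitzOnWith hφ
      exact hψ.comp h4 (fun y hy => hconv s y hy)
    have h5 := LipschitzOnWith.comp_eVariationOn_le hlip
      (g := fun t : ℝ => f (t : UnitAddCircle)) (s := Icc 0 1) (fun t _ => hf t)
    rw [one_mul] at h5
    exact h5

end Pool.Agent.TH317.CC.TH576

namespace Pool.Agent.TH317.CC

theorem realize_final {E : Type} [NormedAddCommGroup E] [NormedSpace ℝ E] {M : Type u}
    [MetricSpace M] (hM : LocLip E M) (K : Set M) (hK : IsCompact K) (L : ℝ) (hL : 0 < L) :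
    ∃ ε₀ > 0, ∀ ε > 0, ε ≤ ε₀ → ∀ (f : C(UnitAddCircle, M)) (x : M), x ∈ K →
      Realizes ε f [x] → ContrLt f L := by
  choose C R φ ψ hC hR hφ hψφ hψ using hM
  obtain ⟨t, -, ht⟩ := hK.elim_nhds_subcover (fun x => Metric.ball x (R x / 2))
    (fun x _ => Metric.ball_mem_nhds x (half_pos (hR x)))
  obtain ⟨e, he, hall⟩ := TH576.fin_eps t (fun x ε => ε < R x / 2 ∧ (C x : ℝ) * C x * ε < L) (by
    intro x _
    refine ⟨min (R x / 4) (L / (2 * ((C x : ℝ) * C x + 1))), ?_, ?_⟩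
    · refine lt_min ?_ ?_
      · linarith [hR x]
      · positivity
    · intro ε hε hle
      have h1 := hle.trans (min_le_left _ _)
      have h2 := hle.trans (min_le_right _ _)
      refine ⟨by linarith [hR x], ?_⟩
      have h3 : (0 : ℝ) < 2 * ((C x : ℝ) * C x + 1) := by positivity
      rw [le_div_iff₀ h3] at h2
      nlinarith [mul_nonneg (mul_nonneg (C x).2 (C x).2) hε.le])
  refine ⟨e, he, ?_⟩
  rintro ε hε hle f x hx ⟨τ, hτ, hτ1, hreal⟩
  obtain ⟨x', hx't, hx'⟩ := Set.mem_iUnion₂.1 (ht hx)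
  obtain ⟨h1, h2⟩ := hall x' hx't ε hε hle
  obtain ⟨h3, h4⟩ := hreal 0 (by simp)
  have h5 : f ((τ 0 : ℝ) : UnitAddCircle) = x := h3
  have hτ1' : τ 1 = τ 0 + 1 := hτ1
  have h6 : eVariationOn (fun t : ℝ => f (t : UnitAddCircle)) (Set.Icc (τ 0) (τ 0 + 1)) ≤
      ENNReal.ofReal ε := by
    rw [← hτ1']
    refine h4.trans (ENNReal.ofReal_le_ofReal ?_)
    have h9 : ∀ (k : ℕ) (hk : k < [x].length), [x][k] = x := by
      intro k hk
      have h10 : k = 0 := by simpa using hk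
      subst h10
      rfl
    rw [h9, h9, dist_self, zero_add]
  have hclen : clen f ≤ ENNReal.ofReal ε := by
    rw [TH576.clen_eq f (τ 0)]
    exact h6
  have hdist : ∀ θ, dist (f θ) x ≤ ε := by
    intro θ
    obtain ⟨s, hs, hsθ⟩ : θ ∈ ((↑) : ℝ → UnitAddCircle) '' Set.Icc (τ 0) (τ 0 + 1) := by
      have := AddCircle.coe_image_Icc_eq (1 : ℝ) (τ 0)
      rw [this]
      exact Set.mem_univ θ
    have h7 := (eVariationOn.edist_le (fun t : ℝ => f (t : UnitAddCircle)) hs
      (Set.left_mem_Icc.2 (by linarith : τ 0 ≤ τ 0 + 1))).trans h6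
    rw [h5, hsθ, edist_dist] at h7
    exact (ENNReal.ofReal_le_ofReal_iff hε.le).1 h7
  refine TH576.chart (hC x') (hφ x') (hψφ x') (hψ x') f (x := x) ?_ ?_ ?_
  · rw [Metric.mem_ball] at hx' ⊢
    linarith [hR x']
  · intro θ
    rw [Metric.mem_ball] at hx' ⊢
    calc dist (f θ) x' ≤ dist (f θ) x + dist x x' := dist_triangle _ _ _
      _ < R x' := by linarith [hdist θ]
  · refine lt_of_le_of_lt (mul_le_mul_right hclen _) ?_
    have h8 : ((C x' * C x' : NNReal) : ENNReal) * ENNReal.ofReal ε =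
        ENNReal.ofReal ((C x' : ℝ) * C x' * ε) := by
      rw [ENNReal.ofReal_mul (by positivity)]
      congr 1
      rw [ENNReal.ofReal_mul (by positivity), ENNReal.ofReal_coe_nnreal]
      push_cast
      rfl
    rw [h8]
    exact (ENNReal.ofReal_lt_ofReal_iff hL).2 h2

theorem contrLt_of_chain {M : Type u} [MetricSpace M]
    (hstep : ∀ K : Set M, IsCompact K → ∀ L1 L : ℝ, L1 < L →
      ∃ s > 0, ∀ n : ℕ, ∃ ε₀ > 0, ∀ ε > 0, ε ≤ ε₀ → ∀ (f : C(UnitAddCircle, M)) (P P' : List M),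
      PStepN n s L1 K P P' → Realizes ε f P →
        ∃ f' : C(UnitAddCircle, M), Realizes ε f' P' ∧ HomLt f f' L)
    (hinit : ∀ (γ : C(UnitAddCircle, M)) (L : ℝ), clen γ < ENNReal.ofReal L →
      ∃ N₀ : ℕ, 0 < N₀ ∧ ∀ N ≥ N₀, ∃ ε₀ > 0, ∀ ε > 0, ε ≤ ε₀ → ∃ f : C(UnitAddCircle, M),
      Realizes ε f (sample γ N) ∧ HomLt γ f L)
    (hfin : ∀ K : Set M, IsCompact K → ∀ L : ℝ, 0 < L →
      ∃ ε₀ > 0, ∀ ε > 0, ε ≤ ε₀ → ∀ (f : C(UnitAddCircle, M)) (x : M), x ∈ K →
      Realizes ε f [x] → ContrLt f L)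
    (γ : C(UnitAddCircle, M)) (K : Set M)
    (hK : IsCompact K) (L1 L : ℝ) (h1 : L1 < L) (hγ : clen γ < ENNReal.ofReal L) :
    ∃ s > 0, ∃ N₀ : ℕ, 0 < N₀ ∧ ∀ N ≥ N₀, PContr s L1 K (sample γ N) → ContrLt γ L := by
  obtain ⟨s, hs, hst⟩ := hstep K hK L1 L h1
  obtain ⟨N₀, hN₀, hin⟩ := hinit γ L hγ
  refine ⟨s, hs, max N₀ 2, lt_of_lt_of_le hN₀ (le_max_left _ _), ?_⟩
  rintro N hN ⟨x, hx⟩
  have hN1 : N₀ ≤ N := (le_max_left _ _).trans hN
  have hN2 : 2 ≤ N := (le_max_right _ _).trans hN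
  have hlen : (sample γ N).length = N := by simp [sample]
  have hgood : Good s L1 K [x] := by
    rcases Relation.ReflTransGen.cases_tail hx with h2 | ⟨P', _, h2⟩
    · rw [← h2] at hlen
      simp at hlen
      omega
    · exact h2.2.1
  have hxK : x ∈ K := hgood.2.2 x (by simp)
  have hL1 : 0 < L1 := by
    have h3 := hgood.2.1
    simp [chl] at h3
    exact h3
  obtain ⟨n, hn⟩ : ∃ n : ℕ, Relation.ReflTransGen (PStepN n s L1 K) (sample γ N) [x] := by
    have key : ∀ Q, Relation.ReflTransGen (PStep s L1 K) (sample γ N) Q →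
        ∃ n : ℕ, ∀ n' ≥ n, Relation.ReflTransGen (PStepN n' s L1 K) (sample γ N) Q := by
      intro Q hQ
      induction hQ with
      | refl => exact ⟨0, fun n' _ => Relation.ReflTransGen.refl⟩
      | @tail b c _ hbc ih =>
        obtain ⟨n, hn⟩ := ih
        refine ⟨max n (max b.length c.length), fun n' hn' => ?_⟩
        refine Relation.ReflTransGen.tail (hn n' ((le_max_left _ _).trans hn')) ⟨hbc, ?_, ?_⟩
        · exact ((le_max_left _ _).trans (le_max_right _ _)).trans hn'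
        · exact ((le_max_right _ _).trans (le_max_right _ _)).trans hn'
    obtain ⟨n, hn⟩ := key [x] hx
    exact ⟨n, hn n le_rfl⟩
  obtain ⟨e1, he1, hst1⟩ := hst n
  obtain ⟨e2, he2, hin1⟩ := hin N hN1
  obtain ⟨e3, he3, hfin1⟩ := hfin K hK L (hL1.trans h1)
  set ε := min e1 (min e2 e3) with hε
  have hεpos : 0 < ε := lt_min he1 (lt_min he2 he3)
  have key : ∀ Q, Relation.ReflTransGen (PStepN n s L1 K) (sample γ N) Q →
      ∃ f : C(UnitAddCircle, M), Realizes ε f Q ∧ HomLt γ f L := by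
    intro Q hQ
    induction hQ with
    | refl => exact hin1 ε hεpos ((min_le_right _ _).trans (min_le_left _ _))
    | @tail b c _ hbc ih =>
      obtain ⟨f, hf1, hf2⟩ := ih
      obtain ⟨f', hf'1, hf'2⟩ := hst1 ε hεpos (min_le_left _ _) f b c hbc hf1
      exact ⟨f', hf'1, TH576.homLt_trans hf2 hf'2⟩
  obtain ⟨f, hf1, hf2⟩ := key [x] hn
  have hf3 := hfin1 ε hεpos ((min_le_right _ _).trans (min_le_right _ _)) f x hxK hf1
  rw [TH576.contrLt_iff] at hf3 ⊢
  obtain ⟨c, hc⟩ := hf3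
  exact ⟨c, TH576.homLt_trans hf2 hc⟩

end Pool.Agent.TH317.CC
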