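import Pool.Agent.TH37.HG.Stmts

set_option autoImplicit false

/-!
# HG-MFIN (job 1755, written by helper576)
-/

namespace Pool.Agent.TH576.HG

open Pool.Agent.TH37.HG
open Pool.Agent.Helper294.HallC (PC FGM Stb Noe)
open Pool.Agent.H53R2 (InVar Lw MaxN VN VNil UI SecMod)
open scoped commutatorElement

/-- a torsion finitely generated module over a finite group is finite -/
theorem finite_of_fgm {Q A : Type} [Group Q] [Finite Q] [AddCommGroup A] [DistribMulAction Q A]
    (h : FGM Q A) (e : ℕ) (he : 0 < e) (hA : ∀ x : A, e • x = 0) : Finite A := by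
  obtain ⟨S, hS⟩ := h
  have hfin : Set.Finite {a : A | ∃ g : Q, ∃ s ∈ S, a = g • s} := by
    have h1 : {a : A | ∃ g : Q, ∃ s ∈ S, a = g • s} ⊆
        (fun x : Q × A => x.1 • x.2) '' ((Set.univ : Set Q) ×ˢ (S : Set A)) := by
      rintro a ⟨g, s, hs, rfl⟩
      exact ⟨(g, s), ⟨Set.mem_univ _, hs⟩, rfl⟩
    exact Set.Finite.subset (Set.Finite.image _ (Set.Finite.prod Set.finite_univ S.finite_toSet)) h1
  have hfg : AddGroup.FG A := by
    refine ⟨⟨hfin.toFinset, ?_⟩⟩
    rw [Set.Finite.coe_toFinset]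
    exact hS
  apply AddCommGroup.finite_of_fg_isAddTorsion
  intro x
  rw [isOfFinAddOrder_iff_nsmul_eq_zero]
  exact ⟨e, he, hA x⟩

/-- the module over the image of the action -/
theorem mfin_faithful (hC : McStmt) {Q A : Type} [Group Q] [Group.FG Q] [Group.IsNilpotent Q]
    [AddCommGroup A] [DistribMulAction Q A] (hfgm : FGM Q A) (r : A) (hr : MonoM Q r)
    (hf : ∀ g : Q, (∀ x : A, g • x = x) → g = 1) : Finite A := by
  have hPC : PC Q := ⟨(inferInstance : Group.IsSolvable Q), Pool.Agent.H53R2.nil_maxC Q⟩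
  obtain ⟨⟨e, he, heA⟩, hz⟩ := hC Q A hPC hfgm r hr
  have hcfg : Group.FG (Subgroup.center Q) :=
    (Group.fg_iff_subgroup_fg _).2 (Pool.Agent.H53R2.nil_maxC Q (Subgroup.center Q))
  have hct : ∀ z : Subgroup.center Q, ∃ m : ℕ, 0 < m ∧ z ^ m = 1 := by
    intro z
    obtain ⟨m, hm, hm1⟩ := hz z (fun g => ((Subgroup.mem_center_iff.1 z.2) g).symm)
    refine ⟨m, hm, Subtype.ext ?_⟩
    rw [Subgroup.coe_pow, Subgroup.coe_one]
    exact hf _ hm1
  let cg : CommGroup (Subgroup.center Q) :=
    { (inferInstance : Group (Subgroup.center Q)) with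
      mul_comm := fun a b => Subtype.ext ((Subgroup.mem_center_iff.1 b.2) a) }
  have hcf : Finite (Subgroup.center Q) := by
    refine @CommGroup.finite_of_fg_isMulTorsion (Subgroup.center Q) cg hcfg ?_
    intro z
    rw [isOfFinOrder_iff_pow_eq_one]
    exact hct z
  have hQ : Finite Q := by
    apply Pool.Agent.H53R2.fin_nil Q (Nat.card (Subgroup.center Q)) Nat.card_pos
    intro z hz
    have h1 : (⟨z, hz⟩ : Subgroup.center Q) ^ Nat.card (Subgroup.center Q) = 1 :=
      pow_card_eq_one'
    have h2 := congrArg Subtype.val h1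
    exact h2
  exact finite_of_fgm hfgm e he heA

theorem mfin (hC : McStmt) : MfinStmt := by
  intro Q A _ _ _ _ _ hfgm r hr
  let φ : Q →* Equiv.Perm A := MulAction.toPermHom Q A
  have h1 : Group.FG φ.range := inferInstance
  have h2 : Group.IsNilpotent φ.range :=
    Group.nilpotent_of_surjective φ.rangeRestrict φ.rangeRestrict_surjective
  have hval : ∀ (g : Q) (x : A), (φ.rangeRestrict g : Equiv.Perm A) x = g • x := fun g x => rfl
  let act : DistribMulAction φ.range A :=
    { smul := fun g x => (g : Equiv.Perm A) x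
      one_smul := fun x => rfl
      mul_smul := fun g h x => rfl
      smul_zero := by
        intro g
        obtain ⟨g', rfl⟩ := φ.rangeRestrict_surjective g
        show (φ.rangeRestrict g' : Equiv.Perm A) 0 = 0
        rw [hval, smul_zero]
      smul_add := by
        intro g x y
        obtain ⟨g', rfl⟩ := φ.rangeRestrict_surjective g
        show (φ.rangeRestrict g' : Equiv.Perm A) (x + y) =
          (φ.rangeRestrict g' : Equiv.Perm A) x + (φ.rangeRestrict g' : Equiv.Perm A) y
        rw [hval, hval, hval, smul_add] }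
  have hact : ∀ (g : Q) (x : A), (φ.rangeRestrict g) • x = g • x := fun g x => rfl
  have hfgm' : FGM φ.range A := by
    obtain ⟨S, hS⟩ := hfgm
    refine ⟨S, ?_⟩
    rw [← hS]
    congr 1
    ext a
    constructor
    · rintro ⟨g, s, hs, rfl⟩
      obtain ⟨g', rfl⟩ := φ.rangeRestrict_surjective g
      exact ⟨g', s, hs, hact g' s⟩
    · rintro ⟨g, s, hs, rfl⟩
      exact ⟨φ.rangeRestrict g, s, hs, (hact g s).symm⟩
  have hr' : MonoM φ.range r := by
    refine ⟨hr.1, fun B hB hB0 => hr.2 B ?_ hB0⟩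
    intro g x hx
    exact hB (φ.rangeRestrict g) x hx
  refine mfin_faithful hC hfgm' r hr' ?_
  intro g hg
  apply Subtype.ext
  apply Equiv.ext
  intro x
  exact hg x

end Pool.Agent.TH576.HG
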