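import Pool.Agent.TH37.HG.Stmts

set_option autoImplicit false

/-!
# HG-NFIN (job 1762, written by helper576)
-/

namespace Pool.Agent.TH576.HG

open Pool.Agent.TH37.HG
open Pool.Agent.Helper294.HallC (PC FGM Stb Noe)
open Pool.Agent.H53R2 (InVar Lw MaxN VN VNil UI SecMod Lw_zero Lw_succ Lw_le map_Lw)
open scoped commutatorElement

theorem vnil_of_surj {G H : Type} [Group G] [Group H] (h : VNil G) (f : G →* H)
    (hf : Function.Surjective f) : VNil H := by
  obtain ⟨G₁, h1, h2, m, h3⟩ := h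
  refine ⟨G₁.map f, h1.map f hf, ?_, m, ?_⟩
  · constructor
    have := Subgroup.index_map_dvd G₁ hf
    exact fun h0 => h2.index_ne_zero (Nat.eq_zero_of_zero_dvd (h0 ▸ this))
  · rw [← map_Lw, h3, Subgroup.map_bot]

/-- the centralizer of a finite normal subgroup has finite index -/
theorem centr_fin {G : Type} [Group G] (B : Subgroup G) [B.Normal] [Finite B] :
    (Subgroup.centralizer (B : Set G)).FiniteIndex := by
  have h1 : ((MulAut.conjNormal : G →* MulAut B)).ker.FiniteIndex := inferInstance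
  refine Subgroup.finiteIndex_of_le (H := (MulAut.conjNormal : G →* MulAut B).ker) ?_
  intro g hg
  rw [Subgroup.mem_centralizer_iff]
  intro b hb
  rw [MonoidHom.mem_ker] at hg
  have h2 : ((MulAut.conjNormal g : MulAut B) ⟨b, hb⟩ : G) = g * b * g⁻¹ :=
    MulAut.conjNormal_apply g ⟨b, hb⟩
  rw [hg] at h2
  have h3 : b = g * b * g⁻¹ := h2
  calc b * g = g * b * g⁻¹ * g := by rw [← h3]
    _ = g * b := by group

/-- a group with a finite subgroup of finite index is finite -/
theorem fin_of_rel {G : Type} [Group G] (D₀ K : Subgroup G) (hK : K.relIndex D₀ ≠ 0)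
    (hD : Finite (D₀ ⊓ K : Subgroup G)) : Finite D₀ := by
  have h1 := Subgroup.card_mul_index (K.subgroupOf D₀)
  have h2 : Finite (K.subgroupOf D₀) := by
    refine Finite.of_injective (β := (D₀ ⊓ K : Subgroup G)) (fun x => ⟨x.1.1, x.1.2, x.2⟩) ?_
    intro x y hxy
    apply Subtype.ext
    apply Subtype.ext
    exact congrArg (fun t => t.1) hxy
  have h3 : Nat.card (K.subgroupOf D₀) ≠ 0 := Nat.card_pos.ne'
  have h4 : Nat.card D₀ ≠ 0 := by
    rw [← h1]
    exact mul_ne_zero h3 hK
  exact Nat.finite_of_card_ne_zero h4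

theorem nfin (hNf : NilfStmt) (hZ : ZcStmt) (hP : PergStmt) (hD : DfinStmt) : NfinStmt := by
  intro u G _ _ _ hu hmax r hr N _ c hc hV
  by_contra hinf
  have hex : ∃ k, Finite (Lw N k N) := ⟨c, by rw [hc]; infer_instance⟩
  classical
  obtain ⟨j, hj⟩ : ∃ j, Nat.find hex = j + 1 := by
    refine Nat.exists_eq_succ_of_ne_zero ?_
    intro h0
    have h1 := Nat.find_spec hex
    rw [h0, Lw_zero] at h1
    exact hinf h1
  have hD0 : ¬ Finite (Lw N j N) := Nat.find_min hex (by omega)
  have hB : Finite (Lw N (j + 1) N) := by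
    rw [← hj]
    exact Nat.find_spec hex
  set D0 := Lw N j N with hD0d
  set B := Lw N (j + 1) N with hBd
  have hBeq : B = ⁅D0, N⁆ := Lw_succ N j N
  have hDN : D0 ≤ N := Lw_le N N j
  have hBn : B.Normal := by rw [hBd]; infer_instance
  have hDn : D0.Normal := by rw [hD0d]; infer_instance
  set Z0 := Subgroup.centralizer (B : Set G) with hZ0
  have hZ0n : Z0.Normal := by rw [hZ0]; infer_instance
  have hZ0f : Z0.FiniteIndex := centr_fin B
  set C := N ⊓ Z0 with hC
  set D := D0 ⊓ Z0 with hDd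
  have hCn : C.Normal := by rw [hC]; infer_instance
  have hDn' : D.Normal := by rw [hDd]; infer_instance
  have hDC : D ≤ C := inf_le_inf_right _ hDN
  have hBC : ⁅B, C⁆ = ⊥ := by
    rw [eq_bot_iff]
    refine (Subgroup.commutator_mono le_rfl inf_le_right).trans ?_
    rw [Subgroup.commutator_le]
    intro b hb z hz
    rw [Subgroup.mem_bot, commutatorElement_eq_one_iff_mul_comm]
    exact Subgroup.mem_centralizer_iff.1 hz b hb
  have hDCB : ⁅D, C⁆ ≤ B := by
    rw [hBeq]
    exact Subgroup.commutator_mono inf_le_left inf_le_left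
  have hrel : ∀ K : Subgroup G, Z0.relIndex K ≠ 0 := fun K h =>
    hZ0f.index_ne_zero (by
      have := Subgroup.relIndex_dvd_index_of_normal Z0 K
      rw [h] at this
      exact Nat.eq_zero_of_zero_dvd this)
  have hDinf : ¬ Finite D := fun h => hD0 (fin_of_rel D0 Z0 (hrel D0) h)
  obtain ⟨P, hP0, hPP⟩ := hP u G hu B C D hDC hBC hDCB
  set Z := D ⊓ Subgroup.centralizer (C : Set G) with hZd
  have hZn : Z.Normal := by rw [hZd]; infer_instance
  have hZm : ∀ x, x ∈ Z ↔ x ∈ D ∧ ∀ c ∈ C, ⁅x, c⁆ = 1 := by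
    intro x
    rw [hZd, Subgroup.mem_inf, Subgroup.mem_centralizer_iff]
    constructor
    · rintro ⟨h1, h2⟩
      exact ⟨h1, fun c hc => commutatorElement_eq_one_iff_mul_comm.2 (h2 c hc).symm⟩
    · rintro ⟨h1, h2⟩
      exact ⟨h1, fun c hc => (commutatorElement_eq_one_iff_mul_comm.1 (h2 c hc)).symm⟩
  have hZC : ⁅Z, C⁆ = ⊥ := by
    rw [eq_bot_iff, Subgroup.commutator_le]
    intro x hx c hc
    rw [Subgroup.mem_bot]
    exact ((hZm x).1 hx).2 c hc
  have hZZ : ⁅Z, Z⁆ = ⊥ := by
    rw [eq_bot_iff, ← hZC]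
    exact Subgroup.commutator_mono le_rfl (inf_le_left.trans hDC)
  -- the quotient by `C`
  have hVC : VNil (G ⧸ C) := by
    have hCN : C ≤ N := inf_le_left
    have hNm : (N.map (QuotientGroup.mk' C)).Normal :=
      Subgroup.Normal.map inferInstance _ (QuotientGroup.mk'_surjective C)
    have hfin : Finite (N.map (QuotientGroup.mk' C)) := by
      have h1 : (C.subgroupOf N).FiniteIndex := by
        constructor
        show C.relIndex N ≠ 0
        rw [hC, Subgroup.inf_relIndex_left]
        exact hrel N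
      have h2 : Finite (N ⧸ C.subgroupOf N) := Subgroup.finite_quotient_of_finiteIndex
      let φ : N ⧸ C.subgroupOf N → N.map (QuotientGroup.mk' C) := fun q =>
        ⟨QuotientGroup.mk' C (q.out : G), ⟨_, q.out.2, rfl⟩⟩
      refine Finite.of_surjective φ ?_
      rintro ⟨_, x, hx, rfl⟩
      refine ⟨QuotientGroup.mk ⟨x, hx⟩, ?_⟩
      apply Subtype.ext
      show QuotientGroup.mk' C (((QuotientGroup.mk (⟨x, hx⟩ : N) : N ⧸ C.subgroupOf N).out : N) : G) =
        QuotientGroup.mk' C x
      have h3 : (QuotientGroup.mk ((QuotientGroup.mk (⟨x, hx⟩ : N) : N ⧸ C.subgroupOf N).out) :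
          N ⧸ C.subgroupOf N) = QuotientGroup.mk ⟨x, hx⟩ := QuotientGroup.out_eq' _
      rw [QuotientGroup.eq] at h3
      exact QuotientGroup.eq.2 h3
    refine hNf (G ⧸ C) (N.map (QuotientGroup.mk' C)) ?_
    exact vnil_of_surj hV (QuotientGroup.quotientQuotientEquivQuotient C N hCN).symm.toMonoidHom
      (QuotientGroup.quotientQuotientEquivQuotient C N hCN).symm.surjective
  have hZfin : Finite Z := hZ G hmax r hr C Z hZC hZZ hVC
  exact hDinf (hD G hmax B C D Z hDC hBC hDCB hZm P hP0 hPP)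

end Pool.Agent.TH576.HG
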