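import Pool.Agent.TH37.HG.Stmts

set_option autoImplicit false

/-!
# HG-ZC (job 1758, written by helper576)
-/

namespace Pool.Agent.TH576.HG

open Pool.Agent.TH37.HG
open Pool.Agent.Helper294.HallC (PC FGM Stb Noe)
open Pool.Agent.H53R2 (InVar Lw MaxN VN VNil UI SecMod)
open scoped commutatorElement

/-- the module of an abelian normal subgroup of a monolithic group is monolithic -/
theorem monoM_of {G Q E : Type} [Group G] [Group Q] [AddCommGroup E] [DistribMulAction Q E]
    {p : G →* Q} (hp : Function.Surjective p) {X : Subgroup G} [hX : X.Normal]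
    (s : SecMod p ⊥ X E) {r : G} (hr : MonoG r) (hrX : r ∈ X) :
    MonoM Q (s.π ⟨r, hrX⟩).toAdd := by
  refine ⟨?_, ?_⟩
  · intro h
    have h1 : s.π ⟨r, hrX⟩ = 1 := Multiplicative.toAdd.injective (by rw [h]; rfl)
    have h2 := (s.ker _).1 h1
    exact hr.1 (Subgroup.mem_bot.1 h2)
  · intro B hB hB0
    let N : Subgroup G :=
      { carrier := {g | ∃ h : g ∈ X, (s.π ⟨g, h⟩).toAdd ∈ B}
        one_mem' := ⟨X.one_mem, by
          have : s.π ⟨1, X.one_mem⟩ = 1 := map_one s.π
          rw [this]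
          exact B.zero_mem⟩
        mul_mem' := by
          rintro a b ⟨ha, ha'⟩ ⟨hb, hb'⟩
          refine ⟨X.mul_mem ha hb, ?_⟩
          have : s.π ⟨a * b, X.mul_mem ha hb⟩ = s.π ⟨a, ha⟩ * s.π ⟨b, hb⟩ :=
            map_mul s.π ⟨a, ha⟩ ⟨b, hb⟩
          rw [this]
          exact B.add_mem ha' hb'
        inv_mem' := by
          rintro a ⟨ha, ha'⟩
          refine ⟨X.inv_mem ha, ?_⟩
          have : s.π ⟨a⁻¹, X.inv_mem ha⟩ = (s.π ⟨a, ha⟩)⁻¹ := map_inv s.π ⟨a, ha⟩
          rw [this]
          exact B.neg_mem ha' }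
    have hN : N.Normal := by
      constructor
      rintro a ⟨ha, ha'⟩ g
      refine ⟨hX.conj_mem a ha g, ?_⟩
      rw [s.act g ⟨a, ha⟩ _ rfl]
      exact hB _ _ ha'
    have hN0 : N ≠ ⊥ := by
      intro h0
      apply hB0
      rw [eq_bot_iff]
      intro e he
      obtain ⟨y, hy⟩ := s.surj (Multiplicative.ofAdd e)
      have h1 : (y : G) ∈ N := ⟨y.2, by
        show (s.π y).toAdd ∈ B
        rw [hy]
        exact he⟩
      rw [h0, Subgroup.mem_bot] at h1
      have h2 : y = 1 := Subtype.ext h1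
      rw [h2, map_one] at hy
      have h3 := congrArg Multiplicative.toAdd hy
      exact h3.symm
    obtain ⟨_, h2⟩ := hr.2 N hN hN0
    exact h2

theorem zc (hM : MfinVStmt) : ZcStmt := by
  intro G _ _ hmax r hr C X _ _ hXC hXX hV
  by_cases hX0 : X = ⊥
  · subst hX0
    infer_instance
  have hp : Function.Surjective (QuotientGroup.mk' C) := QuotientGroup.mk'_surjective C
  obtain ⟨E, _, _, ⟨s⟩⟩ := Pool.Agent.H53R2.exists_secMod (QuotientGroup.mk' C) hp ⊥ X
    (by rw [hXX]) (by rw [QuotientGroup.ker_mk', hXC])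
  obtain ⟨S, hS⟩ := hmax.normalClosure X inferInstance
  have hS1 : (S : Set G) ⊆ X := by
    rw [hS]
    exact Subgroup.subset_normalClosure
  have hfgm := Pool.Agent.H53R2.K_fgm s S hS1 (by rw [sup_bot_eq, ← hS]) bot_le
  have hrX : r ∈ X := hr.2 X inferInstance hX0
  have := QuotientGroup.fg C
  have hfin : Finite E := hM (G ⧸ C) E hV hfgm _ (monoM_of hp s hr hrX)
  have hinj : Function.Injective s.π := by
    rw [injective_iff_map_eq_one]
    intro y hy
    exact Subtype.ext (Subgroup.mem_bot.1 ((s.ker y).1 hy))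
  exact Finite.of_injective (β := Multiplicative E) s.π hinj

end Pool.Agent.TH576.HG
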