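import Mathlib
import Pool.Agent.TH775.AC.Stmts

set_option autoImplicit false

open Complex Metric Set

namespace Pool.Agent.TH775.AC

namespace InjAux

theorem inj_halfplane (F F' : ℂ → ℂ) (hF : ∀ u : ℂ, 1 / 2 < u.re → HasDerivAt F (F' u) u)
    (hpos : ∀ u : ℂ, 1 / 2 < u.re → 0 < (F' u).re) (a b : ℂ) (ha : 1 / 2 < a.re)
    (hb : 1 / 2 < b.re) (hab : F a = F b) : a = b := by
  by_contra hne
  have hre : ∀ t : ℝ, t ∈ Icc (0 : ℝ) 1 → 1 / 2 < (a + (t : ℂ) * (b - a)).re := by
    intro t ht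
    have : (a + (t : ℂ) * (b - a)).re = (1 - t) * a.re + t * b.re := by
      simp; ring
    rw [this]
    rcases eq_or_lt_of_le ht.1 with h0 | h0
    · rw [← h0]; simpa using ha
    · nlinarith [ht.2, mul_pos h0 (sub_pos.2 hb), mul_nonneg (sub_nonneg.2 ht.2) (sub_pos.2 ha).le]
  have hline : ∀ t : ℝ, HasDerivAt (fun t : ℝ => a + (t : ℂ) * (b - a)) (b - a) t := by
    intro t
    have := (((hasDerivAt_id t).ofReal_comp).mul_const (b - a)).const_add a
    simpa using this
  have hg : ∀ t : ℝ, t ∈ Icc (0 : ℝ) 1 → HasDerivAt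
      (fun t : ℝ => (F (a + (t : ℂ) * (b - a)) * (starRingEnd ℂ) (b - a)).re)
      (((b - a) • F' (a + (t : ℂ) * (b - a)) * (starRingEnd ℂ) (b - a)).re) t := by
    intro t ht
    have h1 := (HasDerivAt.scomp t (hF _ (hre t ht)) (hline t)).mul_const ((starRingEnd ℂ) (b - a))
    exact (Complex.reCLM.hasFDerivAt).comp_hasDerivAt t h1
  obtain ⟨c, hc, hc'⟩ := exists_hasDerivAt_eq_slope
    (fun t : ℝ => (F (a + (t : ℂ) * (b - a)) * (starRingEnd ℂ) (b - a)).re)
    (fun t : ℝ => (((b - a) • F' (a + (t : ℂ) * (b - a)) * (starRingEnd ℂ) (b - a)).re))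
    (zero_lt_one) (fun t ht => (hg t ht).continuousAt.continuousWithinAt)
    (fun t ht => hg t (Ioo_subset_Icc_self ht))
  have h0 : a + ((0 : ℝ) : ℂ) * (b - a) = a := by simp
  have h1 : a + ((1 : ℝ) : ℂ) * (b - a) = b := by simp
  simp only [h0, h1, hab, sub_self, zero_div] at hc'
  have e : ((b - a) • F' (a + (c : ℂ) * (b - a)) * (starRingEnd ℂ) (b - a)) =
      ((Complex.normSq (b - a) : ℝ) : ℂ) * F' (a + (c : ℂ) * (b - a)) := by
    rw [Complex.normSq_eq_conj_mul_self]
    simp only [smul_eq_mul]; ring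
  rw [e, Complex.re_ofReal_mul] at hc'
  have hp := hpos _ (hre c (Ioo_subset_Icc_self hc))
  have hn : 0 < Complex.normSq (b - a) := Complex.normSq_pos.2 (sub_ne_zero.2 (Ne.symm hne))
  have := mul_pos hn hp
  linarith

theorem mem_ball_iff {u : ℂ} (hu : 1 / 2 < u.re) : 1 - u⁻¹ ∈ ball (0 : ℂ) 1 := by
  have hu0 : u ≠ 0 := by rintro rfl; simp at hu; linarith
  rw [mem_ball_zero_iff]
  have : 1 - u⁻¹ = (u - 1) / u := by field_simp
  rw [this, norm_div, div_lt_one (norm_pos_iff.2 hu0)]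
  rw [← sq_lt_sq₀ (norm_nonneg _) (norm_nonneg _), ← Complex.normSq_eq_norm_sq,
    ← Complex.normSq_eq_norm_sq, Complex.normSq_apply, Complex.normSq_apply]
  simp only [sub_re, one_re, sub_im, one_im, sub_zero]
  nlinarith

end InjAux

open InjAux in
theorem inj_of (h1 : S_N1) (h2 : S_N2) : S_INJ := by
  intro α L m hα0 hα1 hK
  have key : ∀ a b : ℂ, 1 / 2 < a.re → 1 / 2 < b.re → L (1 - a⁻¹) = L (1 - b⁻¹) → a = b := by
    intro a b ha hb hab
    refine inj_halfplane (fun u => L (1 - u⁻¹)) (fun u => 2 * m (1 - u⁻¹) / u) ?_ ?_ a b ha hb hab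
    · intro u hu
      have hu0 : u ≠ 0 := by rintro rfl; simp at hu; linarith
      have hz := mem_ball_iff hu
      have hL : HasDerivAt L (2 * m (1 - u⁻¹) / (1 - (1 - u⁻¹))) (1 - u⁻¹) := by
        rw [← hK.derivL _ hz]
        exact (hK.dL.differentiableAt (isOpen_ball.mem_nhds hz)).hasDerivAt
      have hi : HasDerivAt (fun u : ℂ => 1 - u⁻¹) (-(-(u ^ 2)⁻¹)) u :=
        (hasDerivAt_inv hu0).const_sub 1
      refine (hL.comp u hi).congr_deriv ?_
      have e1 : (1 : ℂ) - (1 - u⁻¹) = u⁻¹ := by ring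
      rw [e1, neg_neg]
      field_simp
    · intro u hu
      have hu0 : u ≠ 0 := by rintro rfl; simp at hu; linarith
      have hz := mem_ball_iff hu
      obtain ⟨hm0, hn⟩ := h1 α L m hα0 hα1 hK _ hz
      have hn2 := (h2 α L m hα0 hα1 hK _ hz).1
      set n := (m (1 - u⁻¹))⁻¹ with hndef
      have hmn : m (1 - u⁻¹) = n⁻¹ := by rw [hndef, inv_inv]
      have hn0 : n ≠ 0 := by rw [hndef]; exact inv_ne_zero hm0
      have e : 2 * m (1 - u⁻¹) / u = ((2 : ℝ) : ℂ) * (n * u)⁻¹ := by
        rw [hmn, mul_inv]; push_cast; field_simp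
      show 0 < (2 * m (1 - u⁻¹) / u).re
      rw [e, Complex.re_ofReal_mul]
      have hpos : 0 < (n * u).re := by
        rw [Complex.mul_re]
        have h3 : (1 - u⁻¹).im = u.im / Complex.normSq u := by
          simp [Complex.inv_im, neg_div]
        rw [h3] at hn2
        have hnu : 0 < Complex.normSq u := Complex.normSq_pos.2 hu0
        have h4 : n.im * u.im ≤ 0 := by
          have : n.im * (u.im / Complex.normSq u) = (n.im * u.im) / Complex.normSq u := by ring
          rw [this] at hn2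
          by_contra hcon
          push Not at hcon
          have := div_pos hcon hnu
          linarith
        have h5 : 0 < n.re := lt_trans (div_pos two_pos (by linarith)) hn
        have h6 : 0 < n.re * u.re := mul_pos h5 (by linarith)
        linarith
      rw [Complex.inv_re]
      have : 0 < Complex.normSq (n * u) := Complex.normSq_pos.2 (mul_ne_zero hn0 hu0)
      positivity
  intro z1 hz1 z2 hz2 h12
  have hne : ∀ z ∈ ball (0 : ℂ) 1, 1 - z ≠ 0 := by
    intro z hz h
    rw [mem_ball_zero_iff] at hz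
    have : z = 1 := (sub_eq_zero.1 h).symm
    rw [this] at hz; simp at hz
  have hre : ∀ z ∈ ball (0 : ℂ) 1, 1 / 2 < ((1 - z)⁻¹).re := by
    intro z hz
    have h0 := hne z hz
    have hp : 0 < Complex.normSq (1 - z) := Complex.normSq_pos.2 h0
    rw [Complex.inv_re, div_lt_div_iff₀ two_pos hp]
    rw [mem_ball_zero_iff, ← sq_lt_sq₀ (norm_nonneg _) zero_le_one,
      ← Complex.normSq_eq_norm_sq, Complex.normSq_apply] at hz
    rw [Complex.normSq_apply]
    simp only [sub_re, one_re, sub_im, one_im, zero_sub]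
    nlinarith
  have := key (1 - z1)⁻¹ (1 - z2)⁻¹ (hre z1 hz1) (hre z2 hz2) (by simpa using h12)
  have := inv_injective this
  exact sub_right_injective this

end Pool.Agent.TH775.AC
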