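import Mathlib
import Pool.Agent.TH775.AC.Stmts

set_option autoImplicit false

open Complex Metric Set

namespace Pool.Agent.TH775.AC

namespace KapAux

theorem one_sub_ne {z : ℂ} (hz : z ∈ ball (0 : ℂ) 1) : 1 - z ≠ 0 := by
  intro h
  rw [mem_ball_zero_iff] at hz
  have : z = 1 := (sub_eq_zero.1 h).symm
  rw [this] at hz; simp at hz

/-- real part of `1/(1-σ)` for `|σ| ≤ 1` -/
theorem re_inv {σ : ℂ} (h : ‖σ‖ ≤ 1) (hσ : σ ≠ 1) : 1 / 2 ≤ ((1 - σ)⁻¹).re := by
  have h0 : 1 - σ ≠ 0 := sub_ne_zero.2 (Ne.symm hσ)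
  have hp : 0 < Complex.normSq (1 - σ) := Complex.normSq_pos.2 h0
  rw [Complex.inv_re, div_le_div_iff₀ two_pos hp]
  rw [← sq_le_sq₀ (norm_nonneg _) zero_le_one,
    ← Complex.normSq_eq_norm_sq, Complex.normSq_apply] at h
  rw [Complex.normSq_apply]
  simp only [sub_re, one_re, sub_im, one_im, zero_sub]
  nlinarith

theorem kineq {z σ : ℂ} (hz : z ∈ ball (0 : ℂ) 1) (hσ : ‖σ‖ ≤ 1) :
    ((1 / (1 - z)).re - 1 / 2) * ‖(1 - z) * (1 - σ) / (1 - z * σ)‖ ^ 2 ≤
      ((1 - z) * (1 - σ) / (1 - z * σ)).re := by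
  by_cases h1 : σ = 1
  · subst h1; simp
  have hz1 := one_sub_ne hz
  have h2 : 1 - σ ≠ 0 := sub_ne_zero.2 (Ne.symm h1)
  have h3 : 1 - z * σ ≠ 0 := by
    intro h
    have : z * σ = 1 := (sub_eq_zero.1 h).symm
    have h4 : ‖z * σ‖ = 1 := by rw [this]; simp
    rw [norm_mul] at h4
    rw [mem_ball_zero_iff] at hz
    nlinarith [norm_nonneg z, norm_nonneg σ]
  set k := (1 - z) * (1 - σ) / (1 - z * σ) with hk
  have hk0 : k ≠ 0 := div_ne_zero (mul_ne_zero hz1 h2) h3
  have e : k⁻¹ = 1 / (1 - z) - 1 + (1 - σ)⁻¹ := by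
    rw [hk]; field_simp; ring
  have hre : (1 / (1 - z)).re - 1 / 2 ≤ (k⁻¹).re := by
    rw [e]; simp only [add_re, sub_re, one_re]
    have := re_inv hσ h1
    linarith
  have hkr : k.re = (k⁻¹).re * ‖k‖ ^ 2 := by
    rw [Complex.inv_re, ← Complex.normSq_eq_norm_sq]
    have : Complex.normSq k ≠ 0 := (Complex.normSq_pos.2 hk0).ne'
    field_simp
  rw [hkr]
  exact mul_le_mul_of_nonneg_right hre (by positivity)

end KapAux

open KapAux in
theorem kap_of (h1 : S_N1) (hR : S_R) : S_KAP := by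
  intro α L m hα0 hα1 hK
  have hm0 : ∀ z ∈ ball (0 : ℂ) 1, m z ≠ 0 := fun z hz => (h1 α L m hα0 hα1 hK z hz).1
  have hR' : ∀ z ∈ ball (0 : ℂ) 1, 0 < (rr α m z).re := hR α L m hα0 hα1 hK
  have hα : (α : ℂ) ≠ 0 := by exact_mod_cast hα0.ne'
  have hα1' : (1 - (α : ℂ)) ≠ 0 := by
    have : (1 - (α : ℂ)) = ((1 - α : ℝ) : ℂ) := by push_cast; ring
    rw [this]; exact_mod_cast (by linarith : (1 - α) ≠ 0)
  have hα2 : (1 + (α : ℂ)) ≠ 0 := by
    have : (1 + (α : ℂ)) = ((1 + α : ℝ) : ℂ) := by push_cast; ring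
    rw [this]; exact_mod_cast (by linarith : (1 + α) ≠ 0)
  have hr0 : rr α m 0 = 1 / 2 := by
    unfold rr
    rw [hK.m0]
    field_simp
    ring
  have hdr : DifferentiableOn ℂ (rr α m) (ball 0 1) := by
    intro z hz
    have hmz := hK.dm z hz
    have h1z := one_sub_ne hz
    unfold rr
    have hid : DifferentiableWithinAt ℂ (fun z : ℂ => z) (ball 0 1) z := differentiableWithinAt_id
    refine DifferentiableWithinAt.div_const (DifferentiableWithinAt.add
      (DifferentiableWithinAt.sub (DifferentiableWithinAt.sub (differentiableWithinAt_const _)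
        (hmz.inv (hm0 z hz))) (hmz.const_mul _)) ?_) _
    exact ((((differentiableWithinAt_const _).add hid).div
      ((differentiableWithinAt_const _).sub hid) h1z).const_mul _).mul (hmz.sub_const _)
  have hrp : ∀ z ∈ ball (0 : ℂ) 1, rr α m z + 1 / 2 ≠ 0 := by
    intro z hz h
    have := hR' z hz
    have h2 : (rr α m z + 1 / 2).re = 0 := by rw [h]; simp
    simp at h2
    linarith
  set s : ℂ → ℂ := fun z => (rr α m z - 1 / 2) / (rr α m z + 1 / 2) with hs
  have hds : DifferentiableOn ℂ s (ball 0 1) := fun z hz =>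
    ((hdr z hz).sub_const _).div ((hdr z hz).add_const _) (hrp z hz)
  have hs0 : s 0 = 0 := by simp [hs, hr0]
  have hmaps : MapsTo s (ball 0 1) (ball (s 0) 1) := by
    intro z hz
    rw [hs0, mem_ball_zero_iff]
    show ‖(rr α m z - 1 / 2) / (rr α m z + 1 / 2)‖ < 1
    rw [norm_div, div_lt_one (norm_pos_iff.2 (hrp z hz)), ← sq_lt_sq₀ (norm_nonneg _)
      (norm_nonneg _), ← Complex.normSq_eq_norm_sq, ← Complex.normSq_eq_norm_sq,
      Complex.normSq_apply, Complex.normSq_apply]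
    have := hR' z hz
    simp
    nlinarith
  set σ : ℂ → ℂ := dslope s 0 with hσ
  have hσn : ∀ z ∈ ball (0 : ℂ) 1, ‖σ z‖ ≤ 1 := by
    intro z hz
    have := Complex.norm_dslope_le_div_of_mapsTo_ball hds (hmaps.mono_right ball_subset_closedBall) hz
    simpa using this
  have hσd : DifferentiableOn ℂ σ (ball 0 1) :=
    (Complex.differentiableOn_dslope (ball_mem_nhds 0 one_pos)).2 hds
  have hsσ : ∀ z, s z = z * σ z := by
    intro z
    have := sub_smul_dslope s 0 z
    rw [hs0, sub_zero, sub_zero, smul_eq_mul] at this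
    exact this.symm
  have hzσ : ∀ z ∈ ball (0 : ℂ) 1, 1 - z * σ z ≠ 0 := by
    intro z hz h
    have h2 := hmaps hz
    rw [hs0, mem_ball_zero_iff, hsσ, ← sub_eq_zero.1 h] at h2
    simp at h2
  set κ : ℂ → ℂ := fun z => (1 - z) * (1 - σ z) / (1 - z * σ z) with hκ
  have hκd : DifferentiableOn ℂ κ (ball 0 1) := by
    intro z hz
    have hid : DifferentiableWithinAt ℂ (fun z : ℂ => z) (ball 0 1) z := differentiableWithinAt_id
    exact (((differentiableWithinAt_const _).sub hid).mul ((differentiableWithinAt_const _).sub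
      (hσd z hz))).div ((differentiableWithinAt_const _).sub (hid.mul (hσd z hz))) (hzσ z hz)
  have hdX : DifferentiableOn ℂ (XX L m) (ball 0 1) := by
    intro z hz
    have hid : DifferentiableWithinAt ℂ (fun z : ℂ => z) (ball 0 1) z := differentiableWithinAt_id
    unfold XX
    exact (((hK.dm z hz).const_mul _).mul ((differentiableWithinAt_const _).sub hid)).mul
      ((hK.dL z hz).cexp)
  have hderivX : ∀ z ∈ ball (0 : ℂ) 1, deriv (XX L m) z =
      2 * Complex.exp (L z) * (deriv m z * (1 - z) - m z + 2 * m z ^ 2) := by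
    intro z hz
    have hmz : HasDerivAt m (deriv m z) z :=
      (hK.dm.differentiableAt (isOpen_ball.mem_nhds hz)).hasDerivAt
    have hLz : HasDerivAt L (2 * m z / (1 - z)) z := by
      rw [← hK.derivL _ hz]
      exact (hK.dL.differentiableAt (isOpen_ball.mem_nhds hz)).hasDerivAt
    have h1z := one_sub_ne hz
    have h2 : HasDerivAt (fun z : ℂ => 1 - z) (-1) z := (hasDerivAt_id z).const_sub 1
    have h3 : HasDerivAt (XX L m) ((2 * deriv m z * (1 - z) + 2 * m z * (-1)) * Complex.exp (L z) +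
        2 * m z * (1 - z) * (Complex.exp (L z) * (2 * m z / (1 - z)))) z :=
      ((hmz.const_mul 2).mul h2).mul hLz.cexp
    rw [h3.deriv]
    field_simp
    ring
  -- the equation for z ≠ 0
  have heq : ∀ z ∈ ball (0 : ℂ) 1, z ≠ 0 → deriv (XX L m) z * (1 - z) ^ 2 =
      ((1 - α : ℝ) : ℂ) * (XX L m z * κ z) := by
    intro z hz hz0
    have h1z := one_sub_ne hz
    have hm := hm0 z hz
    have hode := hK.ode z hz
    have hzσ' := hzσ z hz
    have hrp' := hrp z hz
    -- r in terms of σ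
    have hrσ : rr α m z * (1 - z * σ z) = (1 + z * σ z) / 2 := by
      have : (rr α m z + 1 / 2) * (z * σ z) = rr α m z - 1 / 2 := by
        rw [← hsσ]
        show (rr α m z + 1 / 2) * ((rr α m z - 1 / 2) / (rr α m z + 1 / 2)) = _
        exact mul_div_cancel₀ _ hrp'
      linear_combination -this
    have hr : rr α m z = (1 + z * σ z) / 2 / (1 - z * σ z) := by
      rw [eq_div_iff hzσ', hrσ]
    have hrdef : rr α m z * ((1 - (α : ℂ)) * α) * (m z * (1 - z)) =
        (2 * m z - 1 - (1 - (α : ℂ)) * m z ^ 2) * (1 - z) +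
        (1 - (α : ℂ)) * (1 + z) * (m z ^ 2 - (1 - (α : ℂ) / 2) * m z) := by
      unfold rr
      field_simp
    rw [hderivX z hz]
    have hκz : κ z * (1 - z * σ z) = (1 - z) * (1 - σ z) := by
      show (1 - z) * (1 - σ z) / (1 - z * σ z) * (1 - z * σ z) = _
      field_simp
    -- multiply everything by z, α, (1 - zσ)
    have hE : Complex.exp (L z) ≠ 0 := Complex.exp_ne_zero _
    unfold XX
    push_cast
    have hrz : rr α m z = (1 + z) / (2 * (1 - z)) - z * (1 - σ z) / ((1 - z) * (1 - z * σ z)) := by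
      rw [hr]; field_simp; ring
    have hκr : z * κ z = (1 - z) * ((1 + z) / 2 - (1 - z) * rr α m z) := by
      rw [hrz]
      show z * ((1 - z) * (1 - σ z) / (1 - z * σ z)) = _
      field_simp
      ring
    have hgoal : (α * z) * (2 * Complex.exp (L z) * (deriv m z * (1 - z) - m z + 2 * m z ^ 2) *
        (1 - z) ^ 2) = (α * z) * ((1 - (α : ℂ)) * (2 * m z * (1 - z) * Complex.exp (L z) * κ z)) := by
      have t1 : (α * z) * ((1 - (α : ℂ)) * (2 * m z * (1 - z) * Complex.exp (L z) * κ z)) =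
        2 * Complex.exp (L z) * (1 - (α : ℂ)) * α * m z * (1 - z) * (z * κ z) := by ring
      have t2 : (α * z) * (2 * Complex.exp (L z) * (deriv m z * (1 - z) - m z + 2 * m z ^ 2) *
        (1 - z) ^ 2) = 2 * Complex.exp (L z) * (1 - z) ^ 2 *
          (α * (1 - z) * (z * deriv m z) + α * z * (- m z + 2 * m z ^ 2)) := by ring
      rw [t1, t2, hκr, hode]
      have t3 : 2 * Complex.exp (L z) * (1 - (α : ℂ)) * α * m z * (1 - z) *
        ((1 - z) * ((1 + z) / 2 - (1 - z) * rr α m z)) =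
        2 * Complex.exp (L z) * (1 - z) ^ 2 * ((1 - (α : ℂ)) * α * m z * ((1 + z) / 2) -
          rr α m z * ((1 - (α : ℂ)) * α) * (m z * (1 - z))) := by ring
      rw [t3, hrdef]
      ring
    exact mul_left_cancel₀ (mul_ne_zero hα hz0) hgoal
  refine ⟨κ, hκd, ?_, fun z hz => kineq hz (hσn z hz)⟩
  intro z hz
  by_cases hz0 : z = 0
  · subst hz0
    have hA : AnalyticOnNhd ℂ (XX L m) (ball 0 1) := hdX.analyticOnNhd isOpen_ball
    have c1 : ContinuousAt (fun z => deriv (XX L m) z * (1 - z) ^ 2) 0 := by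
      have := (hA.deriv 0 hz).continuousAt
      exact this.mul (by fun_prop)
    have c2 : ContinuousAt (fun z => ((1 - α : ℝ) : ℂ) * (XX L m z * κ z)) 0 := by
      have a1 := (hA 0 hz).continuousAt
      have a2 := (hκd.differentiableAt (isOpen_ball.mem_nhds hz)).continuousAt
      exact continuousAt_const.mul (a1.mul a2)
    have ev : (fun z => deriv (XX L m) z * (1 - z) ^ 2) =ᶠ[nhdsWithin 0 {0}ᶜ]
        (fun z => ((1 - α : ℝ) : ℂ) * (XX L m z * κ z)) := by
      have : ball (0 : ℂ) 1 ∈ nhdsWithin (0 : ℂ) {0}ᶜ :=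
        mem_nhdsWithin_of_mem_nhds (isOpen_ball.mem_nhds hz)
      filter_upwards [this, self_mem_nhdsWithin] with z hz hz'
      exact heq z hz hz'
    have := (c1.eventuallyEq_nhds_iff_eventuallyEq_nhdsNE c2).1 ev
    exact this.self_of_nhds
  · exact heq z hz hz0

end Pool.Agent.TH775.AC
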