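import Mathlib
import Pool.Agent.TH775.AC.Stmts

set_option autoImplicit false

open Complex Metric Set Filter Topology

namespace Pool.Agent.TH775.AC

namespace KdAux

theorem one_sub_ne {z : ℂ} (hz : z ∈ ball (0 : ℂ) 1) : 1 - z ≠ 0 := by
  intro h
  rw [mem_ball_zero_iff] at hz
  have : z = 1 := (sub_eq_zero.1 h).symm
  rw [this] at hz; simp at hz

theorem one_sub_re {z : ℂ} (hz : z ∈ ball (0 : ℂ) 1) : 0 < (1 - z).re := by
  rw [mem_ball_zero_iff] at hz
  have := Complex.re_le_norm z
  simp; linarith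

theorem y_pos (hH : S_HP) {α : ℝ} (hα0 : 0 < α) {y : ℂ → ℂ}
    (hy : DifferentiableOn ℂ y (ball 0 1)) (hy0 : y 0 = 1)
    (hode : ∀ z ∈ ball (0 : ℂ) 1, (1 + z) * y z + (α : ℂ) * z * (1 - z) * deriv y z = 1 - z) :
    ∀ z ∈ ball (0 : ℂ) 1, 0 < (y z).re := by
  refine hH y 1 one_pos hy (by simpa using hy0) ?_
  intro z hz hz0 hre k hk hd
  have hyz : y z = ((y z).im : ℂ) * I := by
    apply Complex.ext <;> simp [hre]
  set η := (y z).im with hη
  set C : ℝ := 1 + α * (k * (1 ^ 2 + η ^ 2) / (2 * 1)) with hC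
  have hCpos : 0 < C := by positivity
  have e1 : (1 + z) * ((η : ℂ) * I) = (1 - z) * (C : ℂ) := by
    have := hode z hz
    have h2 : (α : ℂ) * z * (1 - z) * deriv y z = (α : ℂ) * (1 - z) * (z * deriv y z) := by ring
    rw [h2, hd, hyz] at this
    rw [hC]
    push_cast at this ⊢
    linear_combination this
  have e2 : ((1 + z) * ((η : ℂ) * I) * (starRingEnd ℂ) (1 - z)).im =
      ((1 - z) * (C : ℂ) * (starRingEnd ℂ) (1 - z)).im := by rw [e1]
  have e3 : ((1 + z) * ((η : ℂ) * I) * (starRingEnd ℂ) (1 - z)).im =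
      η * (1 - (z.re ^ 2 + z.im ^ 2)) := by
    simp; ring
  have e4 : ((1 - z) * (C : ℂ) * (starRingEnd ℂ) (1 - z)).im = 0 := by
    simp; ring
  rw [e3, e4] at e2
  have hz2 : z.re ^ 2 + z.im ^ 2 < 1 := by
    rw [mem_ball_zero_iff, ← sq_lt_sq₀ (norm_nonneg _) zero_le_one,
      ← Complex.normSq_eq_norm_sq, Complex.normSq_apply] at hz
    nlinarith
  have hη0 : η = 0 := by
    rcases mul_eq_zero.1 e2 with h | h
    · exact h
    · linarith
  rw [hη0] at e1
  simp only [ofReal_zero, zero_mul, mul_zero] at e1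
  have := mul_ne_zero (one_sub_ne hz) (by exact_mod_cast hCpos.ne' : (C : ℂ) ≠ 0)
  exact this e1.symm

end KdAux

open KdAux in
theorem kd_of (hY : S_Y) (hH : S_HP) : S_KD := by
  intro α hα0 hα1
  obtain ⟨y, hy, hy0, hy1, hode, hconj⟩ := hY α hα0 hα1
  have hpos := y_pos hH hα0 hy hy0 hode
  have hyne : ∀ z ∈ ball (0 : ℂ) 1, y z ≠ 0 := by
    intro z hz h
    have := hpos z hz
    rw [h] at this; simp at this
  have hslit : ∀ z ∈ ball (0 : ℂ) 1, y z ∈ slitPlane := fun z hz => Or.inl (hpos z hz)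
  have hslit1 : ∀ z ∈ ball (0 : ℂ) 1, 1 - z ∈ slitPlane := fun z hz => Or.inl (one_sub_re hz)
  have hds : DifferentiableOn ℂ (dslope y 0) (ball 0 1) :=
    (Complex.differentiableOn_dslope (ball_mem_nhds 0 one_pos)).2 hy
  have hsl : ∀ z, z * dslope y 0 z = y z - 1 := by
    intro z
    have := sub_smul_dslope y 0 z
    rw [hy0, sub_zero, smul_eq_mul] at this
    exact this
  have n1 : (1 + (α : ℂ)) ≠ 0 := by
    have : (1 + (α : ℂ)) = ((1 + α : ℝ) : ℂ) := by push_cast; ring
    rw [this]; exact_mod_cast (by linarith : (1 + α) ≠ 0)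
  have h0 : (0 : ℂ) ∈ ball (0 : ℂ) 1 := mem_ball_self one_pos
  set m : ℂ → ℂ := fun z => -(1 - z) * dslope y 0 z / (2 * y z) with hm
  set L : ℂ → ℂ := fun z => (α : ℂ) * Complex.log (y z) - 2 * Complex.log (1 - z) with hL
  have hm0 : m 0 = 1 / (1 + (α : ℂ)) := by
    show -(1 - (0 : ℂ)) * dslope y 0 0 / (2 * y 0) = _
    rw [dslope_same, hy1, hy0]
    field_simp
    ring
  have hq : ∀ z ∈ ball (0 : ℂ) 1, 1 + 2 * z * m z / (1 - z) = (y z)⁻¹ := by
    intro z hz
    have h1 := one_sub_ne hz
    have h2 := hyne z hz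
    have e : 2 * z * m z / (1 - z) = -(z * dslope y 0 z) / y z := by
      show 2 * z * (-(1 - z) * dslope y 0 z / (2 * y z)) / (1 - z) = _
      field_simp
    rw [e, hsl]
    field_simp
    ring
  have hmP : ∀ z ∈ ball (0 : ℂ) 1, y z * (1 - z + 2 * z * m z) = 1 - z := by
    intro z hz
    have h1 := one_sub_ne hz
    have h2 := hyne z hz
    have := hq z hz
    have e : 1 - z + 2 * z * m z = (1 - z) * (1 + 2 * z * m z / (1 - z)) := by
      field_simp
    rw [e, this]
    field_simp
  have hdm : DifferentiableOn ℂ m (ball 0 1) := by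
    intro z hz
    have hid : DifferentiableWithinAt ℂ (fun z : ℂ => z) (ball 0 1) z := differentiableWithinAt_id
    exact ((((differentiableWithinAt_const _).sub hid).neg).mul (hds z hz)).div
      ((hy z hz).const_mul _) (mul_ne_zero two_ne_zero (hyne z hz))
  have hdL : DifferentiableOn ℂ L (ball 0 1) := by
    intro z hz
    have hid : DifferentiableWithinAt ℂ (fun z : ℂ => z) (ball 0 1) z := differentiableWithinAt_id
    exact (((hy z hz).clog (hslit z hz)).const_mul _).sub
      ((((differentiableWithinAt_const _).sub hid).clog (hslit1 z hz)).const_mul _)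
  refine ⟨L, m, hdL, ?_, hdm, hm0, ?_, ?_, ?_, ?_, ?_⟩
  · show (α : ℂ) * Complex.log (y 0) - 2 * Complex.log (1 - 0) = 0
    rw [hy0]; simp
  · intro z hz
    have h1 := one_sub_ne hz
    have h2 := hyne z hz
    have hyd : HasDerivAt y (deriv y z) z :=
      (hy.differentiableAt (isOpen_ball.mem_nhds hz)).hasDerivAt
    have hd : HasDerivAt L ((α : ℂ) * (deriv y z / y z) - 2 * ((-1) / (1 - z))) z :=
      ((hyd.clog (hslit z hz)).const_mul _).sub
        ((((hasDerivAt_id z).const_sub 1).clog (hslit1 z hz)).const_mul _)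
    rw [hd.deriv]
    by_cases hz0 : z = 0
    · subst hz0
      rw [hm0, hy0, hy1]
      field_simp
      ring
    · have e1 := hode z hz
      have e2 := hsl z
      have goal' : z * ((α : ℂ) * (deriv y z / y z) - 2 * ((-1) / (1 - z))) =
          z * (2 * m z / (1 - z)) := by
        have t1 : z * (2 * m z / (1 - z)) = (1 - y z) / y z := by
          have : z * (2 * m z / (1 - z)) = -(z * dslope y 0 z) / y z := by
            show z * (2 * (-(1 - z) * dslope y 0 z / (2 * y z)) / (1 - z)) = _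
            field_simp
          rw [this, e2]; ring
        rw [t1]
        field_simp
        linear_combination e1
      exact mul_left_cancel₀ hz0 goal'
  · intro z hz
    by_cases hz0 : z = 0
    · subst hz0
      rw [hm0]
      field_simp
      ring
    · have h1 := one_sub_ne hz
      have E1 := hode z hz
      have E2 := hmP z hz
      have hyd : HasDerivAt y (deriv y z) z :=
        (hy.differentiableAt (isOpen_ball.mem_nhds hz)).hasDerivAt
      have hmd : HasDerivAt m (deriv m z) z :=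
        (hdm.differentiableAt (isOpen_ball.mem_nhds hz)).hasDerivAt
      have hid : HasDerivAt (fun z : ℂ => z) 1 z := hasDerivAt_id z
      have h1z : HasDerivAt (fun z : ℂ => 1 - z) (-1) z := hid.const_sub 1
      have hl : HasDerivAt (fun z => y z * (1 - z + 2 * z * m z))
          (deriv y z * (1 - z + 2 * z * m z) +
            y z * (-1 + (2 * 1 * m z + 2 * z * deriv m z))) z :=
        hyd.mul (h1z.add ((hid.const_mul 2).mul hmd))
      have ev : (fun z => y z * (1 - z + 2 * z * m z)) =ᶠ[𝓝 z] (fun z => 1 - z) := by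
        filter_upwards [isOpen_ball.mem_nhds hz] with x hx
        exact hmP x hx
      have E3 := hl.unique (h1z.congr_of_eventuallyEq ev)
      have hg : (2 * z * (1 - z)) * ((α : ℂ) * (1 - z) * (z * deriv m z)) =
          (2 * z * (1 - z)) * (-((α : ℂ) * m z) + (1 - z + 2 * z * m z) * (1 - m z)) := by
        linear_combination (-(1 - z + 2 * z * m z) ^ 2) * E1 +
          ((1 + z) * (1 - z + 2 * z * m z)) * E2 +
          ((α : ℂ) * z * (1 - z) * (1 - z + 2 * z * m z)) * E3 -
          ((α : ℂ) * z * (1 - z) * (-1 + (2 * 1 * m z + 2 * z * deriv m z))) * E2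
      exact mul_left_cancel₀ (mul_ne_zero (mul_ne_zero two_ne_zero hz0) h1) hg
  · intro z hz
    rw [hq z hz, Complex.inv_re]
    exact div_pos (hpos z hz) (Complex.normSq_pos.2 (hyne z hz))
  · intro z hz
    rw [hq z hz, Complex.log_inv _ (Complex.slitPlane_arg_ne_pi (hslit z hz))]
    show (α : ℂ) * -Complex.log (y z) + ((α : ℂ) * Complex.log (y z) - 2 * Complex.log (1 - z)) = _
    ring
  · intro z hz
    by_cases hz0 : z = 0
    · subst hz0
      rw [map_zero, hm0]
      simp
    · have hz0' : (starRingEnd ℂ) z ≠ 0 := by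
        simpa using hz0
      show -(1 - (starRingEnd ℂ) z) * dslope y 0 ((starRingEnd ℂ) z) /
        (2 * y ((starRingEnd ℂ) z)) = (starRingEnd ℂ) (-(1 - z) * dslope y 0 z / (2 * y z))
      rw [dslope_of_ne _ hz0, dslope_of_ne _ hz0', slope_def_field, slope_def_field, hconj z hz,
        hy0]
      simp [Complex.conj_ofNat]

end Pool.Agent.TH775.AC
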