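import Mathlib
import Pool.Agent.TH775.AC.Stmts

set_option autoImplicit false

open Complex Metric Set Filter Topology

namespace Pool.Agent.TH775.AC

namespace N2Aux

theorem one_sub_ne {z : ℂ} (hz : z ∈ ball (0 : ℂ) 1) : 1 - z ≠ 0 := by
  intro h
  rw [mem_ball_zero_iff] at hz
  have : z = 1 := (sub_eq_zero.1 h).symm
  rw [this] at hz; simp at hz

theorem ray (h h' : ℝ → ℝ) (hd : ∀ t ∈ Icc (0 : ℝ) 1, HasDerivAt h (h' t) t) (h0 : h 0 = 0)
    (h0' : 0 < h' 0) (hz : ∀ t ∈ Ioc (0 : ℝ) 1, h t = 0 → 0 < h' t) : 0 < h 1 := by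
  have hz' : ∀ t ∈ Icc (0 : ℝ) 1, h t = 0 → 0 < h' t := by
    intro t ht
    rcases eq_or_lt_of_le ht.1 with h1 | h1
    · intro _; rw [← h1]; exact h0'
    · exact hz t ⟨h1, ht.2⟩
  have hnn : ∀ t ∈ Icc (0 : ℝ) 1, 0 ≤ h t := by
    intro t ht
    exact image_le_of_deriv_right_lt_deriv_boundary' (f := fun _ => (0 : ℝ)) (f' := fun _ => 0)
      (a := 0) (b := 1) continuousOn_const (fun x _ => hasDerivWithinAt_const x (Ici x) (0 : ℝ))
      (B := h) (B' := h') h0.ge (fun x hx => (hd x hx).continuousAt.continuousWithinAt)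
      (fun x hx => (hd x (Ico_subset_Icc_self hx)).hasDerivWithinAt)
      (fun x hx hx0 => hz' x (Ico_subset_Icc_self hx) hx0.symm) ht
  have h1m : (1 : ℝ) ∈ Icc (0 : ℝ) 1 := ⟨zero_le_one, le_refl _⟩
  rcases eq_or_lt_of_le (hnn 1 h1m) with h1 | h1
  · exfalso
    have hpos := hz' 1 h1m h1.symm
    have hs := (hasDerivAt_iff_tendsto_slope.1 (hd 1 h1m))
    have hs' : Tendsto (slope h 1) (𝓝[<] 1) (𝓝 (h' 1)) :=
      hs.mono_left (nhdsWithin_mono _ (fun x hx => ne_of_lt hx))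
    have ev := hs'.eventually (lt_mem_nhds hpos)
    have ev2 : ∀ᶠ t in 𝓝[<] (1 : ℝ), t ∈ Ioo (0 : ℝ) 1 := Ioo_mem_nhdsLT zero_lt_one
    obtain ⟨t, ht1, ht2⟩ := (ev.and ev2).exists
    rw [slope_def_field, ← h1, sub_zero] at ht1
    have h3 := hnn t (Ioo_subset_Icc_self ht2)
    have h4 : t - 1 < 0 := by linarith [ht2.2]
    have := div_nonpos_of_nonneg_of_nonpos h3 h4.le
    linarith
  · exact h1

theorem path {f : ℂ → ℂ} {f' z1 : ℂ} {t : ℝ} (hf : HasDerivAt f f' ((t : ℂ) * z1)) :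
    HasDerivAt (fun t : ℝ => (f ((t : ℂ) * z1)).im) ((f' * z1).im) t := by
  have hline : HasDerivAt (fun t : ℝ => (t : ℂ) * z1) z1 t := by
    have := ((hasDerivAt_id t).ofReal_comp).mul_const z1
    simpa using this
  have h1 := HasDerivAt.scomp t hf hline
  have h2 := (Complex.imCLM.hasFDerivAt).comp_hasDerivAt t h1
  refine h2.congr_deriv ?_
  simp [mul_comm]

theorem u_im {z : ℂ} (hz : z ∈ ball (0 : ℂ) 1) (h : 0 < z.im) : 0 < ((1 - z)⁻¹).im := by
  rw [Complex.inv_im]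
  have : 0 < Complex.normSq (1 - z) := Complex.normSq_pos.2 (one_sub_ne hz)
  simp only [sub_im, one_im, zero_sub, neg_neg]
  positivity

theorem deriv_m0 {α : ℝ} {L m : ℂ → ℂ} (hα0 : 0 < α) (hK : KD α L m) :
    deriv m 0 = ((α * (1 - α) / ((1 + α) ^ 2 * (1 + 2 * α)) : ℝ) : ℂ) := by
  have h0 : (0 : ℂ) ∈ ball (0 : ℂ) 1 := mem_ball_self one_pos
  have hm : HasDerivAt m (deriv m 0) 0 :=
    (hK.dm.differentiableAt (isOpen_ball.mem_nhds h0)).hasDerivAt
  have hm' : HasDerivAt (deriv m) (deriv (deriv m) 0) 0 :=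
    ((hK.dm.deriv isOpen_ball).differentiableAt (isOpen_ball.mem_nhds h0)).hasDerivAt
  have hid : HasDerivAt (fun z : ℂ => z) 1 0 := hasDerivAt_id 0
  have h1z : HasDerivAt (fun z : ℂ => 1 - z) (-1) 0 := hid.const_sub 1
  have hl : HasDerivAt (fun z : ℂ => (α : ℂ) * (1 - z) * (z * deriv m z))
      ((α : ℂ) * (-1) * ((0 : ℂ) * deriv m 0) + (α : ℂ) * (1 - 0) *
        (1 * deriv m 0 + 0 * deriv (deriv m) 0)) 0 :=
    (h1z.const_mul (α : ℂ)).mul (hid.mul hm')
  have h2z : HasDerivAt (fun z : ℂ => 2 * z) (2 * 1) 0 := hid.const_mul 2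
  have hr : HasDerivAt (fun z : ℂ => -((α : ℂ) * m z) + (1 - z + 2 * z * m z) * (1 - m z))
      (-((α : ℂ) * deriv m 0) + ((-1 + (2 * 1 * m 0 + 2 * 0 * deriv m 0)) * (1 - m 0) +
        (1 - 0 + 2 * 0 * m 0) * (-(deriv m 0)))) 0 := by
    have t1 := ((hm.const_mul (α : ℂ)).neg).add (((h1z.add (h2z.mul hm))).mul (hm.const_sub 1))
    exact t1
  have ev : (fun z : ℂ => (α : ℂ) * (1 - z) * (z * deriv m z)) =ᶠ[𝓝 0]
      (fun z : ℂ => -((α : ℂ) * m z) + (1 - z + 2 * z * m z) * (1 - m z)) := by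
    filter_upwards [isOpen_ball.mem_nhds h0] with z hz
    exact hK.ode z hz
  have huniq := hl.unique (hr.congr_of_eventuallyEq ev)
  rw [hK.m0] at huniq
  have n1 : (1 + (α : ℂ)) ≠ 0 := by
    have : (1 + (α : ℂ)) = ((1 + α : ℝ) : ℂ) := by push_cast; ring
    rw [this]; exact_mod_cast (by linarith : (1 + α) ≠ 0)
  have n2 : (1 + 2 * (α : ℂ)) ≠ 0 := by
    have : (1 + 2 * (α : ℂ)) = ((1 + 2 * α : ℝ) : ℂ) := by push_cast; ring
    rw [this]; exact_mod_cast (by linarith : (1 + 2 * α) ≠ 0)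
  have e : (1 + 2 * (α : ℂ)) * deriv m 0 =
      (-1 + 2 * (1 / (1 + (α : ℂ)))) * (1 - 1 / (1 + (α : ℂ))) := by
    linear_combination huniq
  have e2 : deriv m 0 = (-1 + 2 * (1 / (1 + (α : ℂ)))) * (1 - 1 / (1 + (α : ℂ))) /
      (1 + 2 * (α : ℂ)) := by
    rw [eq_div_iff n2, mul_comm]; exact e
  rw [e2]
  push_cast
  field_simp
  ring

theorem main {α : ℝ} {L m : ℂ → ℂ} (hα0 : 0 < α) (hα1 : α < 1) (hK : KD α L m)
    (h1 : ∀ z ∈ ball (0 : ℂ) 1, m z ≠ 0 ∧ 2 / (2 - α) < ((m z)⁻¹).re) {z1 : ℂ}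
    (hz1 : z1 ∈ ball (0 : ℂ) 1) (him : 0 < z1.im) :
    ((m z1)⁻¹).im < 0 ∧ 0 < (2 * z1 * m z1 / (1 - z1)).im := by
  have hball : ∀ t ∈ Icc (0 : ℝ) 1, (t : ℂ) * z1 ∈ ball (0 : ℂ) 1 := by
    intro t ht
    rw [mem_ball_zero_iff] at hz1 ⊢
    rw [norm_mul, Complex.norm_real, Real.norm_of_nonneg ht.1]
    nlinarith [ht.2, norm_nonneg z1, ht.1]
  have hm : ∀ z ∈ ball (0 : ℂ) 1, HasDerivAt m (deriv m z) z := fun z hz =>
    (hK.dm.differentiableAt (isOpen_ball.mem_nhds hz)).hasDerivAt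
  have h0 : (0 : ℂ) ∈ ball (0 : ℂ) 1 := mem_ball_self one_pos
  constructor
  · -- n
    have hn : ∀ z ∈ ball (0 : ℂ) 1, HasDerivAt (fun z => -(m z)⁻¹) (deriv m z / m z ^ 2) z := by
      intro z hz
      have := ((hm z hz).inv (h1 z hz).1).neg
      refine this.congr_deriv ?_
      ring
    have key := ray (fun t : ℝ => (-(m ((t : ℂ) * z1))⁻¹).im)
      (fun t : ℝ => ((deriv m ((t : ℂ) * z1) / m ((t : ℂ) * z1) ^ 2) * z1).im)
      (fun t ht => path (f := fun z => -(m z)⁻¹) (hn _ (hball t ht))) ?_ ?_ ?_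
    · simp only [ofReal_one, one_mul, neg_im] at key
      linarith
    · simp only [ofReal_zero, zero_mul, hK.m0, neg_im]
      have : (1 / (1 + (α : ℂ)))⁻¹ = ((1 + α : ℝ) : ℂ) := by push_cast; field_simp
      rw [this, ofReal_im, neg_zero]
    · simp only [ofReal_zero, zero_mul, hK.m0, deriv_m0 hα0 hK]
      have : (((α * (1 - α) / ((1 + α) ^ 2 * (1 + 2 * α)) : ℝ) : ℂ) /
          (1 / (1 + (α : ℂ))) ^ 2 * z1) = (((α * (1 - α) / ((1 + α) ^ 2 * (1 + 2 * α)) *
            (1 + α) ^ 2 : ℝ)) : ℂ) * z1 := by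
        push_cast; field_simp
      rw [this, Complex.im_ofReal_mul]
      have : 0 < 1 - α := by linarith
      positivity
    · intro t ht h0t
      have hzb := hball t ⟨ht.1.le, ht.2⟩
      set z : ℂ := (t : ℂ) * z1 with hz
      have hzim : 0 < z.im := by
        rw [hz, Complex.im_ofReal_mul]; exact mul_pos ht.1 him
      have hu := u_im hzb hzim
      obtain ⟨hm0, hN⟩ := h1 z hzb
      set u : ℂ := (1 - z)⁻¹ with hudef
      set a : ℝ := ((m z)⁻¹).re with ha
      have hna : (m z)⁻¹ = (a : ℂ) := by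
        apply Complex.ext
        · simp [ha]
        · simp only [neg_im, neg_eq_zero] at h0t; simpa using h0t
      have hode := hK.ode z hzb
      have h1z := one_sub_ne hzb
      have eq1 : (α : ℂ) * (z * (deriv m z / m z ^ 2)) =
          -((α : ℂ) * ((m z)⁻¹ * u)) + ((m z)⁻¹ + 2 * u - 2) * ((m z)⁻¹ - 1) := by
        have t1 : (α : ℂ) * (z * (deriv m z / m z ^ 2)) =
            ((α : ℂ) * (1 - z) * (z * deriv m z)) / (m z ^ 2 * (1 - z)) := by
          field_simp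
        rw [t1, hode, hudef]
        field_simp
        ring
      rw [hna] at eq1
      have eq2 := congrArg Complex.im eq1
      have e3 : (-((α : ℂ) * ((a : ℂ) * u)) + ((a : ℂ) + 2 * u - 2) * ((a : ℂ) - 1)).im =
          u.im * ((2 - α) * a - 2) := by
        simp
        ring
      rw [e3, Complex.im_ofReal_mul] at eq2
      have h2a : 0 < 2 - α := by linarith
      have h5 : 0 < (2 - α) * a - 2 := by
        rw [div_lt_iff₀ h2a] at hN
        linarith
      have h6 : 0 < (z * (deriv m z / m z ^ 2)).im := by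
        have : 0 < α * (z * (deriv m z / m z ^ 2)).im := by rw [eq2]; exact mul_pos hu h5
        exact (mul_pos_iff_of_pos_left hα0).1 this
      have h7 : z * (deriv m z / m z ^ 2) = (t : ℂ) * (deriv m z / m z ^ 2 * z1) := by
        rw [hz]; ring
      rw [h7, Complex.im_ofReal_mul] at h6
      exact (mul_pos_iff_of_pos_left ht.1).1 h6
  · have hq : ∀ z ∈ ball (0 : ℂ) 1, HasDerivAt (fun z => 2 * z * m z / (1 - z))
        (((2 * 1 * m z + 2 * z * deriv m z) * (1 - z) - 2 * z * m z * (-1)) / (1 - z) ^ 2) z := by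
      intro z hz
      have hid : HasDerivAt (fun z : ℂ => z) 1 z := hasDerivAt_id z
      exact ((hid.const_mul 2).mul (hm z hz)).div (hid.const_sub 1) (one_sub_ne hz)
    have key := ray (fun t : ℝ => (2 * ((t : ℂ) * z1) * m ((t : ℂ) * z1) / (1 - (t : ℂ) * z1)).im)
      (fun t : ℝ => ((((2 * 1 * m ((t : ℂ) * z1) + 2 * ((t : ℂ) * z1) * deriv m ((t : ℂ) * z1)) *
        (1 - (t : ℂ) * z1) - 2 * ((t : ℂ) * z1) * m ((t : ℂ) * z1) * (-1)) /
          (1 - (t : ℂ) * z1) ^ 2) * z1).im)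
      (fun t ht => path (f := fun z => 2 * z * m z / (1 - z)) (hq _ (hball t ht))) ?_ ?_ ?_
    · simpa only [ofReal_one, one_mul] using key
    · simp
    · simp only [ofReal_zero, zero_mul, hK.m0]
      have : ((2 * 1 * (1 / (1 + (α : ℂ))) + 2 * 0 * deriv m 0) * (1 - 0) -
          2 * 0 * (1 / (1 + (α : ℂ))) * (-1)) / (1 - 0) ^ 2 * z1 = ((2 / (1 + α) : ℝ) : ℂ) * z1 := by
        push_cast; ring
      rw [this, Complex.im_ofReal_mul]
      positivity
    · intro t ht h0t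
      have hzb := hball t ⟨ht.1.le, ht.2⟩
      set z : ℂ := (t : ℂ) * z1 with hz
      have hzim : 0 < z.im := by
        rw [hz, Complex.im_ofReal_mul]; exact mul_pos ht.1 him
      have hu := u_im hzb hzim
      have hrho := hK.rho z hzb
      obtain ⟨hm0, hN⟩ := h1 z hzb
      set u : ℂ := (1 - z)⁻¹ with hudef
      set q : ℂ := 2 * z * m z / (1 - z) with hqdef
      have hqb : q = (q.re : ℂ) := by
        apply Complex.ext
        · simp
        · simpa using h0t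
      have hode := hK.ode z hzb
      have h1z := one_sub_ne hzb
      set Q : ℂ := ((2 * 1 * m z + 2 * z * deriv m z) * (1 - z) - 2 * z * m z * (-1)) / (1 - z) ^ 2
        with hQ
      have eq1 : (α : ℂ) * (z * Q) = (1 + q) * (2 * u - 2 - q) := by
        have t1 : (α : ℂ) * (z * Q) = (2 * z * (α * (1 - z) * (z * deriv m z)) +
            2 * α * z * m z) / (1 - z) ^ 2 := by
          rw [hQ]; field_simp; ring
        rw [t1, hode, hudef, hqdef]
        field_simp
        ring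
      rw [hqb] at eq1
      have eq2 := congrArg Complex.im eq1
      have e3 : ((1 + (q.re : ℂ)) * (2 * u - 2 - (q.re : ℂ))).im = 2 * u.im * (1 + q.re) := by
        simp
        ring
      rw [e3, Complex.im_ofReal_mul] at eq2
      have h5 : 0 < 1 + q.re := by simpa using hrho
      have h6 : 0 < (z * Q).im := by
        have : 0 < α * (z * Q).im := by rw [eq2]; positivity
        exact (mul_pos_iff_of_pos_left hα0).1 this
      have h7 : z * Q = (t : ℂ) * (Q * z1) := by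
        rw [hz]; ring
      rw [h7, Complex.im_ofReal_mul] at h6
      exact (mul_pos_iff_of_pos_left ht.1).1 h6

end N2Aux

open N2Aux in
theorem n2_of (h1 : S_N1) : S_N2 := by
  intro α L m hα0 hα1 hK z hz
  have hN := h1 α L m hα0 hα1 hK
  rcases lt_trichotomy z.im 0 with hlt | heq | hgt
  · have hzc : (starRingEnd ℂ) z ∈ ball (0 : ℂ) 1 := by
      rw [mem_ball_zero_iff] at hz ⊢; simpa using hz
    have him : 0 < ((starRingEnd ℂ) z).im := by simpa using hlt
    obtain ⟨k1, k2⟩ := main hα0 hα1 hK hN hzc him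
    rw [hK.conj z hz] at k1 k2
    have e1 : (((starRingEnd ℂ) (m z))⁻¹).im = -((m z)⁻¹).im := by
      rw [← map_inv₀, Complex.conj_im]
    have e2 : (2 * (starRingEnd ℂ) z * (starRingEnd ℂ) (m z) / (1 - (starRingEnd ℂ) z)).im =
        -(2 * z * m z / (1 - z)).im := by
      rw [← Complex.conj_im]
      congr 1
      simp [Complex.conj_ofNat]
    rw [e1] at k1
    rw [e2] at k2
    have k1' : 0 < ((m z)⁻¹).im := by linarith
    have k2' : (2 * z * m z / (1 - z)).im < 0 := by linarith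
    exact ⟨(mul_neg_of_pos_of_neg k1' hlt).le, (mul_neg_of_pos_of_neg k1' k2').le⟩
  · have hzr : (starRingEnd ℂ) z = z := Complex.conj_eq_iff_im.2 heq
    have h2 := hK.conj z hz
    rw [hzr] at h2
    have h3 : (m z).im = 0 := Complex.conj_eq_iff_im.1 h2.symm
    have h4 : ((m z)⁻¹).im = 0 := by rw [Complex.inv_im, h3]; simp
    rw [h4, zero_mul, zero_mul]
    exact ⟨le_refl _, le_refl _⟩
  · obtain ⟨k1, k2⟩ := main hα0 hα1 hK hN hz hgt
    exact ⟨(mul_neg_of_neg_of_pos k1 hgt).le, (mul_neg_of_neg_of_pos k1 k2).le⟩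

end Pool.Agent.TH775.AC
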