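import Pool.Agent.TH714.TD.Defs

set_option autoImplicit false

namespace Pool.Agent.TH576.J2160

open Pool.Agent.TH64 Pool.Agent.TH714.TD

theorem quo_few {G : Type} [Group G] {H : Hyp G} {x : G} (A : Ax H x) (L : Subgroup G)
    (hkey : KeyK A L) (k : ℕ) (hk : Few L k) : ∃ N0 : ℕ, ∀ N ≥ N0,
    ∀ (M : Subgroup G) [M.Normal], Fill A N M → Few (L.map (QuotientGroup.mk' M)) k := by
  obtain ⟨N0, hN0⟩ := hkey
  refine ⟨N0, fun N hN M _ hF => ?_⟩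
  intro σ hσ hb hfix
  obtain ⟨y, rfl⟩ := QuotientGroup.mk'_surjective M σ
  choose hl hhl using fun i => QuotientGroup.mk'_surjective M (hb i)
  obtain ⟨n0, hn0, g0, hmin⟩ := exists_min_conj H M y
  set z := g0⁻¹ * (y * n0) * g0 with hz
  have hn1 : (n0 : G ⧸ M) = 1 := (QuotientGroup.eq_one_iff n0).2 hn0
  have hzM : (z : G ⧸ M) = (g0 : G ⧸ M)⁻¹ * (y : G ⧸ M) * g0 := by
    rw [hz]
    simp only [QuotientGroup.mk_mul, QuotientGroup.mk_inv, hn1, mul_one]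
  have hzf : ¬ IsOfFinOrder (z : G ⧸ M) := by
    rw [hzM]
    intro h
    apply hσ
    obtain ⟨n, hn, h1⟩ := isOfFinOrder_iff_pow_eq_one.1 h
    refine isOfFinOrder_iff_pow_eq_one.2 ⟨n, hn, ?_⟩
    have h2 : ((g0 : G ⧸ M)⁻¹ * (y : G ⧸ M) * g0) ^ n
        = (g0 : G ⧸ M)⁻¹ * (y : G ⧸ M) ^ n * g0 := by
      have := conj_pow (i := n) (a := (g0 : G ⧸ M)⁻¹) (b := (y : G ⧸ M))
      simpa using this
    rw [h2] at h1
    change (y : G ⧸ M) ^ n = 1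
    have h3 : (y : G ⧸ M) ^ n = (g0 : G ⧸ M) * ((g0 : G ⧸ M)⁻¹ * (y : G ⧸ M) ^ n * g0) *
        (g0 : G ⧸ M)⁻¹ := by group
    rw [h3, h1]
    group
  have h1 : ∀ i, ∃ l ∈ L, l⁻¹ * ((g0⁻¹ * hl i)⁻¹ * z * (g0⁻¹ * hl i)) ∈ M := by
    intro i
    have h2 := hfix i
    rw [← hhl i, Subgroup.mem_map] at h2
    obtain ⟨l, hlL, h3⟩ := h2
    refine ⟨l, hlL, ?_⟩
    rw [← QuotientGroup.eq_one_iff]
    have h4 : (l : G ⧸ M) = (hl i : G ⧸ M)⁻¹ * (y : G ⧸ M) * (hl i : G ⧸ M) := h3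
    simp only [QuotientGroup.mk_mul, QuotientGroup.mk_inv, h4, hzM]
    group
  choose m hm l hl' r hr hmem using fun i => hN0 N hN M hF z hmin hzf _ (h1 i)
  have hrr : 1 ≤ ∏ i, r i := Nat.one_le_iff_ne_zero.2
    (Finset.prod_ne_zero_iff.2 fun i _ => Nat.one_le_iff_ne_zero.1 (hr i))
  have hzz : ¬ IsOfFinOrder (z ^ ∏ i, r i) := by
    intro h
    apply hzf
    have h5 : IsOfFinOrder z := (isOfFinOrder_pow.1 h).resolve_right (by omega)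
    exact MonoidHom.isOfFinOrder (QuotientGroup.mk' M) h5
  have hall : ∀ i, (m i * (g0⁻¹ * hl i) * l i)⁻¹ * (z ^ ∏ i, r i) *
      (m i * (g0⁻¹ * hl i) * l i) ∈ L := by
    intro i
    obtain ⟨c, hc⟩ := Finset.dvd_prod_of_mem r (Finset.mem_univ i)
    have h6 : ∀ p : G, p⁻¹ * (z ^ ∏ i, r i) * p = (p⁻¹ * z ^ r i * p) ^ c := by
      intro p
      have := conj_pow (i := c) (a := p⁻¹) (b := z ^ r i)
      rw [inv_inv] at this
      rw [this, hc, pow_mul]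
    rw [h6]
    exact L.pow_mem (hmem i) c
  obtain ⟨i, j, hij, h7⟩ := hk _ hzz _ hall
  refine ⟨i, j, hij, ?_⟩
  have h8 := Subgroup.mem_map_of_mem (QuotientGroup.mk' M) h7
  have hmi : ∀ i, (m i : G ⧸ M) = 1 := fun i => (QuotientGroup.eq_one_iff _).2 (hm i)
  have h9 : (hb i)⁻¹ * hb j = (QuotientGroup.mk' M (l i)) *
      (QuotientGroup.mk' M ((m i * (g0⁻¹ * hl i) * l i)⁻¹ * (m j * (g0⁻¹ * hl j) * l j))) *
      (QuotientGroup.mk' M (l j))⁻¹ := by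
    rw [← hhl i, ← hhl j]
    simp only [QuotientGroup.mk'_apply, QuotientGroup.mk_mul, QuotientGroup.mk_inv, hmi]
    group
  rw [h9]
  exact Subgroup.mul_mem _ (Subgroup.mul_mem _ (Subgroup.mem_map_of_mem _ (hl' i)) h8)
    (Subgroup.inv_mem _ (Subgroup.mem_map_of_mem _ (hl' j)))

end Pool.Agent.TH576.J2160
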