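import Pool.Agent.TH981.SD.Stm

set_option autoImplicit false

open Pool.Agent.TH981.SD
open Finset Set Filter
open scoped BigOperators Topology Classical

namespace Pool.Agent.TH576.J2282

section basic

variable {n : ℕ} (G : SimpleGraph (Fin n)) (v : Fin n)

theorem adj_cc (x y : Fin n) : (attach G v).Adj x.castSucc y.castSucc ↔ G.Adj x y := by
  constructor
  · rintro (⟨i, j, h1, h2, h3⟩ | ⟨h1, h2⟩ | ⟨h1, h2⟩)
    · rw [Fin.castSucc_inj] at h1 h2
      subst h1; subst h2; exact h3
    · exact absurd h1 (Fin.castSucc_lt_last x).ne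
    · exact absurd h2 (Fin.castSucc_lt_last y).ne
  · intro h
    exact Or.inl ⟨x, y, rfl, rfl, h⟩

theorem adj_lc (x : Fin n) : (attach G v).Adj (Fin.last n) x.castSucc ↔ x = v := by
  constructor
  · rintro (⟨i, j, h1, h2, h3⟩ | ⟨h1, h2⟩ | ⟨h1, h2⟩)
    · exact absurd h1.symm (Fin.castSucc_lt_last i).ne
    · exact Fin.castSucc_injective _ h2
    · exact absurd h1.symm (Fin.castSucc_lt_last v).ne
  · rintro rfl
    exact Or.inr (Or.inl ⟨rfl, rfl⟩)

theorem adj_cl (x : Fin n) : (attach G v).Adj x.castSucc (Fin.last n) ↔ x = v := by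
  rw [SimpleGraph.adj_comm, adj_lc]

/-- the inclusion -/
def inc : G →g attach G v where
  toFun := Fin.castSucc
  map_rel' := fun h => (adj_cc G v _ _).2 h

/-- the retraction -/
def ret (a : Fin (n + 1)) : Fin n := Fin.lastCases v (fun x => x) a

@[simp] theorem ret_last : ret v (Fin.last n) = v := by simp [ret]

@[simp] theorem ret_cast (x : Fin n) : ret v x.castSucc = x := by simp [ret]

theorem ret_adj {a b : Fin (n + 1)} (h : (attach G v).Adj a b) :
    ret v a = ret v b ∨ G.Adj (ret v a) (ret v b) := by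
  rcases h with ⟨i, j, h1, h2, h3⟩ | ⟨h1, h2⟩ | ⟨h1, h2⟩
  · right; simpa [h1, h2] using h3
  · left; simp [h1, h2]
  · left; simp [h1, h2]

theorem ret_walk {a b : Fin (n + 1)} (w : (attach G v).Walk a b) :
    ∃ w' : G.Walk (ret v a) (ret v b), w'.length ≤ w.length := by
  induction w with
  | nil => exact ⟨SimpleGraph.Walk.nil, le_rfl⟩
  | cons h p ih =>
    obtain ⟨w', hw'⟩ := ih
    rcases ret_adj G v h with h1 | h1
    · exact ⟨w'.copy h1.symm rfl, by simp; omega⟩
    · exact ⟨SimpleGraph.Walk.cons h1 w', by simp; omega⟩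

theorem ret_dist {a b : Fin (n + 1)} (w : (attach G v).Walk a b) :
    G.dist (ret v a) (ret v b) ≤ w.length := by
  obtain ⟨w', hw'⟩ := ret_walk G v w
  exact (SimpleGraph.dist_le w').trans hw'

theorem conn (hG : G.Connected) : (attach G v).Connected := by
  have h1 : ∀ x : Fin n, (attach G v).Reachable v.castSucc x.castSucc := fun x =>
    (hG.preconnected v x).map (inc G v)
  have h2 : ∀ a : Fin (n + 1), (attach G v).Reachable v.castSucc a := by
    intro a
    refine Fin.lastCases ?_ (fun x => h1 x) a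
    exact SimpleGraph.Adj.reachable ((adj_cl G v v).2 rfl)
  have : Nonempty (Fin (n + 1)) := ⟨0⟩
  exact ⟨fun a b => (h2 a).symm.trans (h2 b)⟩

theorem dist_cc (hG : G.Connected) (x y : Fin n) :
    (attach G v).dist x.castSucc y.castSucc = G.dist x y := by
  apply le_antisymm
  · obtain ⟨p, hp⟩ := hG.exists_walk_length_eq_dist x y
    have := SimpleGraph.dist_le (p.map (inc G v))
    rw [SimpleGraph.Walk.length_map, hp] at this
    exact this
  · obtain ⟨p, hp⟩ := (conn G v hG).exists_walk_length_eq_dist x.castSucc y.castSucc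
    have h1 := ret_dist G v p
    rw [ret_cast, ret_cast] at h1
    omega

theorem walk_last {a b : Fin (n + 1)} (w : (attach G v).Walk a b) (ha : a = Fin.last n)
    (y : Fin n) (hb : b = y.castSucc) : G.dist v y + 1 ≤ w.length := by
  cases w with
  | nil => exact absurd (hb.symm.trans ha) (Fin.castSucc_lt_last y).ne
  | cons h q =>
    rename_i c
    subst ha
    have hc : c = v.castSucc := by
      rcases h with ⟨i, j, h1, h2, h3⟩ | ⟨h1, h2⟩ | ⟨h1, h2⟩
      · exact absurd h1.symm (Fin.castSucc_lt_last i).ne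
      · exact h2
      · exact absurd h1.symm (Fin.castSucc_lt_last v).ne
    have h1 := ret_dist G v q
    have h2 : ret v c = v := by rw [hc, ret_cast]
    have h3 : ret v b = y := by rw [hb, ret_cast]
    rw [SimpleGraph.Walk.length_cons]
    have h4 : G.dist v y = G.dist (ret v c) (ret v b) := by rw [h2, h3]
    omega

theorem dist_lc (hG : G.Connected) (y : Fin n) :
    (attach G v).dist (Fin.last n) y.castSucc = G.dist v y + 1 := by
  apply le_antisymm
  · obtain ⟨p, hp⟩ := hG.exists_walk_length_eq_dist v y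
    obtain ⟨q, hq⟩ : ∃ q : (attach G v).Walk v.castSucc y.castSucc, q.length = p.length :=
      ⟨p.map (inc G v), SimpleGraph.Walk.length_map _ _⟩
    have h1 := SimpleGraph.dist_le (SimpleGraph.Walk.cons ((adj_lc G v v).2 rfl) q)
    rw [SimpleGraph.Walk.length_cons] at h1
    omega
  · obtain ⟨p, hp⟩ := (conn G v hG).exists_walk_length_eq_dist (Fin.last n) y.castSucc
    rw [← hp]
    exact walk_last G v p rfl y rfl

theorem dg_eq_degree (x : Fin n) : dg G x = G.degree x := by
  unfold dg
  rw [← SimpleGraph.card_neighborFinset_eq_degree, SimpleGraph.neighborFinset_eq_filter]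

theorem dg_cast (w : Fin n) : dg (attach G v) w.castSucc = dg G w + if w = v then 1 else 0 := by
  unfold dg
  rw [Finset.card_filter, Finset.card_filter, Fin.sum_univ_castSucc]
  simp only [adj_cc, adj_cl]

theorem dg_last : dg (attach G v) (Fin.last n) = 1 := by
  unfold dg
  rw [Finset.card_filter, Fin.sum_univ_castSucc]
  simp [adj_lc]

theorem sum_dg (hG : G.IsTree) : ∑ x, dg G x = 2 * (n - 1) := by
  have h1 : ∑ x, dg G x = 2 * G.edgeFinset.card := by
    rw [← SimpleGraph.sum_degrees_eq_twice_card_edges]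
    exact Finset.sum_congr rfl fun x _ => dg_eq_degree G x
  have h2 := (SimpleGraph.isTree_iff_connected_and_card.1 hG).2
  rw [Nat.card_eq_fintype_card, Nat.card_eq_fintype_card, Fintype.card_fin,
    ← SimpleGraph.edgeFinset_card] at h2
  omega

theorem isTree (hG : G.IsTree) : (attach G v).IsTree := by
  refine SimpleGraph.isTree_iff_connected_and_card.2 ⟨conn G v hG.1, ?_⟩
  rw [Nat.card_eq_fintype_card, Nat.card_eq_fintype_card, Fintype.card_fin,
    ← SimpleGraph.edgeFinset_card]
  have h1 : ∑ x, dg (attach G v) x = 2 * (attach G v).edgeFinset.card := by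
    rw [← SimpleGraph.sum_degrees_eq_twice_card_edges]
    exact Finset.sum_congr rfl fun x _ => dg_eq_degree _ x
  rw [Fin.sum_univ_castSucc, dg_last] at h1
  simp only [dg_cast] at h1
  rw [Finset.sum_add_distrib, sum_dg G hG] at h1
  simp only [Finset.sum_ite_eq', Finset.mem_univ, if_true] at h1
  have hn : 0 < n := v.pos
  omega

end basic

theorem att : S_ATT := by
  intro n G v hG
  exact ⟨isTree G v hG, adj_cc G v, adj_lc G v, dist_cc G v hG.1, dist_lc G v hG.1, dg_cast G v,
    dg_last G v⟩

theorem tw : S_TW := by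
  intro α n G h0 h1 hn hG
  have hpos : ∀ v, 1 ≤ dg G v := by
    intro v
    rw [dg_eq_degree]
    have : Nontrivial (Fin n) := Fin.nontrivial_iff_two_le.2 hn
    exact hG.1.preconnected.degree_pos_of_nontrivial v
  have hsum := sum_dg G hG
  refine ⟨hpos, hsum, ?_, ?_⟩
  · unfold totW
    calc (n : ℝ) = ∑ v : Fin n, (1 : ℝ) := by simp
      _ ≤ ∑ v, lam α (dg G v) := by
        refine Finset.sum_le_sum fun v _ => ?_
        unfold lam
        exact Real.one_le_rpow (by exact_mod_cast hpos v) h0.le
  · unfold totW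
    calc ∑ v, lam α (dg G v) ≤ ∑ v, (dg G v : ℝ) := by
          refine Finset.sum_le_sum fun v _ => ?_
          unfold lam
          calc (dg G v : ℝ) ^ α ≤ (dg G v : ℝ) ^ (1 : ℝ) :=
                Real.rpow_le_rpow_of_exponent_le (by exact_mod_cast hpos v) h1.le
            _ = dg G v := Real.rpow_one _
      _ = ((∑ v, dg G v : ℕ) : ℝ) := by push_cast; rfl
      _ ≤ 2 * n := by
          rw [hsum]
          have : 2 * (n - 1) ≤ 2 * n := by omega
          exact_mod_cast this

end Pool.Agent.TH576.J2282
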