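import Pool.Agent.TH981.SD.Stm

set_option autoImplicit false

open Pool.Agent.TH981.SD
open Finset Set Filter
open scoped BigOperators Topology Classical

namespace Pool.Agent.TH576.J2283

/-- degrees of the old vertices of a set -/
theorem degs_map {n : ℕ} (G : SimpleGraph (Fin n)) (v : Fin n) (C : Finset (Fin n))
    (h : ∀ w : Fin n, dg (attach G v) w.castSucc = dg G w + if w = v then 1 else 0) :
    (v ∉ C → degs (attach G v) (C.map Fin.castSuccEmb) = degs G C) ∧
    (v ∈ C → degs (attach G v) (C.map Fin.castSuccEmb) =
      (dg G v + 1) ::ₘ (degs G C).erase (dg G v)) := by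
  have h1 : degs (attach G v) (C.map Fin.castSuccEmb) =
      C.val.map (fun w => dg G w + if w = v then 1 else 0) := by
    unfold degs
    rw [Finset.map_val, Multiset.map_map]
    exact Multiset.map_congr rfl fun x _ => h x
  constructor
  · intro hv
    rw [h1]
    unfold degs
    refine Multiset.map_congr rfl fun x hx => ?_
    rw [if_neg, add_zero]
    rintro rfl
    exact hv hx
  · intro hv
    have h2 : C.val = v ::ₘ (C.erase v).val := by
      rw [Finset.erase_val, Multiset.cons_erase hv]
    have h3 : (degs G C).erase (dg G v) = (C.erase v).val.map (dg G) := by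
      unfold degs
      rw [h2, Multiset.map_cons, Multiset.erase_cons_head]
    rw [h1, h3, h2, Multiset.map_cons, if_pos rfl]
    congr 1
    refine Multiset.map_congr rfl fun x hx => ?_
    rw [if_neg, add_zero]
    rintro rfl
    exact (Finset.notMem_erase x C) hx

theorem br_ (h1 : S_ATT) : S_BR := by
  intro n G v hG
  obtain ⟨hT, hcc, hlc, hdcc, hdlc, hdg, hdgl⟩ := h1 n G v hG
  have hbr : ∀ h b : Fin n, br (attach G v) h.castSucc b.castSucc =
      if v ∈ br G h b then insert (Fin.last n) ((br G h b).map Fin.castSuccEmb)
      else (br G h b).map Fin.castSuccEmb := by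
    intro h b
    have hmem : ∀ w, w ∈ br G h b ↔ G.dist w b < G.dist w h := by
      intro w
      unfold br
      simp
    have hnl : Fin.last n ∉ (br G h b).map Fin.castSuccEmb := by
      intro hh
      obtain ⟨w, _, hw⟩ := Finset.mem_map.1 hh
      exact (Fin.castSucc_lt_last w).ne hw
    ext x
    have hx : x ∈ br (attach G v) h.castSucc b.castSucc ↔
        (attach G v).dist x b.castSucc < (attach G v).dist x h.castSucc := by
      unfold br
      simp
    rw [hx]
    refine Fin.lastCases ?_ (fun w => ?_) x
    · rw [hdlc, hdlc]
      by_cases hv : v ∈ br G h b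
      · rw [if_pos hv]
        have := (hmem v).1 hv
        simp only [Finset.mem_insert, true_or, iff_true]
        omega
      · rw [if_neg hv]
        have := mt (hmem v).2 hv
        constructor
        · intro hh; omega
        · intro hh; exact absurd hh hnl
    · rw [hdcc, hdcc, ← hmem w]
      have h2 : w ∈ br G h b ↔ w.castSucc ∈ (br G h b).map Fin.castSuccEmb := by
        rw [Finset.mem_map]
        constructor
        · intro hw; exact ⟨w, hw, rfl⟩
        · rintro ⟨w', hw', he⟩
          have : w' = w := Fin.castSucc_injective _ he
          rwa [← this]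
      split_ifs
      · rw [Finset.mem_insert, h2]
        constructor
        · intro hh; exact Or.inr hh
        · rintro (hh | hh)
          · exact absurd hh (Fin.castSucc_lt_last w).ne
          · exact hh
      · exact h2
  have hnl : ∀ C : Finset (Fin n), Fin.last n ∉ C.map Fin.castSuccEmb := by
    intro C hh
    obtain ⟨w, _, hw⟩ := Finset.mem_map.1 hh
    exact (Fin.castSucc_lt_last w).ne hw
  refine ⟨?_, ?_, ?_, ?_⟩
  · intro h b _ hv
    rw [hbr, if_pos hv]
    have h2 := (degs_map G v (br G h b) hdg).2 hv
    have h3 : degs (attach G v) (insert (Fin.last n) ((br G h b).map Fin.castSuccEmb)) =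
        1 ::ₘ degs (attach G v) ((br G h b).map Fin.castSuccEmb) := by
      unfold degs
      rw [Finset.insert_val_of_notMem (hnl _), Multiset.map_cons, hdgl]
    rw [h3, h2, Multiset.cons_swap]
  · intro h b _ hv
    rw [hbr, if_neg hv]
    exact (degs_map G v (br G h b) hdg).1 hv
  · have h2 : br (attach G v) v.castSucc (Fin.last n) = {Fin.last n} := by
      ext x
      have hx : x ∈ br (attach G v) v.castSucc (Fin.last n) ↔
          (attach G v).dist x (Fin.last n) < (attach G v).dist x v.castSucc := by
        unfold br
        simp
      rw [hx, Finset.mem_singleton]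
      refine Fin.lastCases ?_ (fun w => ?_) x
      · rw [hdlc]
        simp
      · rw [SimpleGraph.dist_comm, hdlc, hdcc, SimpleGraph.dist_comm]
        constructor
        · intro hh; omega
        · intro hh; exact absurd hh (Fin.castSucc_lt_last w).ne
    rw [h2]
    unfold degs
    simp [hdgl]
  · have h2 : br (attach G v) (Fin.last n) v.castSucc = (Finset.univ).map Fin.castSuccEmb := by
      ext x
      have hx : x ∈ br (attach G v) (Fin.last n) v.castSucc ↔
          (attach G v).dist x v.castSucc < (attach G v).dist x (Fin.last n) := by
        unfold br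
        simp
      rw [hx]
      refine Fin.lastCases ?_ (fun w => ?_) x
      · rw [hdlc]
        constructor
        · intro hh
          simp at hh
        · intro hh; exact absurd hh (hnl _)
      · rw [SimpleGraph.dist_comm (u := w.castSucc) (v := Fin.last n), hdlc, hdcc,
          SimpleGraph.dist_comm (u := w) (v := v)]
        constructor
        · intro _
          exact Finset.mem_map.2 ⟨w, Finset.mem_univ _, rfl⟩
        · intro _; omega
    rw [h2]
    exact (degs_map G v Finset.univ hdg).2 (Finset.mem_univ v)

end Pool.Agent.TH576.J2283
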