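import Mathlib

/-!
# Distances in trees (tools)
-/

set_option autoImplicit false

namespace Pool.Agent.TH576.Tr

variable {V : Type*} {G : SimpleGraph V}

theorem path_eq (hG : G.IsTree) {x y : V} {p q : G.Walk x y} (hp : p.IsPath) (hq : q.IsPath) :
    p = q :=
  (hG.existsUnique_path x y).unique hp hq

theorem len_path (hG : G.IsTree) {x y : V} (p : G.Walk x y) (hp : p.IsPath) :
    p.length = G.dist x y := by
  obtain ⟨q, hq, hl⟩ := hG.1.exists_path_of_dist x y
  rw [path_eq hG hp hq, hl]

/-- an edge separates -/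
theorem sep (hG : G.IsTree) {x y h b : V} (hb : G.Adj h b) (hx : G.dist x b < G.dist x h)
    (hy : ¬ G.dist y b < G.dist y h) : G.dist x y = G.dist x h + G.dist h y := by
  classical
  obtain ⟨P0, hP0, hl0⟩ := hG.1.exists_path_of_dist x b
  have hx' : G.dist x h = G.dist x b + 1 := by
    rcases hG.dist_eq_dist_add_one_of_adj x hb with h1 | h1 <;> omega
  have hl1 : (P0.concat hb.symm).length = G.dist x h := by
    rw [SimpleGraph.Walk.length_concat, hl0, hx']
  have hP1 : (P0.concat hb.symm).IsPath :=
    SimpleGraph.Walk.isPath_of_length_eq_dist _ hl1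
  obtain ⟨P2, hP2, hl2⟩ := hG.1.exists_path_of_dist h y
  have hP : ((P0.concat hb.symm).append P2).IsPath := by
    rw [hG.2.isPath_iff_isChain, SimpleGraph.Walk.edges_append, List.isChain_append]
    refine ⟨(hG.2.isPath_iff_isChain _).1 hP1, (hG.2.isPath_iff_isChain _).1 hP2, ?_⟩
    intro e he f hf hef
    rw [SimpleGraph.Walk.edges_concat, List.concat_eq_append, List.getLast?_append] at he
    simp only [List.getLast?_singleton, Option.some_or, Option.mem_some_iff] at he
    cases P2 with
    | nil => simp at hf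
    | cons hc q =>
      rename_i c
      simp only [SimpleGraph.Walk.edges_cons, List.head?_cons, Option.mem_some_iff] at hf
      rw [← he, ← hf] at hef
      have hbc : b = c := by
        rw [Sym2.eq_swap] at hef
        rcases Sym2.eq_iff.1 hef with ⟨_, h2⟩ | ⟨h1, h2⟩
        · exact h2
        · rw [h2]; exact h1
      subst hbc
      apply hy
      have h3 : q.length = G.dist b y := len_path hG q ((SimpleGraph.Walk.cons_isPath_iff _ _).1 hP2).1
      rw [SimpleGraph.Walk.length_cons] at hl2
      rw [SimpleGraph.dist_comm (u := y) (v := b), SimpleGraph.dist_comm (u := y) (v := h)]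
      omega
  have h5 := len_path hG _ hP
  rw [SimpleGraph.Walk.length_append, hl1, hl2] at h5
  exact h5.symm

/-- the neighbour towards `x` -/
theorem nbr (hG : G.Connected) {x h : V} (hne : h ≠ x) :
    ∃ b, G.Adj h b ∧ G.dist x b + 1 = G.dist x h := by
  obtain ⟨P, hP, hl⟩ := hG.exists_path_of_dist h x
  cases P with
  | nil => exact absurd rfl hne
  | cons hc q =>
    rename_i c
    refine ⟨c, hc, ?_⟩
    rw [SimpleGraph.Walk.length_cons] at hl
    have h1 := SimpleGraph.dist_le q
    have h2 : G.dist h x ≤ G.dist c x + 1 := by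
      obtain ⟨Q, hQ⟩ := hG.exists_walk_length_eq_dist c x
      have := SimpleGraph.dist_le (SimpleGraph.Walk.cons hc Q)
      rw [SimpleGraph.Walk.length_cons, hQ] at this
      exact this
    rw [SimpleGraph.dist_comm (u := x) (v := c), SimpleGraph.dist_comm (u := x) (v := h)]
    omega

theorem nbr_uniq (hG : G.IsTree) {x h b b' : V} (hb : G.Adj h b) (hb' : G.Adj h b')
    (h1 : G.dist x b < G.dist x h) (h2 : G.dist x b' < G.dist x h) : b = b' := by
  by_contra hne
  have h3 : ¬ G.dist b' b < G.dist b' h := by
    have h4 : G.dist b' h = 1 := SimpleGraph.dist_eq_one_iff_adj.2 hb'.symm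
    rw [h4]
    intro h5
    have h6 : G.dist b' b = 0 := by omega
    exact hne ((hG.1.dist_eq_zero_iff).1 h6).symm
  have h7 := sep hG hb h1 h3
  omega

/-- a path between two vertices of a connected set stays in the set -/
theorem supp_sub (hG : G.IsTree) {I : Set V} (hI : (G.induce I).Connected) {x y : V} (hx : x ∈ I)
    (hy : y ∈ I) (p : G.Walk x y) (hp : p.IsPath) : ∀ z ∈ p.support, z ∈ I := by
  obtain ⟨q, hq, _⟩ := hI.exists_path_of_dist ⟨x, hx⟩ ⟨y, hy⟩
  have key : ∃ q' : G.Walk x y, q'.IsPath ∧ ∀ z ∈ q'.support, z ∈ I := by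
    refine ⟨q.map (SimpleGraph.Embedding.induce (G := G) I).toHom,
      hq.map (SimpleGraph.Embedding.induce (G := G) I).injective, ?_⟩
    intro z hz
    have h2 : z ∈ (q.map (SimpleGraph.Embedding.induce (G := G) I).toHom).support := hz
    rw [SimpleGraph.Walk.support_map, List.mem_map] at h2
    obtain ⟨w, _, hw⟩ := h2
    rw [← hw]
    exact w.2
  obtain ⟨q', hq', hs⟩ := key
  rw [path_eq hG hp hq']
  exact hs

/-- points of a connected set are not in a branch going out of the set -/
theorem out (hG : G.IsTree) {I : Set V} (hI : (G.induce I).Connected) {x h b : V} (hx : x ∈ I)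
    (hh : h ∈ I) (hb : G.Adj h b) (hbI : b ∉ I) : ¬ G.dist x b < G.dist x h := by
  intro h1
  apply hbI
  obtain ⟨P, hP, hl⟩ := hG.1.exists_path_of_dist x b
  have hx' : G.dist x h = G.dist x b + 1 := by
    rcases hG.dist_eq_dist_add_one_of_adj x hb with h1 | h1 <;> omega
  have hl1 : (P.concat hb.symm).length = G.dist x h := by
    rw [SimpleGraph.Walk.length_concat, hl, hx']
  have hP1 : (P.concat hb.symm).IsPath :=
    SimpleGraph.Walk.isPath_of_length_eq_dist _ hl1
  refine supp_sub hG hI hx hh _ hP1 b ?_
  exact P.support_subset_support_concat _ P.end_mem_support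

end Pool.Agent.TH576.Tr
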