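import Pool.Agent.TH981.SD.Stm
import Pool.Agent.TH576.Tr

set_option autoImplicit false

open Pool.Agent.TH981.SD
open Finset Set Filter
open scoped BigOperators Topology Classical

namespace Pool.Agent.TH576.J2284

open Pool.Agent.TH576

theorem mem_br {n : ℕ} {G : SimpleGraph (Fin n)} {h b v : Fin n} :
    v ∈ br G h b ↔ G.dist v b < G.dist v h := by
  unfold br
  simp

theorem mem_offN {n : ℕ} {G : SimpleGraph (Fin n)} {I : Finset (Fin n)} {h b : Fin n} :
    b ∈ offN G I h ↔ G.Adj h b ∧ b ∉ I := by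
  unfold offN
  simp

theorem cell : S_CELL := by
  intro n G I hG hI
  constructor
  · intro v hv
    have hne : I.Nonempty := by
      obtain ⟨x⟩ := hI.nonempty
      exact ⟨x.1, x.2⟩
    obtain ⟨h, hh, hmin⟩ := Finset.exists_min_image I (fun h => G.dist v h) hne
    have hhv : h ≠ v := by
      rintro rfl
      exact hv hh
    obtain ⟨b, hb, hb1⟩ := Tr.nbr hG.1 hhv
    have hbI : b ∉ I := by
      intro hbI
      have := hmin b hbI
      omega
    refine ⟨(h, b), ⟨hh, mem_offN.2 ⟨hb, hbI⟩, mem_br.2 (by show G.dist v b < G.dist v h; omega)⟩, ?_⟩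
    rintro ⟨h', b'⟩ ⟨h1, h2, h3⟩
    simp only at h1 h2 h3
    rw [mem_offN] at h2
    rw [mem_br] at h3
    have h4 : ¬ G.dist h' b < G.dist h' h := Tr.out hG hI h1 hh hb hbI
    have h5 : ¬ G.dist h b' < G.dist h h' := Tr.out hG hI hh h1 h2.1 h2.2
    have h6 := Tr.sep hG hb (by omega : G.dist v b < G.dist v h) h4
    have h7 := Tr.sep hG h2.1 h3 h5
    have h8 : G.dist h h' = G.dist h' h := SimpleGraph.dist_comm
    have h9 : G.dist h h' = 0 := by omega
    have h10 : h = h' := (hG.1.dist_eq_zero_iff).1 h9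
    subst h10
    have h11 : b' = b := Tr.nbr_uniq hG h2.1 hb h3 (by omega)
    rw [h11]
  · intro v hv h hh b hb
    rw [mem_offN] at hb
    rw [mem_br]
    exact Tr.out hG hI hv hh hb.1 hb.2

end Pool.Agent.TH576.J2284
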