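import Pool.Agent.TH981.SD.Stm
import Pool.Agent.TH576.Tr

set_option autoImplicit false

open Pool.Agent.TH981.SD
open Finset Set Filter
open scoped BigOperators Topology Classical

namespace Pool.Agent.TH576.J2285

open Pool.Agent.TH576

section

variable {j n : ℕ} {J : SimpleGraph (Fin j)} {G : SimpleGraph (Fin n)}
  {ψ : Fin j → Option (Fin n)}

/-- the value of a partial map on its domain -/
def val (ψ : Fin j → Option (Fin n)) (i : {i | ψ i ≠ none}) : Fin n :=
  (ψ i.1).get (Option.isSome_iff_ne_none.2 i.2)

theorem val_spec (ψ : Fin j → Option (Fin n)) (i : {i | ψ i ≠ none}) :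
    ψ i.1 = some (val ψ i) := by
  unfold val
  exact (Option.some_get _).symm

/-- the homomorphism into the target -/
def hm (h : PE J G ψ) : J.induce {i | ψ i ≠ none} →g G where
  toFun := val ψ
  map_rel' := by
    intro a b hab
    exact h.hom a.1 b.1 _ _ hab (val_spec ψ a) (val_spec ψ b)

theorem hm_inj (h : PE J G ψ) : Function.Injective (hm h) := by
  intro a b hab
  have h1 : ψ a.1 = some (val ψ a) := val_spec ψ a
  have h2 : ψ b.1 = some (val ψ a) := by
    have : val ψ b = val ψ a := hab.symm
    rw [← this]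
    exact val_spec ψ b
  exact Subtype.ext (h.inj _ _ _ h1 h2)

end

theorem img_ : S_IMG := by
  intro j n J G ψ hJ hG hψ
  refine ⟨?_, ?_, ?_⟩
  · have hmem : ∀ i : {i | ψ i ≠ none}, val ψ i ∈ ((img ψ : Finset (Fin n)) : Set (Fin n)) := by
      intro i
      unfold img
      simp only [Finset.coe_filter, Finset.mem_univ, true_and, Set.mem_ofPred_eq]
      exact ⟨i.1, val_spec ψ i⟩
    let f : J.induce {i | ψ i ≠ none} →g G.induce ((img ψ : Finset (Fin n)) : Set (Fin n)) :=
      { toFun := fun i => ⟨val ψ i, hmem i⟩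
        map_rel' := by
          intro a b hab
          exact hψ.hom a.1 b.1 _ _ hab (val_spec ψ a) (val_spec ψ b) }
    have hsurj : Function.Surjective f := by
      rintro ⟨v, hv⟩
      have hv' : v ∈ img ψ := hv
      unfold img at hv'
      obtain ⟨i, hi⟩ := (Finset.mem_filter.1 hv').2
      have hne : ψ i ≠ none := by rw [hi]; exact Option.some_ne_none v
      refine ⟨⟨i, hne⟩, ?_⟩
      apply Subtype.ext
      have h1 := val_spec ψ ⟨i, hne⟩
      change val ψ ⟨i, hne⟩ = v
      rw [hi] at h1
      exact (Option.some_injective _ h1).symm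
    exact hψ.conn.map f hsurj
  · intro i i' v v' h1 h2
    constructor
    · intro hadj
      have hi : ψ i ≠ none := by rw [h1]; exact Option.some_ne_none v
      have hi' : ψ i' ≠ none := by rw [h2]; exact Option.some_ne_none v'
      obtain ⟨q, hq, _⟩ := hψ.conn.exists_path_of_dist ⟨i, hi⟩ ⟨i', hi'⟩
      have hq' : (q.map (hm hψ)).IsPath := hq.map (hm_inj hψ)
      have h3 := Tr.len_path hG _ hq'
      rw [SimpleGraph.Walk.length_map] at h3
      have hv : hm hψ ⟨i, hi⟩ = v := by
        have := val_spec ψ ⟨i, hi⟩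
        rw [h1] at this
        exact (Option.some_injective _ this).symm
      have hv' : hm hψ ⟨i', hi'⟩ = v' := by
        have := val_spec ψ ⟨i', hi'⟩
        rw [h2] at this
        exact (Option.some_injective _ this).symm
      rw [hv, hv', SimpleGraph.dist_eq_one_iff_adj.2 hadj] at h3
      have h4 := SimpleGraph.Walk.adj_of_length_eq_one (p := q) h3
      exact h4
    · intro hadj
      exact hψ.hom i i' v v' hadj h1 h2
  · intro l hl i i' h1 h2 hi hi'
    by_contra hne
    have hlD : l ∉ {i | ψ i ≠ none} := by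
      intro h
      exact h hl
    have h3 := Tr.out hJ hψ.conn (x := i') (h := i) (b := l) hi' hi h1 hlD
    have h4 : J.dist i' l = 1 := SimpleGraph.dist_eq_one_iff_adj.2 h2
    have h5 : J.dist i' i ≠ 0 := fun h => hne ((hJ.1.dist_eq_zero_iff).1 h).symm
    have h6 : J.dist i' i = 1 := by omega
    have h7 : J.Adj i' i := SimpleGraph.dist_eq_one_iff_adj.1 h6
    have h8 := hJ.dist_ne_of_adj l h7
    apply h8
    rw [SimpleGraph.dist_eq_one_iff_adj.2 h2.symm, SimpleGraph.dist_eq_one_iff_adj.2 h1.symm]

end Pool.Agent.TH576.J2285
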