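import Pool.Agent.TH981.SD.Stm

set_option autoImplicit false

open Pool.Agent.TH981.SD
open Finset Set Filter
open scoped BigOperators Topology Classical

namespace Pool.Agent.TH576.J2292

theorem degs_erase {n : ℕ} (G : SimpleGraph (Fin n)) (v : Fin n) :
    (degs G Finset.univ).erase (dg G v) = (Finset.univ.erase v).val.map (dg G) := by
  have h2 : (Finset.univ : Finset (Fin n)).val = v ::ₘ (Finset.univ.erase v).val := by
    rw [Finset.erase_val, Multiset.cons_erase (Finset.mem_univ v)]
  unfold degs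
  rw [h2, Multiset.map_cons, Multiset.erase_cons_head]

theorem aW_univ {n : ℕ} (G : SimpleGraph (Fin n)) (Y : ℕ → ℝ → ℝ) (t : ℝ) :
    aW Y t (degs G Finset.univ) = ∏ v, Y (dg G v) t := by
  unfold aW degs
  rw [Multiset.map_map]
  rfl

theorem aW_erase {n : ℕ} (G : SimpleGraph (Fin n)) (Y : ℕ → ℝ → ℝ) (t : ℝ) (v : Fin n) :
    aW Y t ((degs G Finset.univ).erase (dg G v)) = ∏ u ∈ Finset.univ.erase v, Y (dg G u) t := by
  rw [degs_erase]
  unfold aW
  rw [Multiset.map_map]
  rfl

theorem aW_cons (Y : ℕ → ℝ → ℝ) (t : ℝ) (d : ℕ) (C : Multiset ℕ) :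
    aW Y t (d ::ₘ C) = Y d t * aW Y t C := by
  unfold aW
  rw [Multiset.map_cons, Multiset.prod_cons]

theorem prod_attach (hA : S_ATT) {n : ℕ} (G : SimpleGraph (Fin n)) (hG : G.IsTree)
    (Y : ℕ → ℝ → ℝ) (t : ℝ) (v : Fin n) :
    ∏ u, Y (dg (attach G v) u) t =
      aW Y t ((dg G v + 1) ::ₘ 1 ::ₘ (degs G Finset.univ).erase (dg G v)) := by
  obtain ⟨-, -, -, -, -, hdg, hdgl⟩ := hA n G v hG
  rw [aW_cons, aW_cons, aW_erase, Fin.prod_univ_castSucc, hdgl]
  have h1 : ∏ i : Fin n, Y (dg (attach G v) i.castSucc) t =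
      Y (dg G v + 1) t * ∏ u ∈ Finset.univ.erase v, Y (dg G u) t := by
    rw [← Finset.mul_prod_erase Finset.univ _ (Finset.mem_univ v), hdg, if_pos rfl]
    congr 1
    refine Finset.prod_congr rfl fun u hu => ?_
    rw [hdg, if_neg (Finset.ne_of_mem_erase hu), add_zero]
  rw [h1]
  ring

theorem sqrt_sub_le {a b : ℝ} (ha : 0 < a) (hb : 0 ≤ b) :
    Real.sqrt b - Real.sqrt a ≤ (b - a) / (2 * Real.sqrt a) := by
  have hs : 0 < Real.sqrt a := Real.sqrt_pos.2 ha
  rw [le_div_iff₀ (by positivity)]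
  have h1 := Real.sq_sqrt ha.le
  have h2 := Real.sq_sqrt hb
  nlinarith [sq_nonneg (Real.sqrt b - Real.sqrt a)]

/-- the elementary inequality `5 n² y^{n/2} ≤ 32 / (1-y)²` -/
theorem elem (n : ℕ) (y P R : ℝ) (hn : 2 ≤ n) (hy0 : 0 < y) (hy1 : y < 1) (hP : P ≤ y ^ n)
    (hR0 : 0 ≤ R) (hR : R ≤ 2 * n) :
    R * (R + 1) * Real.sqrt P ≤ 32 / (1 - y) ^ 2 := by
  have hn' : (2 : ℝ) ≤ n := by exact_mod_cast hn
  have h1 : R * (R + 1) ≤ 5 * (n : ℝ) ^ 2 := by nlinarith
  have h2 : Real.sqrt P ≤ Real.exp (-(n * (1 - y) / 2)) := by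
    rw [show Real.exp (-(n * (1 - y) / 2)) = Real.sqrt (Real.exp (-(n * (1 - y) / 2)) ^ 2) by
      rw [Real.sqrt_sq (Real.exp_pos _).le]]
    refine Real.sqrt_le_sqrt (hP.trans ?_)
    have h3 : y ≤ Real.exp (-(1 - y)) := by
      have := Real.add_one_le_exp (-(1 - y))
      linarith
    calc y ^ n ≤ Real.exp (-(1 - y)) ^ n := pow_le_pow_left₀ hy0.le h3 n
      _ = Real.exp (-(n * (1 - y) / 2)) ^ 2 := by
        rw [← Real.exp_nat_mul, ← Real.exp_nat_mul]
        congr 1
        push_cast
        ring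
  set x : ℝ := n * (1 - y) with hx
  have hx0 : 0 < x := by
    have : 0 < 1 - y := by linarith
    positivity
  have h4 : (1 + x / 4 + (x / 4) ^ 2 / 2) ^ 2 ≤ Real.exp (x / 2) := by
    have h5 := Real.quadratic_le_exp_of_nonneg (x := x / 4) (by positivity)
    have h6 : Real.exp (x / 2) = Real.exp (x / 4) ^ 2 := by
      rw [← Real.exp_nat_mul]
      congr 1
      push_cast
      ring
    rw [h6]
    exact pow_le_pow_left₀ (by positivity) h5 2
  have h7 : 5 * x ^ 2 ≤ 32 * Real.exp (x / 2) := by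
    have h8 : 5 * x ^ 2 ≤ 32 * (1 + x / 4 + (x / 4) ^ 2 / 2) ^ 2 := by
      have : x = 4 * (x / 4) := by ring
      set v := x / 4 with hv
      rw [this]
      have hv0 : 0 < v := by positivity
      nlinarith [sq_nonneg (v ^ 2 - 1), hv0, pow_pos hv0 3]
    linarith
  have hy' : 0 < 1 - y := by linarith
  rw [le_div_iff₀ (by positivity)]
  calc R * (R + 1) * Real.sqrt P * (1 - y) ^ 2
      ≤ 5 * (n : ℝ) ^ 2 * Real.exp (-(x / 2)) * (1 - y) ^ 2 := by
        refine mul_le_mul_of_nonneg_right ?_ (by positivity)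
        exact mul_le_mul h1 h2 (Real.sqrt_nonneg _) (by positivity)
    _ = 5 * x ^ 2 * Real.exp (-(x / 2)) := by rw [hx]; ring
    _ ≤ 32 * Real.exp (x / 2) * Real.exp (-(x / 2)) :=
        mul_le_mul_of_nonneg_right h7 (Real.exp_pos _).le
    _ = 32 := by
        rw [mul_assoc, ← Real.exp_add]
        simp

theorem dg_le {j : ℕ} (J : SimpleGraph (Fin j)) (w : Fin j) : dg J w ≤ j := by
  unfold dg
  exact (Finset.card_filter_le _ _).trans (by simp)

theorem epart (h1 : S_EXTV) (h2 : S_AB) (h3 : S_TW) (h4 : S_YF) (h5 : S_ATT) : S_EPART := by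
  intro j n α z J Kv Km g Y Gf Gf' Z Z' Eh Eh' mu kap x4 x3 a1 G hS hG hn t ht
  obtain ⟨hAB, -⟩ := h2 α z Y hS.α0 hS.α1 hS.z0 hS.z1 hS.hY
  obtain ⟨hYd, -⟩ := h4 α z Y hS.α0 hS.α1 hS.z0 hS.z1 hS.hY
  obtain ⟨hdpos, hdsum, hRn, hR2⟩ := h3 α n G hS.α0 hS.α1 hn hG
  set C := degs G Finset.univ with hC
  obtain ⟨hder, -, hPpos, -, -, hPle, -, -, -⟩ := hAB C t ht
  set P := aW Y t C with hP
  have hPf : ∀ s, aW Y s C = ∏ v, Y (dg G v) s := fun s => aW_univ G Y s
  have hs0 : 0 < Real.sqrt P := Real.sqrt_pos.2 hPpos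
  have hLop : Lop α (aW Y t) C = ∑ v, lam α (dg G v) *
      (aW Y t ((dg G v + 1) ::ₘ 1 ::ₘ C.erase (dg G v)) - P) := by
    unfold Lop
    rw [hC]
    unfold degs
    rw [Multiset.map_map]
    rfl
  refine ⟨Lop α (aW Y t) C / (2 * Real.sqrt P) * Eh t + Real.sqrt P * Eh' t, ?_, ?_⟩
  · have hd1 : HasDerivWithinAt (fun t => Real.sqrt (∏ v, Y (dg G v) t))
        (Lop α (aW Y t) C / (2 * Real.sqrt P)) (Set.Ici 0) t := by
      have := hder.sqrt hPpos.ne'
      refine this.congr_of_eventuallyEq ?_ ?_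
      · exact Filter.Eventually.of_forall fun s => by
          change Real.sqrt (∏ v, Y (dg G v) s) = Real.sqrt (aW Y s C)
          rw [hPf]
      · change Real.sqrt (∏ v, Y (dg G v) t) = Real.sqrt (aW Y t C)
        rw [hPf]
    have hd2 := hd1.mul (hS.Eder t ht)
    rw [← hPf t, ← hP] at hd2
    exact hd2
  · have hEnn := hS.Enn t ht
    -- first part
    have hfirst : ∑ v, lam α (dg G v) * (Real.sqrt (∏ u, Y (dg (attach G v) u) t) * Eh t -
        Real.sqrt (∏ u, Y (dg G u) t) * Eh t) ≤ Lop α (aW Y t) C / (2 * Real.sqrt P) * Eh t := by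
      rw [hLop, Finset.sum_div, Finset.sum_mul]
      refine Finset.sum_le_sum fun v _ => ?_
      rw [prod_attach h5 G hG Y t v, ← hPf t, ← hP, ← sub_mul, mul_div_assoc, mul_assoc]
      refine mul_le_mul_of_nonneg_left ?_ (by unfold lam; positivity)
      refine mul_le_mul_of_nonneg_right ?_ hEnn
      exact sqrt_sub_le hPpos (hAB _ t ht).2.2.1.le
    -- second part
    set R := totW α G with hR
    have hRnn : 0 ≤ R := by
      have : (0 : ℝ) ≤ n := Nat.cast_nonneg n
      linarith
    have hsecond : ∑ v, lam α (dg G v) * ∑ w, wt J (attach G v) (aW Y t) (bW α Y t) Kv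
        (fun i => Z i t) (fun i m d r => Gf i m d r t) (sing n w) ≤
        R * (R + 1) * P * ((1 + Km) * ∑ w, x3 w t * ∏ l ∈ Finset.univ.erase w, Z l t) := by
      have hw : ∀ v w, wt J (attach G v) (aW Y t) (bW α Y t) Kv
          (fun i => Z i t) (fun i m d r => Gf i m d r t) (sing n w) ≤
          (R + 1) * P * ((1 + Km) * (x3 w t * ∏ l ∈ Finset.univ.erase w, Z l t)) := by
        intro v w
        obtain ⟨-, hsing⟩ := h1 j n J G v (aW Y t) (bW α Y t) Kv (fun i => Z i t)
          (fun i m d r => Gf i m d r t) hS.hJ hG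
        rw [hsing w]
        set C' := (dg G v + 1) ::ₘ C.erase (dg G v) with hC'
        obtain ⟨-, -, hapos, hbnn, hble, -, -, -, -⟩ := hAB C' t ht
        have ha : aW Y t C' ≤ P := by
          rw [hC', aW_cons]
          have h6 : P = Y (dg G v) t * aW Y t (C.erase (dg G v)) := by
            rw [hP, ← aW_cons]
            congr 1
            refine (Multiset.cons_erase ?_).symm
            rw [hC]
            exact Multiset.mem_map_of_mem _ (Finset.mem_univ v)
          rw [h6]
          exact mul_le_mul_of_nonneg_right (hYd _ t ht) (hAB _ t ht).2.2.1.le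
        have hsumC : (C'.map (lam α)).sum ≤ R + 1 := by
          have h7 : R = (C.map (lam α)).sum := by
            rw [hR, hC]
            unfold totW degs
            rw [Multiset.map_map]
            rfl
          have h8 : (C.map (lam α)).sum = lam α (dg G v) + ((C.erase (dg G v)).map (lam α)).sum := by
            rw [← Multiset.sum_cons, ← Multiset.map_cons]
            congr 2
            refine (Multiset.cons_erase ?_).symm
            rw [hC]
            exact Multiset.mem_map_of_mem _ (Finset.mem_univ v)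
          rw [hC', Multiset.map_cons, Multiset.sum_cons, h7, h8]
          have h9 : lam α (dg G v + 1) ≤ lam α (dg G v) + 1 := by
            unfold lam
            push_cast
            have := Real.rpow_add_le_add_rpow (Nat.cast_nonneg (dg G v) : (0 : ℝ) ≤ (dg G v : ℝ))
              (zero_le_one) hS.α0.le hS.α1.le
            rwa [Real.one_rpow] at this
          linarith
        have hb : bW α Y t C' ≤ P * (R + 1) := by
          refine hble.trans ?_
          exact mul_le_mul ha hsumC (Multiset.sum_nonneg (by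
            intro x hx
            obtain ⟨d, _, rfl⟩ := Multiset.mem_map.1 hx
            unfold lam
            positivity)) hPpos.le
        obtain ⟨hx1, hx2⟩ := hS.Gx3 w (dg J w) t (dg_le J w) ht
        have hg0 := hS.Gnn w (dg J w) 1 0 t ht
        have hg1 := hS.Gnn w (dg J w) 1 1 t ht
        have hx3 : 0 ≤ x3 w t := hg0.trans hx1
        have hK0 := hS.Knn w
        have hK1 := hS.KKm w
        have hZ : 0 ≤ ∏ l ∈ Finset.univ.erase w, Z l t :=
          Finset.prod_nonneg fun l _ => hS.Znn l t ht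
        calc (aW Y t C' * Gf w (dg J w) 1 0 t + Kv w * bW α Y t C' * Gf w (dg J w) 1 1 t) *
              ∏ l ∈ Finset.univ.erase w, Z l t
            ≤ (P * x3 w t + Km * (P * (R + 1)) * x3 w t) *
              ∏ l ∈ Finset.univ.erase w, Z l t := by
              refine mul_le_mul_of_nonneg_right ?_ hZ
              refine add_le_add (mul_le_mul ha hx1 hg0 hPpos.le) ?_
              refine mul_le_mul (mul_le_mul hK1 hb hbnn (hK0.trans hK1)) hx2 hg1 ?_
              exact mul_nonneg (hK0.trans hK1) (mul_nonneg hPpos.le (by linarith))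
          _ ≤ ((R + 1) * P * (1 + Km) * x3 w t) * ∏ l ∈ Finset.univ.erase w, Z l t := by
              refine mul_le_mul_of_nonneg_right ?_ hZ
              have h10 : 0 ≤ P * x3 w t * R := mul_nonneg (mul_nonneg hPpos.le hx3) hRnn
              nlinarith
          _ = (R + 1) * P * ((1 + Km) * (x3 w t * ∏ l ∈ Finset.univ.erase w, Z l t)) := by ring
      calc ∑ v, lam α (dg G v) * ∑ w, wt J (attach G v) (aW Y t) (bW α Y t) Kv
            (fun i => Z i t) (fun i m d r => Gf i m d r t) (sing n w)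
          ≤ ∑ v, lam α (dg G v) * ((R + 1) * P *
              ((1 + Km) * ∑ w, x3 w t * ∏ l ∈ Finset.univ.erase w, Z l t)) := by
            refine Finset.sum_le_sum fun v _ => ?_
            refine mul_le_mul_of_nonneg_left ?_ (by unfold lam; positivity)
            rw [Finset.mul_sum, Finset.mul_sum]
            exact Finset.sum_le_sum fun w _ => hw v w
        _ = R * (R + 1) * P * ((1 + Km) * ∑ w, x3 w t * ∏ l ∈ Finset.univ.erase w, Z l t) := by
            rw [← Finset.sum_mul, hR]
            unfold totW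
            ring
    have hy1 : Y 1 t < 1 := lt_of_le_of_lt (hS.hY.le 1 t ht) hS.z1
    have hy0 : 0 < Y 1 t := hS.hY.pos 1 t ht
    have hCcard : Multiset.card C = n := by
      rw [hC]
      unfold degs
      simp
    have hPn : P ≤ Y 1 t ^ n := by
      have h11 := hPle (by
        intro d hd
        rw [hC] at hd
        obtain ⟨v, _, rfl⟩ := Multiset.mem_map.1 hd
        exact hdpos v)
      rwa [hCcard] at h11
    have hel := elem n (Y 1 t) P R hn hy0 hy1 hPn hRnn hR2
    have hE := hS.Eineq t ht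
    have hss : Real.sqrt P * Real.sqrt P = P := Real.mul_self_sqrt hPpos.le
    have hsumnn : 0 ≤ (1 + Km) * ∑ w, x3 w t * ∏ l ∈ Finset.univ.erase w, Z l t := by
      rcases Finset.eq_empty_or_nonempty (Finset.univ : Finset (Fin j)) with he | ⟨w0, _⟩
      · rw [he]; simp
      · refine mul_nonneg ?_ (Finset.sum_nonneg fun w _ => mul_nonneg ?_ ?_)
        · have := hS.Knn w0
          have := hS.KKm w0
          linarith
        · exact (hS.Gnn w (dg J w) 1 0 t ht).trans (hS.Gx3 w (dg J w) t (dg_le J w) ht).1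
        · exact Finset.prod_nonneg fun l _ => hS.Znn l t ht
    have hfin : R * (R + 1) * P * ((1 + Km) * ∑ w, x3 w t * ∏ l ∈ Finset.univ.erase w, Z l t) ≤
        Real.sqrt P * Eh' t := by
      calc R * (R + 1) * P * ((1 + Km) * ∑ w, x3 w t * ∏ l ∈ Finset.univ.erase w, Z l t)
          = Real.sqrt P * ((R * (R + 1) * Real.sqrt P) *
            ((1 + Km) * ∑ w, x3 w t * ∏ l ∈ Finset.univ.erase w, Z l t)) := by
            rw [← hss]
            rw [hss]
            nth_rewrite 1 [← hss]
            ring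
        _ ≤ Real.sqrt P * ((32 / (1 - Y 1 t) ^ 2) *
            ((1 + Km) * ∑ w, x3 w t * ∏ l ∈ Finset.univ.erase w, Z l t)) := by
            refine mul_le_mul_of_nonneg_left ?_ hs0.le
            exact mul_le_mul_of_nonneg_right hel hsumnn
        _ = Real.sqrt P * ((1 + Km) * (32 / (1 - Y 1 t) ^ 2) *
            ∑ w, x3 w t * ∏ l ∈ Finset.univ.erase w, Z l t) := by ring
        _ ≤ Real.sqrt P * Eh' t := mul_le_mul_of_nonneg_left hE hs0.le
    exact add_le_add hfirst (hsecond.trans hfin)

end Pool.Agent.TH576.J2292
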