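import Pool.Agent.TH981.SD.Stm

set_option autoImplicit false

open Pool.Agent.TH981.SD
open Finset Set Filter
open scoped BigOperators Topology Classical

namespace Pool.Agent.TH576.J2295

theorem hval_nonneg {n : ℕ} (O : Finset (Fin n)) {a b : Fin n → ℝ} {g : ℕ → ℝ} (r : ℕ)
    (ha : ∀ x, 0 ≤ a x) (hb : ∀ x, 0 ≤ b x) (hg : ∀ r, 0 ≤ g r) : 0 ≤ hval O a b g r := by
  unfold hval
  exact Finset.sum_nonneg fun S _ => mul_nonneg (mul_nonneg (Finset.prod_nonneg fun x _ => hb x)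
    (Finset.prod_nonneg fun x _ => ha x)) (hg _)

theorem hval_mono {n : ℕ} (O : Finset (Fin n)) {a b : Fin n → ℝ} {g g' : ℕ → ℝ} (r : ℕ)
    (ha : ∀ x, 0 ≤ a x) (hb : ∀ x, 0 ≤ b x) (hg : ∀ r, g r ≤ g' r) :
    hval O a b g r ≤ hval O a b g' r := by
  unfold hval
  exact Finset.sum_le_sum fun S _ => mul_le_mul_of_nonneg_left (hg _)
    (mul_nonneg (Finset.prod_nonneg fun x _ => hb x) (Finset.prod_nonneg fun x _ => ha x))

theorem wt_nonneg {j n : ℕ} (J : SimpleGraph (Fin j)) (G : SimpleGraph (Fin n))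
    {a b : Multiset ℕ → ℝ} {Kv Z : Fin j → ℝ} {Gf : Fin j → ℕ → ℕ → ℕ → ℝ}
    (ψ : Fin j → Option (Fin n)) (ha : ∀ C, 0 ≤ a C) (hb : ∀ C, 0 ≤ b C) (hK : ∀ i, 0 ≤ Kv i)
    (hZ : ∀ i, 0 ≤ Z i) (hG : ∀ i m d r, 0 ≤ Gf i m d r) : 0 ≤ wt J G a b Kv Z Gf ψ := by
  unfold wt
  refine Finset.prod_nonneg fun i _ => ?_
  rcases ψ i with _ | h
  · exact hZ i
  · exact hval_nonneg _ _ (fun x => ha _) (fun x => mul_nonneg (hK i) (hb _)) fun r => hG _ _ _ _

theorem wt_mono {j n : ℕ} (J : SimpleGraph (Fin j)) (G : SimpleGraph (Fin n))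
    {a b : Multiset ℕ → ℝ} {Kv Z : Fin j → ℝ} {Gf Gf' : Fin j → ℕ → ℕ → ℕ → ℝ}
    (ψ : Fin j → Option (Fin n)) (ha : ∀ C, 0 ≤ a C) (hb : ∀ C, 0 ≤ b C) (hK : ∀ i, 0 ≤ Kv i)
    (hZ : ∀ i, 0 ≤ Z i) (hG : ∀ i m d r, 0 ≤ Gf i m d r)
    (hG' : ∀ i m d r, Gf i m d r ≤ Gf' i m d r) :
    wt J G a b Kv Z Gf ψ ≤ wt J G a b Kv Z Gf' ψ := by
  unfold wt
  refine Finset.prod_le_prod (fun i _ => ?_) (fun i _ => ?_)
  · rcases ψ i with _ | h
    · exact hZ i
    · exact hval_nonneg _ _ (fun x => ha _) (fun x => mul_nonneg (hK i) (hb _)) fun r => hG _ _ _ _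
  · rcases ψ i with _ | h
    · exact le_rfl
    · exact hval_mono _ _ (fun x => ha _) (fun x => mul_nonneg (hK i) (hb _)) fun r => hG' _ _ _ _

/-- the hypotheses -/
structure Hy {j : ℕ} (α z : ℝ) (J : SimpleGraph (Fin j)) (Kv : Fin j → ℝ)
    (g : ℕ → ℝ) (Y : ℕ → ℝ → ℝ) (Δ : ℕ) (w : Fin j → ℕ → ℕ → ℝ → ℝ) : Prop where
  a0 : 0 < α
  a1 : α < 1
  z0 : 0 < z
  z1 : z < 1
  hY : IsY α z Y
  hJ : J.IsTree
  K : ∀ i, 0 ≤ Kv i
  gg : ∀ r, 0 ≤ g r
  c : ∀ i, IsCap α (Y 1) (fun t => Kv i * m1 Y t) g Δ (w i)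

section

variable {j : ℕ} {α z : ℝ} {J : SimpleGraph (Fin j)} {Kv : Fin j → ℝ}
    {g : ℕ → ℝ} {Y : ℕ → ℝ → ℝ} {Δ : ℕ} {w : Fin j → ℕ → ℕ → ℝ → ℝ}

/-- the weight -/
noncomputable def W (α : ℝ) (J : SimpleGraph (Fin j)) (Kv : Fin j → ℝ) (Y : ℕ → ℝ → ℝ)
    (w : Fin j → ℕ → ℕ → ℝ → ℝ) {n : ℕ} (G : SimpleGraph (Fin n)) (ψ : Fin j → Option (Fin n))
    (t : ℝ) : ℝ :=
  wt J G (aW Y t) (bW α Y t) Kv (fun _ => 0) (fun i _ d r => w i d r t) ψ

theorem W_nonneg (H : Hy α z J Kv g Y Δ w) (h3 : S_AB) {n : ℕ} (G : SimpleGraph (Fin n))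
    (ψ : Fin j → Option (Fin n)) {t : ℝ} (ht : 0 ≤ t) : 0 ≤ W α J Kv Y w G ψ t := by
  obtain ⟨hAB, -⟩ := h3 α z Y H.a0 H.a1 H.z0 H.z1 H.hY
  unfold W
  exact wt_nonneg J G ψ (fun C => (hAB C t ht).2.2.1.le) (fun C => (hAB C t ht).2.2.2.1) H.K
    (fun _ => le_rfl) (fun i m d r => (H.c i).nonneg d r t ht)

theorem W_deriv (H : Hy α z J Kv g Y Δ w) (h1 : S_EVOL) (h3 : S_AB) {n : ℕ}
    {G : SimpleGraph (Fin n)} (hG : G.IsTree) (hn : 2 ≤ n) {ψ : Fin j → Option (Fin n)}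
    (hψ : PE J G ψ) {t : ℝ} (ht : 0 ≤ t) :
    HasDerivWithinAt (W α J Kv Y w G ψ) (∑ v, lam α (dg G v) *
      (W α J Kv Y w (attach G v) (liftψ ψ) t - W α J Kv Y w G ψ t)) (Set.Ici 0) t := by
  obtain ⟨hAB, -⟩ := h3 α z Y H.a0 H.a1 H.z0 H.z1 H.hY
  have hder : ∀ i (m : ℕ) d r, HasDerivWithinAt (w i d r)
      (lam α d * (Y 1 t * w i (d + 1) r t + Kv i * m1 Y t * w i (d + 1) (r + 1) t - w i d r t))
      (Set.Ici 0) t := by
    intro i m d r
    by_cases hd : d ≤ Δ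
    · exact (H.c i).deriv d r t ht hd
    · have hd' : Δ < d := by omega
      have h0 : w i d r = fun _ => (0 : ℝ) := by
        funext s
        exact (H.c i).zero d r s hd'
      rw [(H.c i).zero (d + 1) r t (by omega), (H.c i).zero (d + 1) (r + 1) t (by omega),
        (H.c i).zero d r t hd', h0]
      simpa using hasDerivWithinAt_const t (Set.Ici 0) (0 : ℝ)
  have hev := h1 α j n J G ψ (fun t => aW Y t) (fun t => bW α Y t) Kv (fun _ _ => 0) (fun _ => 0)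
    (fun i _ d r => w i d r) (fun i _ d r => lam α d * (Y 1 t * w i (d + 1) r t +
      Kv i * m1 Y t * w i (d + 1) (r + 1) t - w i d r t)) (Set.Ici 0) t H.hJ hG hn hψ
    (fun C => (hAB C t ht).1) (fun C => (hAB C t ht).2.1)
    (fun _ => hasDerivWithinAt_const t (Set.Ici 0) (0 : ℝ)) hder
  have hz : ∀ i, dfac α J G (aW Y t) (bW α Y t) Kv (fun _ => 0) (fun i _ d r => w i d r t)
      (fun i _ d r => lam α d * (Y 1 t * w i (d + 1) r t +
      Kv i * m1 Y t * w i (d + 1) (r + 1) t - w i d r t)) ψ i = 0 := by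
    intro i
    unfold dfac
    rcases ψ i with _ | h
    · rfl
    · simp only
      unfold hubf hval
      have ha1 : aW Y t {1} = Y 1 t := (hAB {1} t ht).2.2.2.2.2.2.2.1
      have hb1 : bW α Y t {1} = m1 Y t := (hAB {1} t ht).2.2.2.2.2.2.2.2
      refine Finset.sum_eq_zero fun S _ => ?_
      rw [ha1, hb1]
      ring
  have hsum : ∑ i, dfac α J G (aW Y t) (bW α Y t) Kv (fun _ => 0) (fun i _ d r => w i d r t)
      (fun i _ d r => lam α d * (Y 1 t * w i (d + 1) r t +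
      Kv i * m1 Y t * w i (d + 1) (r + 1) t - w i d r t)) ψ i *
      ∏ i' ∈ Finset.univ.erase i, fac J G (aW Y t) (bW α Y t) Kv (fun _ => 0)
        (fun i _ d r => w i d r t) ψ i' = 0 :=
    Finset.sum_eq_zero fun i _ => by rw [hz i, zero_mul]
  rw [hsum, add_zero] at hev
  exact hev

theorem F_eq {n : ℕ} (G : SimpleGraph (Fin n)) (t : ℝ) :
    Fcap α J Kv Y w G t = ∑ ψ ∈ TEs J G, W α J Kv Y w G ψ t := rfl

theorem TEs_PE {n : ℕ} {G : SimpleGraph (Fin n)} {ψ : Fin j → Option (Fin n)}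
    (h : ψ ∈ TEs J G) : PE J G ψ := by
  unfold TEs at h
  exact (Finset.mem_filter.1 h).2.1

theorem F_deriv (H : Hy α z J Kv g Y Δ w) (h1 : S_EVOL) (h3 : S_AB) {n : ℕ}
    {G : SimpleGraph (Fin n)} (hG : G.IsTree) (hn : 2 ≤ n) {t : ℝ} (ht : 0 ≤ t) :
    HasDerivWithinAt (fun t => Fcap α J Kv Y w G t) (∑ ψ ∈ TEs J G, ∑ v, lam α (dg G v) *
      (W α J Kv Y w (attach G v) (liftψ ψ) t - W α J Kv Y w G ψ t)) (Set.Ici 0) t := by
  have := HasDerivWithinAt.fun_sum (u := TEs J G) (A := fun ψ t => W α J Kv Y w G ψ t)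
    (fun ψ hψ => W_deriv H h1 h3 hG hn (TEs_PE hψ) ht)
  exact this

theorem W_cont (H : Hy α z J Kv g Y Δ w) (h1 : S_EVOL) (h3 : S_AB) {n : ℕ}
    {G : SimpleGraph (Fin n)} (hG : G.IsTree) (hn : 2 ≤ n) {ψ : Fin j → Option (Fin n)}
    (hψ : PE J G ψ) : ContinuousOn (W α J Kv Y w G ψ) (Set.Ici 0) := fun _ ht =>
  (W_deriv H h1 h3 hG hn hψ ht).continuousWithinAt

theorem F_cont (H : Hy α z J Kv g Y Δ w) (h1 : S_EVOL) (h3 : S_AB) {n : ℕ}
    {G : SimpleGraph (Fin n)} (hG : G.IsTree) (hn : 2 ≤ n) :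
    ContinuousOn (fun t => Fcap α J Kv Y w G t) (Set.Ici 0) := fun _ ht =>
  (F_deriv H h1 h3 hG hn ht).continuousWithinAt

theorem F_nonneg (H : Hy α z J Kv g Y Δ w) (h3 : S_AB) {n : ℕ}
    (G : SimpleGraph (Fin n)) {t : ℝ} (ht : 0 ≤ t) : 0 ≤ Fcap α J Kv Y w G t := by
  rw [F_eq]
  exact Finset.sum_nonneg fun ψ _ => W_nonneg H h3 G ψ ht

theorem F_zero (H : Hy α z J Kv g Y Δ w) (h3 : S_AB) {n : ℕ} (G : SimpleGraph (Fin n)) :
    Fcap α J Kv Y w G 0 ≤ fz α z J Kv g n G := by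
  obtain ⟨hAB, h0⟩ := h3 α z Y H.a0 H.a1 H.z0 H.z1 H.hY
  rw [F_eq]
  unfold fz
  refine Finset.sum_le_sum fun ψ _ => ?_
  unfold W
  have ha : aW Y 0 = fun C => z ^ (Multiset.card C) := by
    funext C
    exact (h0 C).1
  have hb : bW α Y 0 = fun C => z ^ (Multiset.card C) *
      ((C.map (fun d => lam α d * (1 - z))).sum) := by
    funext C
    exact (h0 C).2
  have hann := fun C => (hAB C 0 le_rfl).2.2.1.le
  have hbnn := fun C => (hAB C 0 le_rfl).2.2.2.1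
  rw [ha] at hann
  rw [hb] at hbnn
  rw [ha, hb]
  refine wt_mono J G ψ hann hbnn H.K (fun _ => le_rfl)
    (fun i m d r => (H.c i).nonneg d r 0 le_rfl) ?_
  intro i m d r
  by_cases hd : d ≤ Δ
  · exact ((H.c i).init d r hd).le
  · have h1 : w i d r 0 = 0 := (H.c i).zero d r 0 (by omega)
    rw [h1]
    exact H.gg r

theorem lift_inj {n : ℕ} : Function.Injective
    (liftψ : (Fin j → Option (Fin n)) → (Fin j → Option (Fin (n + 1)))) := by
  intro ψ φ h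
  funext i
  have h1 : liftψ ψ i = liftψ φ i := by rw [h]
  unfold liftψ at h1
  exact Option.map_injective (Fin.castSucc_injective n) h1

theorem F_step (H : Hy α z J Kv g Y Δ w) (h2 : S_EXT) (h3 : S_AB) {n : ℕ}
    {G : SimpleGraph (Fin n)} (hG : G.IsTree) (v : Fin n) {t : ℝ} (ht : 0 ≤ t) :
    ∑ ψ ∈ TEs J G, W α J Kv Y w (attach G v) (liftψ ψ) t ≤ Fcap α J Kv Y w (attach G v) t := by
  rw [F_eq]
  obtain ⟨-, hl⟩ := h2 j n J G v (fun _ => 0) H.hJ hG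
  have h4 : ∑ ψ ∈ TEs J G, W α J Kv Y w (attach G v) (liftψ ψ) t =
      ∑ φ ∈ (TEs J G).image liftψ, W α J Kv Y w (attach G v) φ t := by
    rw [Finset.sum_image]
    intro a _ b _ h
    exact lift_inj h
  rw [h4]
  refine Finset.sum_le_sum_of_subset_of_nonneg ?_ fun φ _ _ => W_nonneg H h3 _ φ ht
  intro φ hφ
  obtain ⟨ψ, hψ, rfl⟩ := Finset.mem_image.1 hφ
  exact hl ψ hψ

theorem integ (H : Hy α z J Kv g Y Δ w) (h1 : S_EVOL) (h2 : S_EXT) (h3 : S_AB) (h4 : S_TW)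
    (h5 : S_ATT) {n : ℕ} {G : SimpleGraph (Fin n)} (hG : G.IsTree) (hn : 2 ≤ n) {τ : ℝ}
    (hτ : 0 ≤ τ) :
    ∫ t in (0:ℝ)..τ, Fcap α J Kv Y w G t ≤ fR α z J Kv g n G +
      ∑ v, (lam α (dg G v) / totW α G) * ∫ t in (0:ℝ)..τ, Fcap α J Kv Y w (attach G v) t := by
  have hsub : Set.Icc 0 τ ⊆ Set.Ici (0:ℝ) := fun x hx => hx.1
  have huI : Set.uIcc 0 τ = Set.Icc 0 τ := Set.uIcc_of_le hτ
  have hTv : ∀ v, (attach G v).IsTree := fun v => (h5 n G v hG).1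
  have hFi : ∀ v, IntervalIntegrable (fun t => Fcap α J Kv Y w (attach G v) t)
      MeasureTheory.volume 0 τ := fun v =>
    ((F_cont H h1 h3 (hTv v) (by omega)).mono (by rw [huI]; exact hsub)).intervalIntegrable
  have hGi : IntervalIntegrable (fun t => Fcap α J Kv Y w G t) MeasureTheory.volume 0 τ :=
    ((F_cont H h1 h3 hG hn).mono (by rw [huI]; exact hsub)).intervalIntegrable
  have hl : ∀ v, ∀ ψ ∈ TEs J G, liftψ ψ ∈ TEs J (attach G v) := fun v =>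
    (h2 j n J G v (fun _ => 0) H.hJ hG).2
  have hDc : ContinuousOn (fun t => ∑ ψ ∈ TEs J G, ∑ v, lam α (dg G v) *
      (W α J Kv Y w (attach G v) (liftψ ψ) t - W α J Kv Y w G ψ t)) (Set.Ici 0) := by
    refine continuousOn_finsetSum _ fun ψ hψ => ?_
    refine continuousOn_finsetSum _ fun v _ => ?_
    refine ContinuousOn.mul continuousOn_const (ContinuousOn.sub ?_ ?_)
    · exact W_cont H h1 h3 (hTv v) (by omega) (TEs_PE (hl v ψ hψ))
    · exact W_cont H h1 h3 hG hn (TEs_PE hψ)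
  have hDi : IntervalIntegrable (fun t => ∑ ψ ∈ TEs J G, ∑ v, lam α (dg G v) *
      (W α J Kv Y w (attach G v) (liftψ ψ) t - W α J Kv Y w G ψ t))
      MeasureTheory.volume 0 τ :=
    (hDc.mono (by rw [huI]; exact hsub)).intervalIntegrable
  have hftc := intervalIntegral.integral_eq_sub_of_hasDeriv_right_of_le hτ
    ((F_cont H h1 h3 hG hn).mono hsub) (fun x hx => ((F_deriv H h1 h3 hG hn hx.1.le).mono
      (fun y hy => (hx.1.trans hy).le))) hDi
  have hle : ∫ t in (0:ℝ)..τ, ∑ ψ ∈ TEs J G, ∑ v, lam α (dg G v) *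
      (W α J Kv Y w (attach G v) (liftψ ψ) t - W α J Kv Y w G ψ t) ≤
      ∫ t in (0:ℝ)..τ, ∑ v, lam α (dg G v) *
        (Fcap α J Kv Y w (attach G v) t - Fcap α J Kv Y w G t) := by
    refine intervalIntegral.integral_mono_on hτ hDi ?_ ?_
    · refine ContinuousOn.intervalIntegrable ?_
      rw [huI]
      refine continuousOn_finsetSum _ fun v _ => ?_
      refine ContinuousOn.mul continuousOn_const (ContinuousOn.sub ?_ ?_)
      · exact (F_cont H h1 h3 (hTv v) (by omega)).mono hsub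
      · exact (F_cont H h1 h3 hG hn).mono hsub
    · intro t ht
      rw [Finset.sum_comm]
      refine Finset.sum_le_sum fun v _ => ?_
      rw [← Finset.mul_sum, Finset.sum_sub_distrib]
      refine mul_le_mul_of_nonneg_left ?_ (by unfold lam; positivity)
      exact sub_le_sub (F_step H h2 h3 hG v ht.1) (by rw [F_eq])
  have hint : ∫ t in (0:ℝ)..τ, ∑ v, lam α (dg G v) *
        (Fcap α J Kv Y w (attach G v) t - Fcap α J Kv Y w G t) =
      ∑ v, lam α (dg G v) * ((∫ t in (0:ℝ)..τ, Fcap α J Kv Y w (attach G v) t) -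
        ∫ t in (0:ℝ)..τ, Fcap α J Kv Y w G t) := by
    rw [intervalIntegral.integral_finsetSum]
    · refine Finset.sum_congr rfl fun v _ => ?_
      rw [intervalIntegral.integral_const_mul, intervalIntegral.integral_sub (hFi v) hGi]
    · intro v _
      exact ((hFi v).sub hGi).const_mul _
  have h0 := F_zero H h3 G
  have hτn := F_nonneg H h3 G hτ
  have hRpos : 0 < totW α G := by
    have h6 := (h4 α n G H.a0 H.a1 hn hG).2.2.1
    have : (2 : ℝ) ≤ n := by exact_mod_cast hn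
    linarith
  have hkey : totW α G * ∫ t in (0:ℝ)..τ, Fcap α J Kv Y w G t ≤ fz α z J Kv g n G +
      ∑ v, lam α (dg G v) * ∫ t in (0:ℝ)..τ, Fcap α J Kv Y w (attach G v) t := by
    rw [hint] at hle
    rw [hftc] at hle
    simp only [mul_sub] at hle
    rw [Finset.sum_sub_distrib, ← Finset.sum_mul] at hle
    change _ ≤ _ - totW α G * _ at hle
    linarith
  unfold fR
  have h7 : ∑ v, (lam α (dg G v) / totW α G) * ∫ t in (0:ℝ)..τ, Fcap α J Kv Y w (attach G v) t =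
      (∑ v, lam α (dg G v) * ∫ t in (0:ℝ)..τ, Fcap α J Kv Y w (attach G v) t) / totW α G := by
    rw [Finset.sum_div]
    exact Finset.sum_congr rfl fun v _ => by ring
  rw [h7, ← add_div, le_div_iff₀ hRpos, mul_comm]
  exact hkey

theorem psum_succ (α : ℝ) (f : (n : ℕ) → SimpleGraph (Fin n) → ℝ) (m n : ℕ)
    (G : SimpleGraph (Fin n)) : psum α f (m + 1) n G = f n G +
      ∑ v, (lam α (dg G v) / totW α G) * psum α f m (n + 1) (attach G v) := by
  unfold psum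
  rw [Finset.sum_range_succ']
  have h1 : ∀ i, pexp α f (i + 1) n G =
      ∑ v, (lam α (dg G v) / totW α G) * pexp α f i (n + 1) (attach G v) := fun i => rfl
  have h2 : pexp α f 0 n G = f n G := rfl
  rw [h2, add_comm]
  congr 1
  simp only [h1]
  rw [Finset.sum_comm]
  exact Finset.sum_congr rfl fun v _ => (Finset.mul_sum _ _ _).symm

theorem main (H : Hy α z J Kv g Y Δ w) (h1 : S_EVOL) (h2 : S_EXT) (h3 : S_AB) (h4 : S_TW)
    (h5 : S_ATT) {τ : ℝ} (hτ : 0 ≤ τ) (m : ℕ) :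
    ∀ (n : ℕ) (G : SimpleGraph (Fin n)), G.IsTree → 2 ≤ n →
    ∫ t in (0:ℝ)..τ, Fcap α J Kv Y w G t ≤ psum α (fR α z J Kv g) m n G +
      pexp α (fun _ G' => ∫ t in (0:ℝ)..τ, Fcap α J Kv Y w G' t) m n G := by
  induction m with
  | zero =>
    intro n G hG hn
    have h6 : psum α (fR α z J Kv g) 0 n G = 0 := by
      unfold psum
      simp
    rw [h6, zero_add]
    exact le_rfl
  | succ m ih =>
    intro n G hG hn
    have h6 := integ H h1 h2 h3 h4 h5 hG hn hτ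
    rw [psum_succ]
    have h7 : pexp α (fun _ G' => ∫ t in (0:ℝ)..τ, Fcap α J Kv Y w G' t) (m + 1) n G =
      ∑ v, (lam α (dg G v) / totW α G) *
        pexp α (fun _ G' => ∫ t in (0:ℝ)..τ, Fcap α J Kv Y w G' t) m (n + 1) (attach G v) := rfl
    rw [h7, add_assoc, ← Finset.sum_add_distrib]
    refine h6.trans (add_le_add le_rfl (Finset.sum_le_sum fun v _ => ?_))
    rw [← mul_add]
    refine mul_le_mul_of_nonneg_left (ih (n + 1) (attach G v) (h5 n G v hG).1 (by omega)) ?_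
    unfold totW lam
    exact div_nonneg (by positivity) (Finset.sum_nonneg fun w _ => by positivity)

end

theorem lb1 (h1 : S_EVOL) (h2 : S_EXT) (h3 : S_AB) (h4 : S_TW) (h5 : S_ATT) (_h6 : S_YF) :
    S_LB1 := by
  intro j n α z J Kv g Y Δ w G a0 a1 z0 z1 hY hJ hK hg hc hG hn
  have H : Hy α z J Kv g Y Δ w := ⟨a0, a1, z0, z1, hY, hJ, hK, hg, hc⟩
  exact ⟨F_cont H h1 h3 hG hn, fun t ht => F_nonneg H h3 G ht,
    fun τ hτ m => main H h1 h2 h3 h4 h5 hτ m n G hG hn⟩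

end Pool.Agent.TH576.J2295
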