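import Pool.Agent.TH981.SD.Stm

set_option autoImplicit false

open Pool.Agent.TH981.SD
open Finset Set Filter
open scoped BigOperators Topology Classical

namespace Pool.Agent.TH576.J2301

theorem pexp_zero (α : ℝ) (f : (n : ℕ) → SimpleGraph (Fin n) → ℝ) (n : ℕ)
    (G : SimpleGraph (Fin n)) : pexp α f 0 n G = f n G := rfl

theorem pexp_succ (α : ℝ) (f : (n : ℕ) → SimpleGraph (Fin n) → ℝ) (m n : ℕ)
    (G : SimpleGraph (Fin n)) : pexp α f (m + 1) n G =
      ∑ v, (lam α (dg G v) / totW α G) * pexp α f m (n + 1) (attach G v) := rfl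

theorem pexp_add (α : ℝ) (f : (n : ℕ) → SimpleGraph (Fin n) → ℝ) (m' m : ℕ) :
    ∀ (n : ℕ) (G : SimpleGraph (Fin n)),
    pexp α f (m + m') n G = pexp α (fun n' G' => pexp α f m' n' G') m n G := by
  induction m with
  | zero =>
    intro n G
    rw [pexp_zero, Nat.zero_add]
  | succ m ih =>
    intro n G
    have h : m + 1 + m' = (m + m') + 1 := by omega
    rw [h, pexp_succ, pexp_succ]
    exact Finset.sum_congr rfl fun v _ => by rw [ih]

theorem pexp_mono (α : ℝ) (hA : S_ATT)
    (f g : (n : ℕ) → SimpleGraph (Fin n) → ℝ) (m : ℕ) :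
    ∀ (n : ℕ) (G : SimpleGraph (Fin n)), G.IsTree → 2 ≤ n →
    (∀ n' (G' : SimpleGraph (Fin n')), G'.IsTree → 2 ≤ n' → n' = n + m → f n' G' ≤ g n' G') →
    pexp α f m n G ≤ pexp α g m n G := by
  induction m with
  | zero =>
    intro n G hG hn h
    exact h n G hG hn rfl
  | succ m ih =>
    intro n G hG hn h
    rw [pexp_succ, pexp_succ]
    refine Finset.sum_le_sum fun v _ => ?_
    refine mul_le_mul_of_nonneg_left ?_ ?_
    · refine ih (n + 1) (attach G v) (hA n G v hG).1 (by omega) ?_
      intro n' G' hG' hn' he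
      exact h n' G' hG' hn' (by omega)
    · unfold totW lam
      exact div_nonneg (by positivity) (Finset.sum_nonneg fun w _ => by positivity)

theorem totW_pos (α : ℝ) (h0 : 0 < α) (h1 : α < 1) (hT : S_TW) (n : ℕ) (G : SimpleGraph (Fin n))
    (hG : G.IsTree) (hn : 2 ≤ n) : 0 < totW α G := by
  have h := (hT α n G h0 h1 hn hG).2.2.1
  have : (2 : ℝ) ≤ n := by exact_mod_cast hn
  linarith

theorem pexp_const (α : ℝ) (h0 : 0 < α) (h1 : α < 1) (hA : S_ATT) (hT : S_TW) (c : ℝ) (m : ℕ) :
    ∀ (n : ℕ) (G : SimpleGraph (Fin n)), G.IsTree → 2 ≤ n → pexp α (fun _ _ => c) m n G = c := by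
  induction m with
  | zero =>
    intro n G hG hn
    rfl
  | succ m ih =>
    intro n G hG hn
    rw [pexp_succ]
    have h : ∀ v, pexp α (fun _ _ => c) m (n + 1) (attach G v) = c := fun v =>
      ih (n + 1) (attach G v) (hA n G v hG).1 (by omega)
    simp only [h]
    rw [← Finset.sum_mul, ← Finset.sum_div]
    have h2 : totW α G / totW α G = 1 := div_self (totW_pos α h0 h1 hT n G hG hn).ne'
    change totW α G / totW α G * c = c
    rw [h2, one_mul]

theorem pexp_lin (α : ℝ) (f g : (n : ℕ) → SimpleGraph (Fin n) → ℝ) (c : ℝ) (m : ℕ) :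
    ∀ (n : ℕ) (G : SimpleGraph (Fin n)),
    pexp α (fun n' G' => f n' G' + c * g n' G') m n G = pexp α f m n G + c * pexp α g m n G := by
  induction m with
  | zero =>
    intro n G
    rfl
  | succ m ih =>
    intro n G
    rw [pexp_succ, pexp_succ, pexp_succ, Finset.mul_sum, ← Finset.sum_add_distrib]
    refine Finset.sum_congr rfl fun v _ => ?_
    rw [ih]
    ring

theorem dg_iso {n : ℕ} {G H : SimpleGraph (Fin n)} (e : G ≃g H) (v : Fin n) :
    dg H (e v) = dg G v := by
  unfold dg
  symm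
  refine Finset.card_bij (fun w _ => e w) ?_ ?_ ?_
  · intro w hw
    rw [Finset.mem_filter] at hw ⊢
    exact ⟨Finset.mem_univ _, (e.map_adj_iff).2 hw.2⟩
  · intro a _ b _ h
    exact e.injective h
  · intro b hb
    rw [Finset.mem_filter] at hb
    refine ⟨e.symm b, ?_, by simp⟩
    rw [Finset.mem_filter]
    refine ⟨Finset.mem_univ _, ?_⟩
    rw [← e.map_adj_iff]
    simpa using hb.2

theorem totW_iso (α : ℝ) {n : ℕ} {G H : SimpleGraph (Fin n)} (e : G ≃g H) :
    totW α H = totW α G := by
  unfold totW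
  rw [← Equiv.sum_comp e.toEquiv]
  refine Finset.sum_congr rfl fun v _ => ?_
  have := dg_iso e v
  change lam α (dg H (e v)) = _
  rw [this]

/-- extension of a permutation by the last point -/
def ext {n : ℕ} (e : Fin n ≃ Fin n) : Fin (n + 1) ≃ Fin (n + 1) :=
  (finSuccEquivLast).trans ((Equiv.optionCongr e).trans (finSuccEquivLast).symm)

theorem ext_cast {n : ℕ} (e : Fin n ≃ Fin n) (x : Fin n) : ext e x.castSucc = (e x).castSucc := by
  simp [ext]

theorem ext_last {n : ℕ} (e : Fin n ≃ Fin n) : ext e (Fin.last n) = Fin.last n := by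
  simp [ext]

theorem attach_map {n : ℕ} {G H : SimpleGraph (Fin n)} (e : G ≃g H) (v : Fin n)
    {a b : Fin (n + 1)} (h : (attach G v).Adj a b) :
    (attach H (e v)).Adj (ext e.toEquiv a) (ext e.toEquiv b) := by
  rcases h with ⟨i, j, h1, h2, h3⟩ | ⟨h1, h2⟩ | ⟨h1, h2⟩
  · subst h1; subst h2
    rw [ext_cast, ext_cast]
    exact Or.inl ⟨_, _, rfl, rfl, (e.map_adj_iff).2 h3⟩
  · subst h1; subst h2
    rw [ext_cast, ext_last]
    exact Or.inr (Or.inl ⟨rfl, rfl⟩)
  · subst h1; subst h2
    rw [ext_cast, ext_last]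
    exact Or.inr (Or.inr ⟨rfl, rfl⟩)

theorem ext_symm {n : ℕ} (e : Fin n ≃ Fin n) : ext e.symm = (ext e).symm := by
  ext x
  simp [ext]

/-- isomorphic trees with corresponding attachments -/
def attachIso {n : ℕ} {G H : SimpleGraph (Fin n)} (e : G ≃g H) (v : Fin n) :
    attach G v ≃g attach H (e v) where
  toEquiv := ext e.toEquiv
  map_rel_iff' := by
    intro a b
    constructor
    · intro h
      have h1 := attach_map e.symm (e v) h
      have h2 : e.symm (e v) = v := by simp
      have h3 : ∀ x, ext e.symm.toEquiv (ext e.toEquiv x) = x := by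
        intro x
        have : ext e.symm.toEquiv = (ext e.toEquiv).symm := ext_symm e.toEquiv
        rw [this]
        simp
      rw [h2, h3, h3] at h1
      exact h1
    · intro h
      exact attach_map e v h

theorem pexp_iso (α : ℝ) (f : (n : ℕ) → SimpleGraph (Fin n) → ℝ) (hf : IsoInv f) (m : ℕ) :
    IsoInv (fun n G => pexp α f m n G) := by
  induction m with
  | zero => exact hf
  | succ m ih =>
    rintro n G H ⟨e⟩
    change pexp α f (m + 1) n G = pexp α f (m + 1) n H
    rw [pexp_succ, pexp_succ, ← Equiv.sum_comp e.toEquiv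
      (fun v => lam α (dg H v) / totW α H * pexp α f m (n + 1) (attach H v))]
    refine Finset.sum_congr rfl fun v _ => ?_
    have h1 := dg_iso e v
    have h2 : pexp α f m (n + 1) (attach G v) = pexp α f m (n + 1) (attach H (e v)) :=
      ih (n + 1) _ _ ⟨attachIso e v⟩
    change _ = lam α (dg H (e v)) / totW α H * pexp α f m (n + 1) (attach H (e v))
    rw [h1, totW_iso α e, h2]

theorem pe (h1 : S_ATT) (h2 : S_TW) : S_PE := by
  intro α h0 h1'
  exact ⟨fun f m m' n G => pexp_add α f m' m n G,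
    fun f g m n G hG hn h => pexp_mono α h1 f g m n G hG hn h,
    fun c m n G hG hn => pexp_const α h0 h1' h1 h2 c m n G hG hn,
    fun f g c m n G => pexp_lin α f g c m n G,
    fun f m hf => pexp_iso α f hf m⟩

end Pool.Agent.TH576.J2301
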