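import Pool.Agent.TH981.SD.Stm

set_option autoImplicit false

open Pool.Agent.TH981.SD
open Finset Set Filter
open scoped BigOperators Topology Classical

namespace Pool.Agent.TH576.J2302

theorem edist_le {n : ℕ} {G H : SimpleGraph (Fin n)} (e : G ≃g H) (a b : Fin n) :
    H.edist (e a) (e b) ≤ G.edist a b := by
  unfold SimpleGraph.edist
  refine le_iInf fun w => ?_
  refine iInf_le_of_le (w.map e.toHom) ?_
  rw [SimpleGraph.Walk.length_map]

theorem dist_iso {n : ℕ} {G H : SimpleGraph (Fin n)} (e : G ≃g H) (a b : Fin n) :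
    H.dist (e a) (e b) = G.dist a b := by
  unfold SimpleGraph.dist
  congr 1
  apply le_antisymm (edist_le e a b)
  have h := edist_le e.symm (e a) (e b)
  simpa using h

theorem dg_iso {n : ℕ} {G H : SimpleGraph (Fin n)} (e : G ≃g H) (v : Fin n) :
    dg H (e v) = dg G v := by
  unfold dg
  symm
  refine Finset.card_bij (fun w _ => e w) ?_ ?_ ?_
  · intro w hw
    rw [Finset.mem_filter] at hw ⊢
    exact ⟨Finset.mem_univ _, (e.map_adj_iff).2 hw.2⟩
  · intro a _ b _ h
    exact e.injective h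
  · intro b hb
    rw [Finset.mem_filter] at hb
    refine ⟨e.symm b, ?_, by simp⟩
    rw [Finset.mem_filter]
    refine ⟨Finset.mem_univ _, ?_⟩
    rw [← e.map_adj_iff]
    simpa using hb.2

theorem totW_iso (α : ℝ) {n : ℕ} {G H : SimpleGraph (Fin n)} (e : G ≃g H) :
    totW α H = totW α G := by
  unfold totW
  rw [← Equiv.sum_comp e.toEquiv]
  refine Finset.sum_congr rfl fun v _ => ?_
  have := dg_iso e v
  change lam α (dg H (e v)) = _
  rw [this]

variable {j n : ℕ} {J : SimpleGraph (Fin j)} {G H : SimpleGraph (Fin n)}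

/-- transport of a partial map -/
def tr (e : G ≃g H) (ψ : Fin j → Option (Fin n)) : Fin j → Option (Fin n) :=
  fun i => (ψ i).map e

theorem tr_some (e : G ≃g H) (ψ : Fin j → Option (Fin n)) (i : Fin j) (v : Fin n) :
    tr e ψ i = some v ↔ ψ i = some (e.symm v) := by
  unfold tr
  rw [Option.map_eq_some_iff]
  constructor
  · rintro ⟨a, h1, h2⟩
    rw [h1, ← h2]
    simp
  · intro h
    exact ⟨_, h, by simp⟩

theorem tr_none (e : G ≃g H) (ψ : Fin j → Option (Fin n)) (i : Fin j) :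
    tr e ψ i = none ↔ ψ i = none := by
  unfold tr
  exact Option.map_eq_none_iff

theorem tr_symm (e : G ≃g H) (ψ : Fin j → Option (Fin n)) : tr e.symm (tr e ψ) = ψ := by
  funext i
  unfold tr
  rw [Option.map_map]
  have : (e.symm ∘ e : Fin n → Fin n) = id := by
    funext x; simp
  rw [this, Option.map_id, id]

theorem pe_tr (e : G ≃g H) {ψ : Fin j → Option (Fin n)} (h : PE J G ψ) : PE J H (tr e ψ) where
  inj := by
    intro i i' v h1 h2
    rw [tr_some] at h1 h2
    exact h.inj i i' _ h1 h2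
  hom := by
    intro i i' v v' h0 h1 h2
    rw [tr_some] at h1 h2
    have h3 := h.hom i i' _ _ h0 h1 h2
    rwa [e.symm.map_adj_iff] at h3
  conn := by
    have h1 : {i | tr e ψ i ≠ none} = {i | ψ i ≠ none} := by
      ext i
      simp only [Set.mem_ofPred_eq, ne_eq, tr_none]
    rw [h1]
    exact h.conn

theorem img_tr (e : G ≃g H) (ψ : Fin j → Option (Fin n)) (v : Fin n) :
    e v ∈ img (tr e ψ) ↔ v ∈ img ψ := by
  unfold img
  simp only [Finset.mem_filter, Finset.mem_univ, true_and, tr_some]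
  simp

theorem offN_tr (e : G ≃g H) (ψ : Fin j → Option (Fin n)) (h : Fin n) :
    offN H (img (tr e ψ)) (e h) = (offN G (img ψ) h).map e.toEquiv.toEmbedding := by
  ext x
  obtain ⟨y, rfl⟩ := e.surjective x
  unfold offN
  simp only [Finset.mem_filter, Finset.mem_univ, true_and, img_tr, Finset.mem_map,
    Equiv.coe_toEmbedding]
  constructor
  · rintro ⟨h1, h2⟩
    exact ⟨y, ⟨(e.map_adj_iff).1 h1, h2⟩, rfl⟩
  · rintro ⟨z, ⟨h1, h2⟩, h3⟩
    have h3' := e.injective h3
    subst h3'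
    exact ⟨(e.map_adj_iff).2 h1, h2⟩

theorem degs_br (e : G ≃g H) (h b : Fin n) : degs H (br H (e h) (e b)) = degs G (br G h b) := by
  have h1 : br H (e h) (e b) = (br G h b).map e.toEquiv.toEmbedding := by
    ext x
    obtain ⟨y, rfl⟩ := e.surjective x
    unfold br
    simp only [Finset.mem_filter, Finset.mem_univ, true_and, Finset.mem_map,
      Equiv.coe_toEmbedding, dist_iso]
    constructor
    · intro h1
      exact ⟨y, h1, rfl⟩
    · rintro ⟨z, h1, h3⟩
      have h3' := e.injective h3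
      subst h3'
      exact h1
  rw [h1]
  unfold degs
  rw [Finset.map_val, Multiset.map_map]
  refine Multiset.map_congr rfl fun x _ => ?_
  exact dg_iso e x

theorem hval_map (f : Fin n ↪ Fin n) (O : Finset (Fin n)) (a b : Fin n → ℝ) (g : ℕ → ℝ) (r : ℕ) :
    hval (O.map f) a b g r = hval O (fun x => a (f x)) (fun x => b (f x)) g r := by
  unfold hval
  symm
  refine Finset.sum_bij (fun S _ => S.map f) ?_ ?_ ?_ ?_
  · intro S hS
    rw [Finset.mem_powerset] at hS ⊢
    exact Finset.map_subset_map.2 hS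
  · intro S _ T _ h
    exact Finset.map_injective f h
  · intro T hT
    rw [Finset.mem_powerset] at hT
    refine ⟨O.filter (fun x => f x ∈ T), ?_, ?_⟩
    · rw [Finset.mem_powerset]
      exact Finset.filter_subset _ _
    · ext y
      rw [Finset.mem_map]
      constructor
      · rintro ⟨x, hx, rfl⟩
        exact (Finset.mem_filter.1 hx).2
      · intro hy
        obtain ⟨x, hx, rfl⟩ := Finset.mem_map.1 (hT hy)
        exact ⟨x, Finset.mem_filter.2 ⟨hx, hy⟩, rfl⟩
  · intro S hS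
    have h1 : O.map f \ S.map f = (O \ S).map f := (Finset.map_sdiff O S).symm
    rw [h1, Finset.prod_map, Finset.prod_map, Finset.card_map]

theorem hubf_tr (e : G ≃g H) (a b : Multiset ℕ → ℝ) (Kv : Fin j → ℝ)
    (Gf : Fin j → ℕ → ℕ → ℕ → ℝ) (ψ : Fin j → Option (Fin n)) (i : Fin j) (h : Fin n) :
    hubf J H a b Kv Gf (tr e ψ) i (e h) = hubf J G a b Kv Gf ψ i h := by
  unfold hubf
  rw [offN_tr, hval_map, dg_iso]
  have h1 : miss J (tr e ψ) i = miss J ψ i := by
    unfold miss
    simp only [tr_none]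
  rw [h1]
  have h2 : ∀ x, degs H (br H (e h) (e.toEquiv.toEmbedding x)) = degs G (br G h x) :=
    fun x => degs_br e h x
  simp only [h2]

theorem wt_tr (e : G ≃g H) (a b : Multiset ℕ → ℝ) (Kv Z : Fin j → ℝ)
    (Gf : Fin j → ℕ → ℕ → ℕ → ℝ) (ψ : Fin j → Option (Fin n)) :
    wt J H a b Kv Z Gf (tr e ψ) = wt J G a b Kv Z Gf ψ := by
  unfold wt
  refine Finset.prod_congr rfl fun i _ => ?_
  rcases hψ : ψ i with _ | h
  · have h1 : tr e ψ i = none := (tr_none e ψ i).2 hψ
    rw [h1]
  · have h1 : tr e ψ i = some (e h) := (tr_some e ψ i _).2 (by simpa using hψ)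
    rw [h1]
    exact hubf_tr e a b Kv Gf ψ i h

theorem fz_iso (α z : ℝ) (J : SimpleGraph (Fin j)) (Kv : Fin j → ℝ) (g : ℕ → ℝ) (e : G ≃g H) :
    fz α z J Kv g n G = fz α z J Kv g n H := by
  unfold fz
  refine Finset.sum_bij (fun ψ _ => tr e ψ) ?_ ?_ ?_ ?_
  · intro ψ hψ
    unfold TEs at hψ ⊢
    rw [Finset.mem_filter] at hψ ⊢
    refine ⟨Finset.mem_univ _, pe_tr e hψ.2.1, fun i => ?_⟩
    rw [ne_eq, tr_none]
    exact hψ.2.2 i
  · intro ψ _ φ _ h
    rw [← tr_symm e ψ, h, tr_symm]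
  · intro φ hφ
    refine ⟨tr e.symm φ, ?_, ?_⟩
    · unfold TEs at hφ ⊢
      rw [Finset.mem_filter] at hφ ⊢
      refine ⟨Finset.mem_univ _, pe_tr e.symm hφ.2.1, fun i => ?_⟩
      rw [ne_eq, tr_none]
      exact hφ.2.2 i
    · exact tr_symm e.symm φ
  · intro ψ _
    exact (wt_tr e _ _ _ _ _ ψ).symm

theorem isof : S_ISOF := by
  rintro α z j J Kv g n G H ⟨e⟩
  unfold fR
  rw [fz_iso α z J Kv g e, totW_iso α e]

end Pool.Agent.TH576.J2302
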