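import Pool.Agent.TH981.SD.Stm

set_option autoImplicit false

open Pool.Agent.TH981.SD
open Finset Set Filter
open scoped BigOperators Topology Classical

namespace Pool.Agent.TH576.J2306

theorem pexp_succ' (α : ℝ) (f : (n : ℕ) → SimpleGraph (Fin n) → ℝ) (m : ℕ) :
    ∀ (n : ℕ) (G : SimpleGraph (Fin n)), pexp α f (m + 1) n G =
      pexp α (fun n' G' => pexp α f 1 n' G') m n G := by
  induction m with
  | zero => intro n G; rfl
  | succ m ih =>
    intro n G
    change ∑ v, (lam α (dg G v) / totW α G) * pexp α f (m + 1) (n + 1) (attach G v) =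
      ∑ v, (lam α (dg G v) / totW α G) *
        pexp α (fun n' G' => pexp α f 1 n' G') m (n + 1) (attach G v)
    exact Finset.sum_congr rfl fun v _ => by rw [ih]

theorem law_aux (α : ℝ) (k : ℕ) (S : SimpleGraph (Fin k)) (m : ℕ) :
    ∀ (f : (n : ℕ) → SimpleGraph (Fin n) → ℝ),
    ∑ G, law α S m G * f (k + m) G = pexp α f m k S := by
  induction m with
  | zero =>
    intro f
    change ∑ G : SimpleGraph (Fin k), (if G = S then (1 : ℝ) else 0) * f k G = f k S
    simp
  | succ m ih =>
    intro f
    rw [pexp_succ', ← ih]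
    change ∑ G' : SimpleGraph (Fin (k + m + 1)), (∑ G : SimpleGraph (Fin (k + m)),
      ∑ v : Fin (k + m), law α S m G * ((dg G v : ℝ) ^ α / ∑ w, (dg G w : ℝ) ^ α) *
        (if attach G v = G' then 1 else 0)) * f (k + m + 1) G' = _
    simp only [Finset.sum_mul]
    rw [Finset.sum_comm]
    refine Finset.sum_congr rfl fun G _ => ?_
    rw [Finset.sum_comm]
    change _ = law α S m G * ∑ v, (lam α (dg G v) / totW α G) * f (k + m + 1) (attach G v)
    rw [Finset.mul_sum]
    refine Finset.sum_congr rfl fun v _ => ?_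
    rw [Finset.sum_eq_single (attach G v)]
    · rw [if_pos rfl]
      unfold lam totW lam
      ring
    · intro G' _ hG'
      rw [if_neg (Ne.symm hG')]
      ring
    · intro h
      exact absurd (Finset.mem_univ _) h

theorem law_ (h1 : S_PE) : S_LAW := by
  intro α k m S f
  exact law_aux α k S m f

end Pool.Agent.TH576.J2306
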